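import Pool.Agent.Lib.MP_391708_nt.U.L.SpecL

/-! # DDM (project X6): the model sum of `ddInd` -/

set_option autoImplicit false

namespace Pool.Agent.Lib.MP391708.U.L.DDMM

open Finset Filter Topology Pool.Agent.Lib.MP391708.QPA Pool.Agent.Lib.MP391708.QPA.H
open Pool.Agent.Lib.MP391708.U Pool.Agent.Lib.MP391708.U.K
open scoped Classical

noncomputable section

/-- the pairs `p₁ < p₂` of a set of primes -/
theorem half_sq (P : Finset ℕ) (f : ℕ → ℝ) (hf : ∀ p, 0 ≤ f p) :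
    ∑ t ∈ (P ×ˢ P).filter (fun t => t.1 < t.2), f t.1 * f t.2 ≤ (∑ p ∈ P, f p) ^ 2 / 2 := by
  have e : ∑ t ∈ (P ×ˢ P).filter (fun t => t.1 < t.2), f t.1 * f t.2 =
      ∑ t ∈ (P ×ˢ P).filter (fun t => t.2 < t.1), f t.1 * f t.2 := by
    apply Finset.sum_nbij' Prod.swap Prod.swap
    · intro t ht
      rw [mem_filter, mem_product] at ht ⊢
      exact ⟨⟨ht.1.2, ht.1.1⟩, ht.2⟩
    · intro t ht
      rw [mem_filter, mem_product] at ht ⊢
      exact ⟨⟨ht.1.2, ht.1.1⟩, ht.2⟩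
    · intro t _
      simp
    · intro t _
      simp
    · intro t _
      simp only [Prod.fst_swap, Prod.snd_swap]
      ring
  have hd : Disjoint ((P ×ˢ P).filter (fun t => t.1 < t.2)) ((P ×ˢ P).filter (fun t => t.2 < t.1)) := by
    rw [Finset.disjoint_filter]
    intro t _ h1 h2
    omega
  have h1 : ∑ t ∈ (P ×ˢ P).filter (fun t => t.1 < t.2), f t.1 * f t.2 +
      ∑ t ∈ (P ×ˢ P).filter (fun t => t.2 < t.1), f t.1 * f t.2 ≤ ∑ t ∈ P ×ˢ P, f t.1 * f t.2 := by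
    rw [← Finset.sum_union hd]
    apply Finset.sum_le_sum_of_subset_of_nonneg
    · exact Finset.union_subset (Finset.filter_subset _ _) (Finset.filter_subset _ _)
    · intro t _ _
      exact mul_nonneg (hf _) (hf _)
  have h2 : ∑ t ∈ P ×ˢ P, f t.1 * f t.2 = (∑ p ∈ P, f p) ^ 2 := by
    rw [sq, Finset.sum_mul_sum, Finset.sum_product]
  linarith

/-- the primes in `(N^0.2857, N^(3/7)]` -/
def P1 (N : ℕ) : Finset ℕ := PW N (2857 / 10000) (3 / 7)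

/-- the primes in `(N^(3/7), N^(4/7)]` -/
def P2 (N : ℕ) : Finset ℕ := PW N (3 / 7) (4 / 7)

/-- the pairs of the small primes -/
def TT (N : ℕ) : Finset (ℕ × ℕ) :=
  ((P1 N ×ˢ P1 N).filter (fun t => t.1 < t.2) ∪ P1 N ×ˢ P2 N).filter
    (fun t => ((t.1 * t.2 : ℕ) : ℝ) ≤ (N : ℝ) ^ (6 / 7 : ℝ))

theorem TT_pos {N : ℕ} {t : ℕ × ℕ} (ht : t ∈ TT N) :
    1 ≤ t.1 * t.2 ∧ ((t.1 * t.2 : ℕ) : ℝ) ≤ (N : ℝ) ^ (6 / 7 : ℝ) := by
  unfold TT P1 P2 PW at ht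
  rw [mem_filter, mem_union, mem_filter, mem_product, mem_product] at ht
  obtain ⟨h, h2⟩ := ht
  refine ⟨?_, h2⟩
  rcases h with h | h
  · have h3 := (mem_filter.mp h.1.1).2.pos
    have h4 := (mem_filter.mp h.1.2).2.pos
    exact Nat.mul_pos h3 h4
  · have h3 := (mem_filter.mp h.1).2.pos
    have h4 := (mem_filter.mp h.2).2.pos
    exact Nat.mul_pos h3 h4

theorem TT_sum (N : ℕ) : ∑ t ∈ TT N, 1 / ((t.1 * t.2 : ℕ) : ℝ) ≤
    (∑ p ∈ P1 N, 1 / (p : ℝ)) ^ 2 / 2 + (∑ p ∈ P1 N, 1 / (p : ℝ)) * ∑ p ∈ P2 N, 1 / (p : ℝ) := by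
  have h0 : ∀ t : ℕ × ℕ, 1 / ((t.1 * t.2 : ℕ) : ℝ) = 1 / (t.1 : ℝ) * (1 / (t.2 : ℝ)) := by
    intro t
    push_cast
    rw [one_div_mul_one_div]
  have h1 := half_sq (P1 N) (fun p => 1 / (p : ℝ)) (fun p => by positivity)
  have h2 : ∑ t ∈ P1 N ×ˢ P2 N, 1 / (t.1 : ℝ) * (1 / (t.2 : ℝ)) =
      (∑ p ∈ P1 N, 1 / (p : ℝ)) * ∑ p ∈ P2 N, 1 / (p : ℝ) := by
    rw [Finset.sum_mul_sum, Finset.sum_product]
  rw [← h2]
  refine le_trans ?_ (add_le_add_left h1 _)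
  rw [Finset.sum_congr rfl fun t _ => h0 t, ← Finset.sum_union_inter]
  unfold TT
  refine (Finset.sum_le_sum_of_subset_of_nonneg (Finset.filter_subset _ _) ?_).trans ?_
  · intro t _ _
    positivity
  · have : (0 : ℝ) ≤ ∑ t ∈ (P1 N ×ˢ P1 N).filter (fun t => t.1 < t.2) ∩ P1 N ×ˢ P2 N,
        1 / (t.1 : ℝ) * (1 / (t.2 : ℝ)) := Finset.sum_nonneg fun t _ => by positivity
    linarith

theorem YL_le {N : ℕ} (hN : 2 ≤ N) : YL N ≤ (N : ℝ) ^ (6 / 7 : ℝ) := by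
  unfold YL YK
  have : (2 : ℝ) ≤ N := by exact_mod_cast hN
  exact Real.rpow_le_rpow (by positivity) (by linarith) (by norm_num)

theorem YL_pos {N : ℕ} (hN : 2 ≤ N) : 0 < YL N := by
  unfold YL YK
  have : (2 : ℝ) ≤ N := by exact_mod_cast hN
  exact Real.rpow_pos_of_pos (by linarith) _

theorem mem_TT {N a b : ℕ} (hN : 2 ≤ N) (ha : a.Prime) (hb : b.Prime) (hab : a < b)
    (haz : zL N ≤ (a : ℝ)) (hY : (a : ℝ) * b < YL N) : (a, b) ∈ TT N := by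
  have hN2 : (2 : ℝ) ≤ N := by exact_mod_cast hN
  have hN0 : (0 : ℝ) < N := by linarith
  have hY' : (a : ℝ) * b < (N : ℝ) ^ (6 / 7 : ℝ) := hY.trans_le (YL_le hN)
  have ha0 : (0 : ℝ) < a := by exact_mod_cast ha.pos
  have hb0 : (0 : ℝ) < b := by exact_mod_cast hb.pos
  have hab' : (a : ℝ) < b := by exact_mod_cast hab
  have hz : (N : ℝ) ^ (2857 / 10000 : ℝ) < a := by
    refine lt_of_lt_of_le ?_ haz
    unfold zL
    exact Real.rpow_lt_rpow_of_exponent_lt (by linarith) (by norm_num)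
  have e1 : ((N : ℝ) ^ (3 / 7 : ℝ)) ^ 2 = (N : ℝ) ^ (6 / 7 : ℝ) := by
    rw [← Real.rpow_natCast, ← Real.rpow_mul hN0.le]
    norm_num
  have e2 : (N : ℝ) ^ (4 / 7 : ℝ) * (N : ℝ) ^ (2 / 7 : ℝ) = (N : ℝ) ^ (6 / 7 : ℝ) := by
    rw [← Real.rpow_add hN0]
    norm_num
  have ha3 : (a : ℝ) < (N : ℝ) ^ (3 / 7 : ℝ) := by
    apply lt_of_pow_lt_pow_left₀ 2 (by positivity)
    rw [e1]
    nlinarith
  have hb4 : (b : ℝ) < (N : ℝ) ^ (4 / 7 : ℝ) := by
    have h1 : (b : ℝ) * (N : ℝ) ^ (2 / 7 : ℝ) ≤ a * b := by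
      rw [mul_comm]
      exact mul_le_mul_of_nonneg_right haz hb0.le
    have h2 : (b : ℝ) * (N : ℝ) ^ (2 / 7 : ℝ) < (N : ℝ) ^ (4 / 7 : ℝ) * (N : ℝ) ^ (2 / 7 : ℝ) := by
      rw [e2]
      exact h1.trans_lt hY'
    exact lt_of_mul_lt_mul_right h2 (by positivity)
  have haP : a ∈ P1 N := by
    unfold P1 PW
    rw [mem_filter, mem_Ioc]
    exact ⟨⟨(Nat.floor_lt (by positivity)).mpr hz, Nat.le_floor ha3.le⟩, ha⟩
  unfold TT
  rw [mem_filter, mem_union, mem_filter, mem_product, mem_product]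
  refine ⟨?_, ?_⟩
  · rcases le_or_gt b ⌊(N : ℝ) ^ (3 / 7 : ℝ)⌋₊ with h | h
    · left
      refine ⟨⟨haP, ?_⟩, hab⟩
      unfold P1 PW
      rw [mem_filter, mem_Ioc]
      exact ⟨⟨(Nat.floor_lt (by positivity)).mpr (hz.trans hab'), h⟩, hb⟩
    · right
      refine ⟨haP, ?_⟩
      unfold P2 PW
      rw [mem_filter, mem_Ioc]
      exact ⟨⟨h, Nat.le_floor hb4.le⟩, hb⟩
  · push_cast
    exact hY'.le

theorem dd_pt {N m : ℕ} (hN : 2 ≤ N) (hm : m ≤ 4 * N ^ 2) :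
    ddInd (YL N) (zL N) m ≤ ∑ t ∈ TT N, ∑ q ∈ (Icc 1 (4 * N ^ 2)).filter Nat.Prime,
      if t.1 * t.2 * q = m then (1 : ℝ) else 0 := by
  have hnn : ∀ t : ℕ × ℕ, (0 : ℝ) ≤ ∑ q ∈ (Icc 1 (4 * N ^ 2)).filter Nat.Prime,
      if t.1 * t.2 * q = m then (1 : ℝ) else 0 := by
    intro t
    exact Finset.sum_nonneg fun q _ => by split_ifs <;> norm_num
  unfold ddInd
  split_ifs with h
  · obtain ⟨hsq, hc, hz, ⟨q, hq, hqY⟩, hTF⟩ := h
    have hc2 : (m.primeFactors.erase q).card = 2 := by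
      rw [Finset.card_erase_of_mem hq, hc]
    obtain ⟨a', b', hab', he'⟩ := Finset.card_eq_two.mp hc2
    obtain ⟨a, b, hab, he⟩ : ∃ a b : ℕ, a < b ∧ m.primeFactors.erase q = {a, b} := by
      rcases lt_or_gt_of_ne hab' with h | h
      · exact ⟨a', b', h, he'⟩
      · exact ⟨b', a', h, by rw [he', Finset.pair_comm]⟩
    have hprod := Nat.prod_primeFactors_of_squarefree hsq
    rw [← Finset.mul_prod_erase _ _ hq, he, Finset.prod_pair hab.ne] at hprod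
    have haf : a ∈ m.primeFactors := by
      have : a ∈ m.primeFactors.erase q := by rw [he]; simp
      exact (Finset.mem_erase.mp this).2
    have hbf : b ∈ m.primeFactors := by
      have : b ∈ m.primeFactors.erase q := by rw [he]; simp
      exact (Finset.mem_erase.mp this).2
    have hqp := Nat.prime_of_mem_primeFactors hq
    have hap := Nat.prime_of_mem_primeFactors haf
    have hbp := Nat.prime_of_mem_primeFactors hbf
    have hm0 : 0 < m := Nat.pos_of_ne_zero hsq.ne_zero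
    have h1 := hTF q (Nat.dvd_of_mem_primeFactors hq) hqY
    have hq0 : (0 : ℝ) < q := by exact_mod_cast hqp.pos
    have hY : (a : ℝ) * b < YL N := by
      rw [div_lt_iff₀ (YL_pos hN), ← hprod] at h1
      push_cast at h1
      exact lt_of_mul_lt_mul_left h1 hq0.le
    have hmem := mem_TT hN hap hbp hab (hz a haf) hY
    have hqm : q ∈ (Icc 1 (4 * N ^ 2)).filter Nat.Prime := by
      rw [mem_filter, mem_Icc]
      exact ⟨⟨hqp.one_le, (Nat.le_of_dvd hm0 (Nat.dvd_of_mem_primeFactors hq)).trans hm⟩, hqp⟩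
    have h2 : (1 : ℝ) ≤ ∑ q ∈ (Icc 1 (4 * N ^ 2)).filter Nat.Prime,
        if (a, b).1 * (a, b).2 * q = m then (1 : ℝ) else 0 := by
      have h3 := Finset.single_le_sum (s := (Icc 1 (4 * N ^ 2)).filter Nat.Prime)
        (f := fun q => if (a, b).1 * (a, b).2 * q = m then (1 : ℝ) else 0)
        (fun q _ => by simp only; split_ifs <;> norm_num) hqm
      refine le_trans ?_ h3
      simp only
      rw [if_pos (by rw [← hprod]; ring)]
    exact h2.trans (Finset.single_le_sum (f := fun t : ℕ × ℕ => ∑ q ∈ (Icc 1 (4 * N ^ 2)).filter Nat.Prime,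
      if t.1 * t.2 * q = m then (1 : ℝ) else 0) (fun t _ => hnn t) hmem)
  · exact Finset.sum_nonneg fun t _ => hnn t

theorem model_dd {N : ℕ} (hN : 2 ≤ N) :
    model N (ddInd (YL N) (zL N)) ≤ ∑ t ∈ TT N,
      ∑ q ∈ ((Icc 1 (4 * N ^ 2)).filter Nat.Prime).filter
        (fun q => N ^ 2 < t.1 * t.2 * q ∧ t.1 * t.2 * q ≤ 4 * N ^ 2),
        1 / (2 * √((t.1 * t.2 * q : ℕ) : ℝ)) := by
  unfold model
  calc ∑ m ∈ Ioc (N ^ 2) (4 * N ^ 2), ddInd (YL N) (zL N) m / (2 * √(m : ℝ))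
      ≤ ∑ m ∈ Ioc (N ^ 2) (4 * N ^ 2), ∑ t ∈ TT N, ∑ q ∈ (Icc 1 (4 * N ^ 2)).filter Nat.Prime,
          if t.1 * t.2 * q = m then 1 / (2 * √(m : ℝ)) else 0 := by
        refine Finset.sum_le_sum fun m hm => ?_
        rw [mem_Ioc] at hm
        have h1 := dd_pt hN hm.2
        have h2 : (0 : ℝ) ≤ 1 / (2 * √(m : ℝ)) := by positivity
        calc ddInd (YL N) (zL N) m / (2 * √(m : ℝ)) = ddInd (YL N) (zL N) m * (1 / (2 * √(m : ℝ))) := by
              ring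
          _ ≤ (∑ t ∈ TT N, ∑ q ∈ (Icc 1 (4 * N ^ 2)).filter Nat.Prime,
                if t.1 * t.2 * q = m then (1 : ℝ) else 0) * (1 / (2 * √(m : ℝ))) := by gcongr
          _ = _ := by
              rw [Finset.sum_mul]
              refine Finset.sum_congr rfl fun t _ => ?_
              rw [Finset.sum_mul]
              refine Finset.sum_congr rfl fun q _ => ?_
              split_ifs <;> simp
    _ = _ := by
        rw [Finset.sum_comm]
        refine Finset.sum_congr rfl fun t _ => ?_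
        rw [Finset.sum_comm]
        conv_rhs => rw [Finset.sum_filter]
        refine Finset.sum_congr rfl fun q _ => ?_
        rw [Finset.sum_ite_eq]
        simp only [mem_Ioc]

theorem main (hINB : SpecINB) (hMRS : SpecMRS) : SpecDDM := by
  obtain ⟨N₁, h1⟩ := hINB (1 / 1000) (8 / 7) (by norm_num) (by norm_num)
  obtain ⟨N₂, h2⟩ := hMRS
  refine ⟨max (max N₁ N₂) 2, fun N hN => ?_⟩
  have hN1 : N₁ ≤ N := (le_max_left _ _).trans ((le_max_left _ _).trans hN)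
  have hN2 : N₂ ≤ N := (le_max_right _ _).trans ((le_max_left _ _).trans hN)
  have hN3 : 2 ≤ N := (le_max_right _ _).trans hN
  obtain ⟨hS1, hS2, _⟩ := h2 N hN2
  have hN0 : (2 : ℝ) ≤ N := by exact_mod_cast hN3
  have hL : 0 < Real.log N := Real.log_pos (by linarith)
  have hNL : 0 ≤ (N : ℝ) / Real.log N := by positivity
  have e : (2 : ℝ) - 8 / 7 = 6 / 7 := by norm_num
  refine (model_dd hN3).trans ?_
  have h3 : ∀ t ∈ TT N, ∑ q ∈ ((Icc 1 (4 * N ^ 2)).filter Nat.Prime).filter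
        (fun q => N ^ 2 < t.1 * t.2 * q ∧ t.1 * t.2 * q ≤ 4 * N ^ 2),
        1 / (2 * √((t.1 * t.2 * q : ℕ) : ℝ)) ≤
      (1 + 1 / 1000) / (8 / 7) * (N / Real.log N) * (1 / ((t.1 * t.2 : ℕ) : ℝ)) := by
    intro t ht
    obtain ⟨ht1, ht2⟩ := TT_pos ht
    have h4 := h1 N (t.1 * t.2) hN1 ht1 (by rw [e]; exact ht2)
    refine h4.trans (le_of_eq ?_)
    ring
  refine (Finset.sum_le_sum h3).trans ?_
  rw [← Finset.mul_sum]
  have h5 := TT_sum N
  have hs1 : (0 : ℝ) ≤ ∑ p ∈ P1 N, 1 / (p : ℝ) := Finset.sum_nonneg fun p _ => by positivity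
  have hs2 : (0 : ℝ) ≤ ∑ p ∈ P2 N, 1 / (p : ℝ) := Finset.sum_nonneg fun p _ => by positivity
  have hS1' : ∑ p ∈ P1 N, 1 / (p : ℝ) ≤ 4057 / 10000 := hS1
  have hS2' : ∑ p ∈ P2 N, 1 / (p : ℝ) ≤ 2878 / 10000 := hS2
  have h6 : (∑ p ∈ P1 N, 1 / (p : ℝ)) ^ 2 / 2 + (∑ p ∈ P1 N, 1 / (p : ℝ)) * ∑ p ∈ P2 N, 1 / (p : ℝ) ≤
      (4057 / 10000) ^ 2 / 2 + (4057 / 10000) * (2878 / 10000) := by
    gcongr
  calc (1 + 1 / 1000) / (8 / 7) * (N / Real.log N) * ∑ t ∈ TT N, 1 / ((t.1 * t.2 : ℕ) : ℝ)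
      ≤ (1 + 1 / 1000) / (8 / 7) * (N / Real.log N) *
        ((4057 / 10000) ^ 2 / 2 + (4057 / 10000) * (2878 / 10000)) :=
        mul_le_mul_of_nonneg_left (h5.trans h6) (by positivity)
    _ = ((1 + 1 / 1000) / (8 / 7) * ((4057 / 10000) ^ 2 / 2 + (4057 / 10000) * (2878 / 10000))) *
        (N / Real.log N) := by ring
    _ ≤ 7 / 40 * (N / Real.log N) := by
        apply mul_le_mul_of_nonneg_right _ hNL
        norm_num

end

end Pool.Agent.Lib.MP391708.U.L.DDMM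

namespace Pool.Agent.Lib.MP391708.U.L

theorem specDDM (hINB : SpecINB) (hMRS : SpecMRS) : SpecDDM := DDMM.main hINB hMRS

end Pool.Agent.Lib.MP391708.U.L
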