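import Pool.Agent.Lib.MP_391708_nt.U.L.FIN6
import Pool.Agent.Lib.MP_391708_nt.U.K.FIN7

/-!
# FIN7: the theorems on primes (`MAINW`, `MAINL`) with one exceptional set
-/

set_option autoImplicit false

namespace Pool.Agent.Lib.MP391708.U.L

open Finset Filter Topology Pool.Agent.Lib.MP391708.QPA Pool.Agent.Lib.MP391708.QPA.H
open Pool.Agent.Lib.MP391708.U Pool.Agent.Lib.MP391708.U.K
open scoped Classical

open FIN6M FIN5M FIN7M in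
/-- the theorem on primes: formula and lower bounds with one exceptional set -/
theorem spec_primes (h₁ : SpecMAINW) (h₂ : SpecMAINL) : ∃ E : Set ℤ,
    (∀ B : ℝ, ∃ A₀ : ℕ, ∀ A : ℕ, A₀ ≤ A →
      (((Icc (-(A : ℤ)) A).filter (fun a => a ∈ E)).card : ℝ) ≤ A / (Real.log A) ^ B) ∧
    ∀ δ ε : ℝ, 0 < δ → 0 < ε → ∃ a₀ : ℝ, ∀ a : ℤ, a ∉ E → a₀ ≤ |(a : ℝ)| →
      ∃ h : ℝ, 0 < h ∧ IsC a h ∧ ∀ N : ℕ, |(a : ℝ)| ≤ N * (Real.log N) ^ (1 / 4 : ℝ) →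
        ((N : ℝ) ≤ |(a : ℝ)| ^ (6 / 5 - δ) → Good1 ε N N a h) ∧
        ((N : ℝ) ≤ |(a : ℝ)| ^ (10 / 7 - δ) → LowP (79 / 100) N a h) ∧
        ((N : ℝ) ≤ |(a : ℝ)| ^ (14 / 9 - δ) →
          1 / 20 * (h * (N / Real.log N)) ≤ prc a (2 * N) - prc a N) := by
  obtain ⟨E₁, hE₁, hl⟩ := h₁
  obtain ⟨E₂, hE₂, hq⟩ := h₂
  refine ⟨E₁ ∪ E₂, thin_union (fun a ha => ha) hE₁ hE₂, fun δ ε hδ hε => ?_⟩
  obtain ⟨c, hc, h3⟩ := hl 1 δ le_rfl hδ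
  obtain ⟨a₀, h4⟩ := h3 ε (5 / 6) hε (by norm_num) le_rfl
  obtain ⟨a₁, h5⟩ := low hl δ hδ
  obtain ⟨a₂, h6⟩ := hq δ hδ
  refine ⟨max a₀ (max a₁ a₂), fun a ha ha0 => ?_⟩
  obtain ⟨h, hh, hC, h7⟩ := h4 a (fun hh => ha (Or.inl hh)) ((le_max_left _ _).trans ha0)
  obtain ⟨h', hh', hC', h8⟩ := h5 a (fun hh => ha (Or.inl hh))
    ((le_max_left _ _).trans ((le_max_right _ _).trans ha0))
  obtain ⟨h'', hh'', hC'', h9⟩ := h6 a (fun hh => ha (Or.inr hh))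
    ((le_max_right _ _).trans ((le_max_right _ _).trans ha0))
  have he : h' = h := tendsto_nhds_unique hC' hC
  have he' : h'' = h := tendsto_nhds_unique hC'' hC
  subst he
  subst he'
  refine ⟨h'', hh'', hC'', fun N hN => ⟨fun hN2 => (h7 N hN).1 hN2, fun hN2 => h8 N hN hN2,
    fun hN2 => ?_⟩⟩
  rw [← cntk_one]
  exact h9 N hN hN2

end Pool.Agent.Lib.MP391708.U.L
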