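import Pool.Agent.Lib.MP_391708_nt.U.L.SpecL
import Pool.Agent.Lib.MP_391708_nt.U.K.FINR

/-!
# Project X6, module FINL: primes in `(N, 2N]`, one scale, with the constant `1/20`
-/

set_option autoImplicit false

namespace Pool.Agent.Lib.MP391708.U.L

open Finset Filter Topology Pool.Agent.Lib.MP391708.QPA Pool.Agent.Lib.MP391708.QPA.H
open Pool.Agent.Lib.MP391708.U Pool.Agent.Lib.MP391708.U.K
open scoped Classical

noncomputable section

namespace FINLM

/-- the final inequality -/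
lemma final_ineq {S S1 cM G h L C η Hr m L' : ℝ} (hC : 0 < C) (hG : 0 < G) (hL : 0 < L)
    (hη : η ≤ 1 / (40000 * C)) (hh : 0 < h) (h1 : |G - h| ≤ 1 / 1000 * h)
    (h2 : |cM - G * m| ≤ 1 / 10000 * (G * L)) (h3 : 51 / 1000 * L ≤ m) (h4 : S1 ≤ C * G * Hr)
    (h5 : Hr ≤ 2 * η * L) (h6 : cM ≤ S1 + S) (h7 : L' ≤ 1002 / 1000 * L) :
    1 / 20 * (h * L') ≤ S := by
  have e1 : G * m - 1 / 10000 * (G * L) ≤ cM := by
    have := (abs_le.1 h2).1
    linarith
  have e2 : 51 / 1000 * (G * L) ≤ G * m := by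
    calc 51 / 1000 * (G * L) = G * (51 / 1000 * L) := by ring
      _ ≤ G * m := mul_le_mul_of_nonneg_left h3 hG.le
  have e3 : S1 ≤ 1 / 20000 * (G * L) := by
    refine h4.trans ?_
    calc C * G * Hr ≤ C * G * (2 * η * L) := mul_le_mul_of_nonneg_left h5 (by positivity)
      _ = (C * η) * (2 * (G * L)) := by ring
      _ ≤ (1 / 40000) * (2 * (G * L)) := by
          refine mul_le_mul_of_nonneg_right ?_ (by positivity)
          calc C * η ≤ C * (1 / (40000 * C)) := mul_le_mul_of_nonneg_left hη hC.le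
            _ = 1 / 40000 := by field_simp
      _ = 1 / 20000 * (G * L) := by ring
  have e4 : 999 / 1000 * h ≤ G := by
    have := (abs_le.1 h1).1
    linarith
  have e5 : 999 / 1000 * h * L ≤ G * L := mul_le_mul_of_nonneg_right e4 hL.le
  have e7 : 1 / 20 * (h * L') ≤ 1 / 20 * (h * (1002 / 1000 * L)) :=
    mul_le_mul_of_nonneg_left (mul_le_mul_of_nonneg_left h7 hh.le) (by norm_num)
  have e8 : 0 < h * L := by positivity
  nlinarith

/-- `FL ≤ 1_P` -/
lemma FL_le (Y z : ℝ) (m : ℕ) : FL Y z m ≤ primeInd m := by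
  have h3 : 0 ≤ p3Ind Y m := by
    unfold p3Ind
    split_ifs <;> norm_num
  have h4 : 0 ≤ g4Ind Y z m := by
    unfold g4Ind
    split_ifs <;> norm_num
  have h5 : 0 ≤ ddInd Y z m := by
    unfold ddInd
    split_ifs <;> norm_num
  unfold FL
  linarith

end FINLM

open FINLM FINRM FINQM BasM Bas in
theorem specFINL (hBLK : SpecBLKL) (hMDL : SpecMDL) (hT : SpecTAILV) (hF6 : SpecF6U)
    (hP : SpecRHOP) (h2 : SpecRHO2) (hGMAX : SpecGMAXU) : SpecFINL := by
  intro θ hθ hθ1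
  obtain ⟨NM, hMDL⟩ := hMDL
  obtain ⟨C, hC, hT⟩ := hT (1 / 100) (by norm_num) le_rfl
  obtain ⟨cG, CG, hcG, hCG, hG⟩ := hGMAX
  obtain ⟨η, hη, hη1, hη2⟩ : ∃ η : ℝ, 0 < η ∧ η ≤ 1 / 1000 ∧ η ≤ 1 / (40000 * C) :=
    ⟨min (1 / 1000) (1 / (40000 * C)), lt_min (by norm_num) (by positivity), min_le_left _ _,
      min_le_right _ _⟩
  refine ⟨η, hη, by linarith, fun B hB => ?_⟩
  have hB1 : 0 < B + 1 := by linarith
  obtain ⟨W1, hW1, hT⟩ := hT (B + 1) hB1
  obtain ⟨W2, hW2, hBLK⟩ := hBLK θ (1 / 10000) (B + 1) hθ (by norm_num) hB1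
  obtain ⟨W3, hW3, hF6⟩ := hF6 (1 / 1000) (B + 1) (by norm_num) hB1
  obtain ⟨W, hWW1, hWW2, hWW3⟩ : ∃ W : ℝ, W1 ≤ W ∧ W2 ≤ W ∧ W3 + 1 ≤ W :=
    ⟨max W1 (max W2 (W3 + 1)), le_max_left _ _, (le_max_left _ _).trans (le_max_right _ _),
      (le_max_right _ _).trans (le_max_right _ _)⟩
  have hW1' : 1 ≤ W := by linarith
  obtain ⟨N2, hT⟩ := hT W hWW1
  obtain ⟨N3, hBLK⟩ := hBLK W hWW2
  obtain ⟨A3, hF6⟩ := hF6 (W - 1) (by linarith)
  have hθ0 : 0 < θ := by linarith
  obtain ⟨R, hR⟩ : ∃ R : ℝ, R = 1 + 2 * (2 : ℝ) ^ (B + 1) := ⟨_, rfl⟩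
  have hev : ∀ᶠ M : ℕ in atTop, ∀ A : ℕ, (M : ℝ) ^ θ ≤ A → (A : ℝ) ≤ M * √(Real.log M) →
      exc A (fun a => ∃ h : ℝ, 0 < h ∧ IsC a h ∧ ∀ N : ℕ, M ≤ N → (N : ℝ) ≤ (1 + η) * M + 1 →
        1 / 20 * (h * (N / Real.log N)) ≤ cntk 1 N a) ≤ A / (Real.log A) ^ B := by
    filter_upwards [eventually_ge_atTop NM, eventually_ge_atTop N2,
      eventually_ge_atTop N3,
      FIN.ev_large θ hθ0 A3, FIN.ev_large θ hθ0 ⌈Real.exp R⌉₊, ev_w W hW1', ev_adm θ,
      ev_wN (show 0 < W by linarith) 2, ev_log 1, ev_pow (show (9 / 10 : ℝ) < 1 by norm_num) (1 / η),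
      ev_pow (show (0 : ℝ) < 1 by norm_num) (2 / η), ev_half, eventually_ge_atTop 1000] with
      M hNM hN2 hN3 hlA3 hlAR hw hadm hw2 hl1 hp1 hp2 hhalf hM3 A hA1 hA2
    have hM1000 : (1000 : ℝ) ≤ M := by exact_mod_cast hM3
    have hM1 : (1 : ℝ) < M := by exact_mod_cast (by omega : 1 < M)
    have hM0 : (0 : ℝ) < M := by linarith
    have hlog : 0 < Real.log M := by linarith
    rw [Real.rpow_one] at hp1 hp2
    rw [Real.rpow_zero, mul_one] at hp2
    have hηM1 : (M : ℝ) ^ (9 / 10 : ℝ) ≤ η * M := by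
      rw [one_div, inv_mul_le_iff₀ hη] at hp1
      exact hp1
    have hηM2 : 2 ≤ η * M := by
      rw [div_le_iff₀ hη] at hp2
      linarith
    have hA12 : (M : ℝ) ^ (1 / 2 : ℝ) ≤ A :=
      (Real.rpow_le_rpow_of_exponent_le hM1.le (by linarith)).trans hA1
    have hApos : (0 : ℝ) < A := (Real.rpow_pos_of_pos hM0 _).trans_le hA1
    obtain ⟨hwa, hwb, hwc, hlA1⟩ := hw A hA12 hA2
    have hT0 : 0 < Real.log A := by linarith
    have hRT : R ≤ Real.log A := by
      have h3 := hlAR A hA1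
      have h4 : Real.exp R ≤ A := (Nat.le_ceil _).trans (by exact_mod_cast h3)
      rw [Real.le_log_iff_exp_le hApos]
      exact h4
    have hAdm : Adm θ M A := hadm A hA1 hA2
    have hW12 : W - 1 + 2 = W + 1 := by ring
    have hAh : (A : ℝ) ≤ 1 / 2 * (M : ℝ) ^ 2 := hA2.trans hhalf
    -- the model
    have hmod : 51 / 1000 * ((M : ℝ) / Real.log M) ≤ model M (FL (YL M) (zL M)) := hMDL M hNM
    -- the exceptional sets
    have hX1 := hF6 A (wN W M) (hlA3 A hA1) hwa (by rw [hW12]; exact hwb)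
    have hX2 := (hBLK M A hN3 hAdm).trans (one_exc hApos hT0 hB hwc)
    have hX3 := (hT M A hN2 hA12).trans (one_exc hApos hT0 hB hwc)
    have hfin : exc A (fun a => ∃ h : ℝ, 0 < h ∧ IsC a h ∧ ∀ N : ℕ, M ≤ N →
        (N : ℝ) ≤ (1 + η) * M + 1 → 1 / 20 * (h * (N / Real.log N)) ≤ cntk 1 N a) ≤
        exc A (fun a => (∃ h : ℝ, 0 < h ∧ Tendsto (fun v : ℕ => Gw v a) atTop (𝓝 h) ∧
          |Gw (wN W M) a - h| ≤ 1 / 1000 * h) ∧
          ((|cnt M a (FL (YL M) (zL M))
            - Gw (wN W M) a * model M (FL (YL M) (zL M))|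
            ≤ 1 / 10000 * Gw (wN W M) a * M / Real.log M) ∧
          ∀ X H : ℕ, (M : ℝ) ^ (9 / 10 : ℝ) ≤ H →
            ∑ n ∈ Ioc X (X + H), rInd ((M : ℝ) ^ (1 / 100 : ℝ)) (val a n)
              ≤ C * Gw (wN W M) a * H / Real.log M)) := by
      refine exc_mono ?_
      rintro a haA ⟨⟨h, hh, hht, hh1⟩, hb, ht⟩
      refine ⟨h, hh, ?_, ?_⟩
      · unfold IsC
        refine hht.congr ?_
        intro X
        exact FIN.Gw_eq hP h2 X a
      · intro N hMN hN
        have hG0 : 0 < Gw (wN W M) a := by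
          refine lt_of_lt_of_le ?_ (hG (wN W M) hw2 a).1
          have h3 : (2 : ℝ) ≤ wN W M := by exact_mod_cast hw2
          have h4 : 0 < Real.log ((wN W M : ℝ) + 1) := Real.log_pos (by linarith)
          positivity
        set H : ℕ := ⌈η * M⌉₊ + 1 with hH
        have hH1 : η * M ≤ (⌈η * M⌉₊ : ℝ) := Nat.le_ceil _
        have hH2 : (⌈η * M⌉₊ : ℝ) < η * M + 1 := Nat.ceil_lt_add_one (by positivity)
        have hHr : (H : ℝ) = (⌈η * M⌉₊ : ℝ) + 1 := by rw [hH]; push_cast; ring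
        have hNH : N ≤ M + H := by
          have h3 : (N : ℝ) ≤ ((M + H : ℕ) : ℝ) := by
            rw [Nat.cast_add, hHr]
            linarith
          exact_mod_cast h3
        have hS := sum_shift (fun n => primeInd (val a n)) (fun n => FIN.primeInd_nonneg _)
          hMN hNH
        have hS0 : cnt M a (FL (YL M) (zL M))
            ≤ ∑ n ∈ Ioc M (2 * M), primeInd (val a n) := by
          unfold cnt
          exact sum_le_sum fun n _ => FL_le _ _ _
        have hS1 : ∑ n ∈ Ioc M (M + H), primeInd (val a n)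
            ≤ C * Gw (wN W M) a * ((H : ℝ) / Real.log M) := by
          have h3 := ht M H (hηM1.trans (by rw [hHr]; linarith))
          rw [mul_div_assoc] at h3
          refine (sum_le_sum fun n hn => ?_).trans h3
          exact prime_le_rInd (by omega) (by norm_num) hAh haA (mem_Ioc.1 hn).1
        have hNr : (M : ℝ) ≤ N := by exact_mod_cast hMN
        refine (FINLM.final_ineq (S := ∑ n ∈ Ioc N (2 * N), primeInd (val a n))
          (S1 := ∑ n ∈ Ioc M (M + H), primeInd (val a n))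
          (cM := cnt M a (FL (YL M) (zL M)))
          (G := Gw (wN W M) a) (h := h) (L := M / Real.log M) (C := C) (η := η)
          (Hr := (H : ℝ) / Real.log M)
          (m := model M (FL (YL M) (zL M)))
          (L' := N / Real.log N) hC hG0 (by positivity) hη2 hh hh1 ?_ hmod hS1 ?_
          (hS0.trans hS) ?_).trans
          (sum_prime_le N a)
        · refine hb.trans (le_of_eq ?_)
          ring
        · rw [← mul_div_assoc]
          refine div_le_div_of_nonneg_right ?_ hlog.le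
          rw [hHr]
          linarith
        · rw [← mul_div_assoc]
          have h3 : Real.log M ≤ Real.log N := Real.log_le_log hM0 hNr
          have h4 : (N : ℝ) ≤ 1002 / 1000 * M := by
            have : η * M ≤ 1 / 1000 * M := mul_le_mul_of_nonneg_right hη1 hM0.le
            linarith
          exact div_le_div₀ (by positivity) h4 hlog h3
    refine hfin.trans ((exc_and A _ _).trans ?_)
    refine (add_le_add hX1 ((exc_and A _ _).trans (add_le_add hX2 hX3))).trans ?_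
    calc (A : ℝ) / (Real.log A) ^ (B + 1) + ((2 : ℝ) ^ (B + 1) * (A / (Real.log A) ^ (B + 1))
          + (2 : ℝ) ^ (B + 1) * (A / (Real.log A) ^ (B + 1)))
        = R * (A / (Real.log A) ^ (B + 1)) := by rw [hR]; ring
      _ ≤ Real.log A * (A / (Real.log A) ^ (B + 1)) :=
          mul_le_mul_of_nonneg_right hRT (by positivity)
      _ = A / (Real.log A) ^ B := by
          rw [Real.rpow_add hT0, Real.rpow_one]
          field_simp
  obtain ⟨N₀, hN₀⟩ := eventually_atTop.1 hev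
  exact ⟨N₀, fun M A hM hA1 hA2 => hN₀ M hM A hA1 hA2⟩

end

end Pool.Agent.Lib.MP391708.U.L
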