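import Pool.Agent.Lib.MP_391708_nt.U.L.SpecL

/-! # G4M: products of four primes in the model -/

set_option autoImplicit false

namespace Pool.Agent.Lib.MP391708.U.L

open Finset Filter Topology Pool.Agent.Lib.MP391708.QPA Pool.Agent.Lib.MP391708.QPA.H
open Pool.Agent.Lib.MP391708.U Pool.Agent.Lib.MP391708.U.K
open scoped Classical

noncomputable section

namespace G4MM

/-- four primes in increasing order -/
theorem four_sorted (s : Finset ℕ) (hs : s.card = 4) :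
    ∃ a b c d : ℕ, a < b ∧ b < c ∧ c < d ∧ s = {a, b, c, d} := by
  have hf := s.orderEmbOfFin hs
  set f : Fin 4 ↪o ℕ := s.orderEmbOfFin hs with hfd
  refine ⟨f 0, f 1, f 2, f 3, ?_, ?_, ?_, ?_⟩
  · exact f.strictMono (by decide)
  · exact f.strictMono (by decide)
  · exact f.strictMono (by decide)
  · have h : (s : Set ℕ) = Set.range f := (Finset.range_orderEmbOfFin s hs).symm
    ext x
    rw [← Finset.mem_coe, h]
    simp only [Set.mem_range, mem_insert, mem_singleton]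
    constructor
    · rintro ⟨i, rfl⟩
      fin_cases i
      · left; rfl
      · right; left; rfl
      · right; right; left; rfl
      · right; right; right; rfl
    · rintro (h | h | h | h)
      · exact ⟨0, h.symm⟩
      · exact ⟨1, h.symm⟩
      · exact ⟨2, h.symm⟩
      · exact ⟨3, h.symm⟩

/-- the structure of the numbers in question -/
theorem g4_struct {N m : ℕ} (hN : 2 ≤ N) (hm : N ^ 2 < m)
    (hsq : Squarefree m) (hc : m.primeFactors.card = 4)
    (hp : ∀ p ∈ m.primeFactors, zL N ≤ (p : ℝ) ∧ (p : ℝ) ≤ YL N) (hT : TF (YL N) m) :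
    ∃ a b c q : ℕ, a ∈ PW N (2857 / 10000) (3 / 7) ∧ b ∈ PW N (2857 / 10000) (3 / 7) ∧ a < b ∧
      c ∈ PW N (8 / 21) (4 / 7) ∧ ((a * b * c : ℕ) : ℝ) ≤ (N : ℝ) ^ (9 / 7 : ℝ) ∧ q.Prime ∧
      a * b * c * q = m := by
  obtain ⟨a, b, c, d, hab, hbc, hcd, hs⟩ := four_sorted _ hc
  have hmem : ∀ x, (x = a ∨ x = b ∨ x = c ∨ x = d) → x ∈ m.primeFactors := by
    intro x hx
    rw [hs]
    simpa using hx
  have ha := hmem a (by simp)
  have hb := hmem b (by simp)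
  have hcc := hmem c (by simp)
  have hd := hmem d (by simp)
  have hprod : a * b * c * d = m := by
    rw [← Nat.prod_primeFactors_of_squarefree hsq, hs]
    have h1 : a ∉ ({b, c, d} : Finset ℕ) := by
      simp only [mem_insert, mem_singleton, not_or]
      omega
    have h2 : b ∉ ({c, d} : Finset ℕ) := by
      simp only [mem_insert, mem_singleton, not_or]
      omega
    have h3 : c ∉ ({d} : Finset ℕ) := by
      simp only [mem_singleton]
      omega
    rw [Finset.prod_insert h1, Finset.prod_insert h2, Finset.prod_insert h3,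
      Finset.prod_singleton]
    ring
  set R : ℝ := (N : ℝ) with hR
  have hR2 : 2 ≤ R := by rw [hR]; exact_mod_cast hN
  have hR0 : 0 < R := by linarith
  have hR1 : 1 < R := by linarith
  obtain ⟨haz, haY⟩ := hp a ha
  obtain ⟨hbz, hbY⟩ := hp b hb
  obtain ⟨hcz, hcY⟩ := hp c hcc
  obtain ⟨hdz, hdY⟩ := hp d hd
  set Y : ℝ := YL N with hY
  set z : ℝ := zL N with hz
  have hz0 : 0 < z := by
    rw [hz, zL]; exact Real.rpow_pos_of_pos hR0 _
  have hY0 : 0 < Y := lt_of_lt_of_le hz0 (haz.trans haY)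
  have hYR : Y ≤ R ^ (6 / 7 : ℝ) := by
    rw [hY, YL, YK]
    exact Real.rpow_le_rpow (by positivity) (by linarith) (by norm_num)
  have habR : (a : ℝ) < b := by exact_mod_cast hab
  have hbcR : (b : ℝ) < c := by exact_mod_cast hbc
  have hcdR : (c : ℝ) < d := by exact_mod_cast hcd
  have ha0 : (0 : ℝ) < a := lt_of_lt_of_le hz0 haz
  have hb0 : (0 : ℝ) < b := ha0.trans habR
  have hc0 : (0 : ℝ) < c := hb0.trans hbcR
  have hd0 : (0 : ℝ) < d := hc0.trans hcdR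
  have hmR : (m : ℝ) = a * b * c * d := by rw [← hprod]; push_cast; ring
  have hmN : R ^ 2 < (m : ℝ) := by rw [hR]; exact_mod_cast hm
  -- powers
  have e1 : (R ^ (6 / 7 : ℝ)) ^ 3 = R ^ (18 / 7 : ℝ) := by
    rw [← Real.rpow_natCast, ← Real.rpow_mul hR0.le]; norm_num
  have e2 : z ^ 2 * R ^ 2 = R ^ (18 / 7 : ℝ) := by
    rw [hz, zL, ← Real.rpow_natCast, ← Real.rpow_mul hR0.le, ← Real.rpow_natCast R 2,
      ← Real.rpow_add hR0]
    norm_num
  have e3 : (R ^ (3 / 7 : ℝ)) ^ 2 = R ^ (6 / 7 : ℝ) := by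
    rw [← Real.rpow_natCast, ← Real.rpow_mul hR0.le]; norm_num
  have e4 : R ^ (4 / 7 : ℝ) * z = R ^ (6 / 7 : ℝ) := by
    rw [hz, zL, ← Real.rpow_add hR0]; norm_num
  have e5 : (R ^ (9 / 7 : ℝ)) ^ 2 = R ^ (18 / 7 : ℝ) := by
    rw [← Real.rpow_natCast, ← Real.rpow_mul hR0.le]; norm_num
  have e6 : (R ^ (8 / 21 : ℝ)) ^ 3 = R ^ (8 / 7 : ℝ) := by
    rw [← Real.rpow_natCast, ← Real.rpow_mul hR0.le]; norm_num
  have e7 : R ^ (8 / 7 : ℝ) * R ^ (6 / 7 : ℝ) = R ^ 2 := by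
    rw [← Real.rpow_add hR0, ← Real.rpow_natCast R 2]; norm_num
  have hY3 : Y ^ 3 ≤ R ^ (18 / 7 : ℝ) := by
    rw [← e1]
    exact pow_le_pow_left₀ hY0.le hYR 3
  -- `a d > Y`
  have had : Y < (a : ℝ) * d := by
    by_contra hcon
    push Not at hcon
    have h1 : (a : ℝ) * b ≤ Y := by nlinarith
    have h2 : (a : ℝ) * c ≤ Y := by nlinarith
    have h3 : (a : ℝ) ^ 2 * m ≤ Y ^ 3 := by
      rw [hmR]
      calc (a : ℝ) ^ 2 * (a * b * c * d) = (a * b) * (a * c) * (a * d) := by ring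
        _ ≤ Y * Y * Y := by gcongr
        _ = Y ^ 3 := by ring
    have h4 : z ^ 2 * R ^ 2 < (a : ℝ) ^ 2 * m := by
      calc z ^ 2 * R ^ 2 ≤ (a : ℝ) ^ 2 * R ^ 2 := by gcongr
        _ < _ := by
          apply mul_lt_mul_of_pos_left hmN
          positivity
    rw [e2] at h4
    linarith
  have hbcY : (b : ℝ) * c < Y := by
    have hdvd : a * d ∣ m := ⟨b * c, by rw [← hprod]; ring⟩
    have h1 := hT (a * d) hdvd (by push_cast; exact had)
    push_cast at h1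
    rw [div_lt_iff₀ hY0, hmR] at h1
    have h2 : (a : ℝ) * d * (b * c) < a * d * Y := by nlinarith
    exact lt_of_mul_lt_mul_left h2 (by positivity)
  have hb37 : (b : ℝ) < R ^ (3 / 7 : ℝ) := by
    have h1 : (b : ℝ) ^ 2 < (R ^ (3 / 7 : ℝ)) ^ 2 := by
      rw [e3]
      nlinarith
    exact lt_of_pow_lt_pow_left₀ 2 (by positivity) h1
  have hc47 : (c : ℝ) < R ^ (4 / 7 : ℝ) := by
    have h1 : (c : ℝ) * z < R ^ (4 / 7 : ℝ) * z := by
      rw [e4]
      calc (c : ℝ) * z ≤ c * b := by gcongr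
        _ = b * c := by ring
        _ < Y := hbcY
        _ ≤ _ := hYR
    exact lt_of_mul_lt_mul_right h1 hz0.le
  have habc : (a : ℝ) * b * c < R ^ (9 / 7 : ℝ) := by
    have h1 : ((a : ℝ) * b * c) ^ 2 < (R ^ (9 / 7 : ℝ)) ^ 2 := by
      rw [e5]
      refine lt_of_lt_of_le ?_ hY3
      have h2 : (a : ℝ) * b < Y := by nlinarith
      have h3 : (a : ℝ) * c < Y := by nlinarith
      calc ((a : ℝ) * b * c) ^ 2 = (a * b) * (a * c) * (b * c) := by ring
        _ < Y * Y * Y := by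
          apply mul_lt_mul'' _ hbcY (by positivity) (by positivity)
          exact mul_lt_mul'' h2 h3 (by positivity) (by positivity)
        _ = Y ^ 3 := by ring
    exact lt_of_pow_lt_pow_left₀ 2 (by positivity) h1
  have hc821 : R ^ (8 / 21 : ℝ) < c := by
    have h1 : (R ^ (8 / 21 : ℝ)) ^ 3 < (c : ℝ) ^ 3 := by
      rw [e6]
      have h2 : (a : ℝ) * b * c < c ^ 3 := by
        calc (a : ℝ) * b * c < c * c * c := by
              apply mul_lt_mul_of_pos_right _ hc0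
              exact mul_lt_mul'' (habR.trans hbcR) hbcR ha0.le hb0.le
          _ = c ^ 3 := by ring
      have h3 : R ^ (8 / 7 : ℝ) < (a : ℝ) * b * c := by
        have h4 : R ^ (8 / 7 : ℝ) * R ^ (6 / 7 : ℝ) < (a : ℝ) * b * c * R ^ (6 / 7 : ℝ) := by
          rw [e7]
          calc R ^ 2 < (m : ℝ) := hmN
            _ = a * b * c * d := hmR
            _ ≤ a * b * c * R ^ (6 / 7 : ℝ) := by
              apply mul_le_mul_of_nonneg_left (hdY.trans hYR)
              positivity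
        exact lt_of_mul_lt_mul_right h4 (by positivity)
      linarith
    exact lt_of_pow_lt_pow_left₀ 3 hc0.le h1
  have hα : R ^ (2857 / 10000 : ℝ) < z := by
    rw [hz, zL]
    exact Real.rpow_lt_rpow_of_exponent_lt hR1 (by norm_num)
  refine ⟨a, b, c, d, ?_, ?_, hab, ?_, ?_, (Nat.prime_of_mem_primeFactors hd), hprod⟩
  · rw [PW, mem_filter, mem_Ioc]
    refine ⟨⟨?_, ?_⟩, Nat.prime_of_mem_primeFactors ha⟩
    · rw [Nat.floor_lt (by positivity)]
      exact lt_of_lt_of_le hα haz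
    · exact Nat.le_floor (habR.trans hb37).le
  · rw [PW, mem_filter, mem_Ioc]
    refine ⟨⟨?_, ?_⟩, Nat.prime_of_mem_primeFactors hb⟩
    · rw [Nat.floor_lt (by positivity)]
      exact lt_of_lt_of_le hα hbz
    · exact Nat.le_floor hb37.le
  · rw [PW, mem_filter, mem_Ioc]
    refine ⟨⟨?_, ?_⟩, Nat.prime_of_mem_primeFactors hcc⟩
    · rw [Nat.floor_lt (by positivity)]
      exact hc821
    · exact Nat.le_floor hc47.le
  · push_cast
    exact habc.le

/-- the index set -/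
def Ix (N : ℕ) : Finset ((ℕ × ℕ) × ℕ) :=
  ((PW N (2857 / 10000) (3 / 7) ×ˢ PW N (2857 / 10000) (3 / 7)) ×ˢ PW N (8 / 21) (4 / 7)).filter
    fun t => t.1.1 < t.1.2 ∧ ((t.1.1 * t.1.2 * t.2 : ℕ) : ℝ) ≤ (N : ℝ) ^ (9 / 7 : ℝ)

/-- the primes -/
def Qs (N k : ℕ) : Finset ℕ :=
  ((Icc 1 (4 * N ^ 2)).filter Nat.Prime).filter (fun q => N ^ 2 < k * q ∧ k * q ≤ 4 * N ^ 2)

theorem g4_le {N m : ℕ} (hN : 2 ≤ N) (hm : m ∈ Ioc (N ^ 2) (4 * N ^ 2)) :
    g4Ind (YL N) (zL N) m ≤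
      ∑ t ∈ Ix N, ∑ q ∈ Qs N (t.1.1 * t.1.2 * t.2),
        if t.1.1 * t.1.2 * t.2 * q = m then (1 : ℝ) else 0 := by
  rw [mem_Ioc] at hm
  have hnn : ∀ t ∈ Ix N, 0 ≤ ∑ q ∈ Qs N (t.1.1 * t.1.2 * t.2),
      if t.1.1 * t.1.2 * t.2 * q = m then (1 : ℝ) else 0 := by
    intro t _
    apply Finset.sum_nonneg
    intro q _
    split_ifs <;> norm_num
  unfold g4Ind
  split_ifs with h
  · obtain ⟨hsq, hc, hp, hT⟩ := h
    obtain ⟨a, b, c, q, ha, hb, hab, hcc, habc, hq, hprod⟩ := g4_struct hN hm.1 hsq hc hp hT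
    have ht : ((a, b), c) ∈ Ix N := by
      rw [Ix, mem_filter, mem_product, mem_product]
      exact ⟨⟨⟨ha, hb⟩, hcc⟩, hab, habc⟩
    have hk : 1 ≤ a * b * c := by
      rcases Nat.eq_zero_or_pos (a * b * c) with h0 | h0
      · rw [h0, zero_mul] at hprod
        omega
      · exact h0
    have hq4 : q ≤ 4 * N ^ 2 := by
      calc q = 1 * q := (one_mul q).symm
        _ ≤ a * b * c * q := Nat.mul_le_mul_right _ hk
        _ = m := hprod
        _ ≤ _ := hm.2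
    have hqm : q ∈ Qs N (a * b * c) := by
      rw [Qs, mem_filter, mem_filter, mem_Icc]
      exact ⟨⟨⟨hq.one_le, hq4⟩, hq⟩, by rw [hprod]; exact hm.1, by rw [hprod]; exact hm.2⟩
    refine le_trans ?_ (Finset.single_le_sum hnn ht)
    have hnn2 : ∀ r ∈ Qs N (a * b * c), 0 ≤ (if a * b * c * r = m then (1 : ℝ) else 0) := by
      intro r _
      split_ifs <;> norm_num
    refine le_trans ?_ (Finset.single_le_sum hnn2 hqm)
    rw [if_pos hprod]
  · exact Finset.sum_nonneg hnn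

theorem model_g4 {N : ℕ} (hN : 2 ≤ N) :
    model N (g4Ind (YL N) (zL N)) ≤
      ∑ t ∈ Ix N, ∑ q ∈ Qs N (t.1.1 * t.1.2 * t.2),
        1 / (2 * √((t.1.1 * t.1.2 * t.2 * q : ℕ) : ℝ)) := by
  unfold model
  calc ∑ m ∈ Ioc (N ^ 2) (4 * N ^ 2), g4Ind (YL N) (zL N) m / (2 * √(m : ℝ))
      ≤ ∑ m ∈ Ioc (N ^ 2) (4 * N ^ 2), ∑ t ∈ Ix N, ∑ q ∈ Qs N (t.1.1 * t.1.2 * t.2),
          if t.1.1 * t.1.2 * t.2 * q = m then 1 / (2 * √(m : ℝ)) else 0 := by
        refine Finset.sum_le_sum fun m hm => ?_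
        have h1 := g4_le hN hm
        have h2 : (0 : ℝ) ≤ 1 / (2 * √(m : ℝ)) := by positivity
        have h3 := mul_le_mul_of_nonneg_right h1 h2
        rw [mul_one_div] at h3
        refine h3.trans (le_of_eq ?_)
        rw [Finset.sum_mul]
        refine Finset.sum_congr rfl fun t _ => ?_
        rw [Finset.sum_mul]
        refine Finset.sum_congr rfl fun q _ => ?_
        split_ifs <;> simp
    _ = ∑ t ∈ Ix N, ∑ q ∈ Qs N (t.1.1 * t.1.2 * t.2), ∑ m ∈ Ioc (N ^ 2) (4 * N ^ 2),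
          if t.1.1 * t.1.2 * t.2 * q = m then 1 / (2 * √(m : ℝ)) else 0 := by
        rw [Finset.sum_comm]
        refine Finset.sum_congr rfl fun t _ => ?_
        rw [Finset.sum_comm]
    _ ≤ _ := by
        refine Finset.sum_le_sum fun t _ => Finset.sum_le_sum fun q hq => ?_
        rw [Finset.sum_ite_eq]
        split_ifs
        · exact le_rfl
        · positivity

theorem half_sq (P : Finset ℕ) (f : ℕ → ℝ) (hf : ∀ p ∈ P, 0 ≤ f p) :
    ∑ x ∈ (P ×ˢ P).filter (fun x => x.1 < x.2), f x.1 * f x.2 ≤ (∑ p ∈ P, f p) ^ 2 / 2 := by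
  rw [Finset.sum_filter, Finset.sum_product]
  have h1 : ∑ a ∈ P, ∑ b ∈ P, (if a < b then f a * f b else 0) =
      ∑ a ∈ P, ∑ b ∈ P, (if b < a then f a * f b else 0) := by
    rw [Finset.sum_comm]
    refine Finset.sum_congr rfl fun a _ => Finset.sum_congr rfl fun b _ => ?_
    split_ifs
    · ring
    · rfl
  have h2 : ∑ a ∈ P, ∑ b ∈ P, (if a < b then f a * f b else 0) +
      ∑ a ∈ P, ∑ b ∈ P, (if b < a then f a * f b else 0) ≤ (∑ p ∈ P, f p) ^ 2 := by
    rw [sq, Finset.sum_mul_sum, ← Finset.sum_add_distrib]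
    refine Finset.sum_le_sum fun a ha => ?_
    rw [← Finset.sum_add_distrib]
    refine Finset.sum_le_sum fun b hb => ?_
    have h3 := mul_nonneg (hf a ha) (hf b hb)
    split_ifs with h4 h5 h5
    · omega
    · linarith
    · linarith
    · linarith
  simp only at h1 h2 ⊢
  linarith

theorem sum_Ix_le (N : ℕ) :
    ∑ t ∈ Ix N, 1 / ((t.1.1 * t.1.2 * t.2 : ℕ) : ℝ) ≤
      (∑ p ∈ PW N (2857 / 10000) (3 / 7), 1 / (p : ℝ)) ^ 2 / 2 *
        ∑ p ∈ PW N (8 / 21) (4 / 7), 1 / (p : ℝ) := by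
  set P := PW N (2857 / 10000) (3 / 7) with hP
  set P' := PW N (8 / 21) (4 / 7) with hP'
  calc ∑ t ∈ Ix N, 1 / ((t.1.1 * t.1.2 * t.2 : ℕ) : ℝ)
      ≤ ∑ t ∈ ((P ×ˢ P).filter (fun x => x.1 < x.2)) ×ˢ P',
          (1 / (t.1.1 : ℝ) * (1 / (t.1.2 : ℝ))) * (1 / (t.2 : ℝ)) := by
        refine (Finset.sum_le_sum_of_subset_of_nonneg (f := fun t : (ℕ × ℕ) × ℕ =>
          1 / ((t.1.1 * t.1.2 * t.2 : ℕ) : ℝ)) (t := ((P ×ˢ P).filter (fun x => x.1 < x.2)) ×ˢ P')
          ?_ ?_).trans (le_of_eq ?_)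
        · intro t ht
          rw [Ix, mem_filter, mem_product] at ht
          rw [mem_product, mem_filter]
          exact ⟨⟨ht.1.1, ht.2.1⟩, ht.1.2⟩
        · intro t _ _
          positivity
        · refine Finset.sum_congr rfl fun t _ => ?_
          push_cast
          rw [one_div, one_div, one_div, one_div, mul_inv, mul_inv]
    _ = (∑ x ∈ (P ×ˢ P).filter (fun x => x.1 < x.2), 1 / (x.1 : ℝ) * (1 / (x.2 : ℝ))) *
          ∑ p ∈ P', 1 / (p : ℝ) := by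
        rw [Finset.sum_mul_sum, Finset.sum_product]
    _ ≤ _ := by
        apply mul_le_mul_of_nonneg_right
        · exact half_sq P (fun p => 1 / (p : ℝ)) fun p _ => by positivity
        · exact Finset.sum_nonneg fun p _ => by positivity

end G4MM

open G4MM

theorem specG4M (hINB : SpecINB) (hMRS : SpecMRS) : SpecG4M := by
  obtain ⟨N₁, hN₁⟩ := hINB (1 / 1000) (5 / 7) (by norm_num) (by norm_num)
  obtain ⟨N₂, hN₂⟩ := hMRS
  refine ⟨max (max N₁ N₂) 2, fun N hN => ?_⟩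
  have hN2 : 2 ≤ N := (le_max_right _ _).trans hN
  have hNN1 : N₁ ≤ N := (le_max_left _ _).trans ((le_max_left _ _).trans hN)
  have hNN2 : N₂ ≤ N := (le_max_right _ _).trans ((le_max_left _ _).trans hN)
  obtain ⟨hS1, -, hS3⟩ := hN₂ N hNN2
  have hR2 : (2 : ℝ) ≤ N := by exact_mod_cast hN2
  have hL : 0 < Real.log N := Real.log_pos (by linarith)
  have hNL : 0 ≤ (N : ℝ) / Real.log N := by positivity
  refine (model_g4 hN2).trans ?_
  have h1 : ∀ t ∈ Ix N, ∑ q ∈ Qs N (t.1.1 * t.1.2 * t.2),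
      1 / (2 * √((t.1.1 * t.1.2 * t.2 * q : ℕ) : ℝ)) ≤
      (1 + 1 / 1000) / (5 / 7) * (1 / ((t.1.1 * t.1.2 * t.2 : ℕ) : ℝ)) * (N / Real.log N) := by
    intro t ht
    rw [Ix, mem_filter, mem_product, mem_product] at ht
    obtain ⟨⟨⟨ha, hb⟩, hc⟩, -, hk⟩ := ht
    have hpos : ∀ {α β : ℝ} {p : ℕ}, p ∈ PW N α β → 1 ≤ p := by
      intro α β p hp
      rw [PW, mem_filter] at hp
      exact hp.2.one_le
    have hk1 : 1 ≤ t.1.1 * t.1.2 * t.2 :=
      Nat.one_le_iff_ne_zero.mpr (Nat.mul_ne_zero (Nat.mul_ne_zero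
        (Nat.one_le_iff_ne_zero.mp (hpos ha)) (Nat.one_le_iff_ne_zero.mp (hpos hb)))
        (Nat.one_le_iff_ne_zero.mp (hpos hc)))
    refine hN₁ N (t.1.1 * t.1.2 * t.2) hNN1 hk1 ?_
    rw [show (2 - 5 / 7 : ℝ) = 9 / 7 by norm_num]
    exact hk
  refine (Finset.sum_le_sum h1).trans ?_
  rw [← Finset.sum_mul, ← Finset.mul_sum]
  apply mul_le_mul_of_nonneg_right _ hNL
  have h2 := sum_Ix_le N
  have hp1 : 0 ≤ ∑ p ∈ PW N (2857 / 10000) (3 / 7), 1 / (p : ℝ) :=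
    Finset.sum_nonneg fun p _ => by positivity
  have hp3 : 0 ≤ ∑ p ∈ PW N (8 / 21) (4 / 7), 1 / (p : ℝ) :=
    Finset.sum_nonneg fun p _ => by positivity
  have h3 : (∑ p ∈ PW N (2857 / 10000) (3 / 7), 1 / (p : ℝ)) ^ 2 / 2 *
      ∑ p ∈ PW N (8 / 21) (4 / 7), 1 / (p : ℝ) ≤
      (4057 / 10000 : ℝ) ^ 2 / 2 * (4057 / 10000) := by
    gcongr
  have h4 := h2.trans h3
  calc (1 + 1 / 1000) / (5 / 7) * ∑ t ∈ Ix N, 1 / ((t.1.1 * t.1.2 * t.2 : ℕ) : ℝ)
      ≤ (1 + 1 / 1000) / (5 / 7) * ((4057 / 10000 : ℝ) ^ 2 / 2 * (4057 / 10000)) := by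
        gcongr
    _ ≤ 47 / 1000 := by norm_num

end

end Pool.Agent.Lib.MP391708.U.L
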