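import Pool.Agent.Lib.MP_391708_nt.U.L.SpecL
import Pool.Agent.Lib.MP_391708_nt.QPA.P3M

/-! # INB: one large prime factor in the model -/

set_option autoImplicit false

namespace Pool.Agent.Lib.MP391708.U.L

open Finset Filter Topology Pool.Agent.Lib.MP391708.QPA

theorem specINB (hMODP : SpecMODP) : SpecINB := by
  intro δ τ hδ hτ
  obtain ⟨X₀, hX2, hX⟩ := P3M.inn_le hMODP hδ
  have hlim : Tendsto (fun N : ℕ => (N : ℝ) ^ τ) atTop atTop :=
    (tendsto_rpow_atTop hτ).comp tendsto_natCast_atTop_atTop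
  obtain ⟨N₁, hN₁⟩ := eventually_atTop.mp (hlim.eventually_ge_atTop X₀)
  refine ⟨max N₁ 2, fun N k hN hk hkN => ?_⟩
  have hN2 : 2 ≤ N := (le_max_right _ _).trans hN
  have hN0 : (0 : ℝ) < N := by exact_mod_cast (by omega : 0 < N)
  have hNl : 0 < Real.log N := Real.log_pos (by exact_mod_cast (by omega : 1 < N))
  have hk0 : (0 : ℝ) < k := by exact_mod_cast hk
  set x : ℝ := (N : ℝ) ^ 2 / k with hx
  have hx0 : 0 < x := by positivity
  have hxτ : (N : ℝ) ^ τ ≤ x := by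
    rw [hx, le_div_iff₀ hk0]
    calc (N : ℝ) ^ τ * k ≤ (N : ℝ) ^ τ * (N : ℝ) ^ (2 - τ) := by gcongr
      _ = (N : ℝ) ^ 2 := by
          rw [← Real.rpow_add hN0, ← Real.rpow_natCast]
          congr 1
          push_cast
          ring
  have hxX : X₀ ≤ x := (hN₁ N ((le_max_left _ _).trans hN)).trans hxτ
  have hlx : τ * Real.log N ≤ Real.log x := by
    rw [← Real.log_rpow hN0]
    exact Real.log_le_log (by positivity) hxτ
  have hsub : ((Icc 1 (4 * N ^ 2)).filter Nat.Prime).filter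
      (fun q => N ^ 2 < k * q ∧ k * q ≤ 4 * N ^ 2) ⊆ (Ioc ⌊x⌋₊ ⌊4 * x⌋₊).filter Nat.Prime := by
    intro q hq
    rw [mem_filter, mem_filter] at hq
    obtain ⟨⟨-, hq1⟩, hq2, hq3⟩ := hq
    rw [mem_filter, mem_Ioc]
    refine ⟨⟨?_, ?_⟩, hq1⟩
    · rw [Nat.floor_lt hx0.le, hx, div_lt_iff₀ hk0]
      rw [mul_comm]
      exact_mod_cast hq2
    · apply Nat.le_floor
      rw [hx, ← mul_div_assoc, le_div_iff₀ hk0, mul_comm]
      exact_mod_cast hq3
  have h1 : ∑ q ∈ ((Icc 1 (4 * N ^ 2)).filter Nat.Prime).filter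
      (fun q => N ^ 2 < k * q ∧ k * q ≤ 4 * N ^ 2), 1 / (2 * √((k * q : ℕ) : ℝ)) ≤
      1 / √(k : ℝ) * P3M.inn x := by
    refine (sum_le_sum_of_subset_of_nonneg hsub fun _ _ _ => by positivity).trans ?_
    unfold P3M.inn
    rw [mul_sum]
    refine sum_le_sum fun q _ => ?_
    rw [Nat.cast_mul, Real.sqrt_mul hk0.le]
    apply le_of_eq
    rw [div_mul_div_comm]
    congr 1 <;> ring
  refine h1.trans ?_
  have hsk : 0 < √(k : ℝ) := Real.sqrt_pos.2 hk0
  have hsx : √x = N / √(k : ℝ) := by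
    rw [hx, Real.sqrt_div' _ hk0.le, Real.sqrt_sq hN0.le]
  have hsk2 : √(k : ℝ) * √(k : ℝ) = k := Real.mul_self_sqrt hk0.le
  calc 1 / √(k : ℝ) * P3M.inn x ≤ 1 / √(k : ℝ) * ((1 + δ) * √x / Real.log x) := by
        gcongr
        exact hX x hxX
    _ ≤ 1 / √(k : ℝ) * ((1 + δ) * √x / (τ * Real.log N)) := by
        gcongr
    _ = (1 + δ) / τ * (1 / (√(k : ℝ) * √(k : ℝ))) * (N / Real.log N) := by
        rw [hsx]
        field_simp
    _ = _ := by rw [hsk2]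

end Pool.Agent.Lib.MP391708.U.L
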