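import Pool.Agent.Lib.MP_391708_nt.U.L.SpecL

/-!
# MAINL: one exceptional set for the lower bound for primes up to `|a|^(14/9-δ)`
-/

set_option autoImplicit false

namespace Pool.Agent.Lib.MP391708.U.L

open Finset Filter Topology Pool.Agent.Lib.MP391708.QPA Pool.Agent.Lib.MP391708.QPA.H
open Pool.Agent.Lib.MP391708.U Pool.Agent.Lib.MP391708.U.K
open scoped Classical

namespace MAINLM

/-- the property with the index `n` -/
def PrL (n : ℕ) (a : ℤ) : Prop := ∃ h : ℝ, 0 < h ∧ IsC a h ∧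
  ∀ N : ℕ, |(a : ℝ)| ≤ N * (Real.log N) ^ (1 / 4 : ℝ) →
    (N : ℝ) ≤ |(a : ℝ)| ^ (14 / 9 - 1 / ((n : ℝ) + 3)) →
    1 / 20 * (h * (N / Real.log N)) ≤ cntk 1 N a

lemma exists_nat3 (δ : ℝ) (hδ : 0 < δ) : ∃ n : ℕ, 1 / ((n : ℝ) + 3) ≤ δ := by
  obtain ⟨k, hk⟩ := exists_nat_ge (1 / δ)
  rw [div_le_iff₀ hδ] at hk
  refine ⟨k, ?_⟩
  rw [div_le_iff₀ (by positivity)]
  nlinarith

end MAINLM

open MAINLM in
theorem specMAINL (hDIAG : SpecDIAG) (hUNIX : SpecUNIX) (hFINL : SpecFINL) : SpecMAINL := by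
  obtain ⟨E, hE, hP⟩ := hDIAG PrL (by
    intro n
    have hn0 : (0 : ℝ) ≤ n := Nat.cast_nonneg n
    have hn : (0 : ℝ) < (n : ℝ) + 3 := by positivity
    have h1 : 1 / ((n : ℝ) + 3) ≤ 1 / 3 := one_div_le_one_div_of_le (by norm_num) (by linarith)
    have h2 : 0 < 1 / ((n : ℝ) + 3) := by positivity
    set τ : ℝ := 14 / 9 - 1 / ((n : ℝ) + 3) with hτ
    have hτ1 : 1 < τ := by linarith
    have hτ2 : τ < 14 / 9 := by linarith
    have hτ0 : 0 < τ := by linarith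
    have h3 : 9 / 14 < 1 / τ := by
      rw [lt_div_iff₀ hτ0]
      linarith
    have h4 : 1 / τ < 1 := by
      rw [div_lt_one hτ0]
      exact hτ1
    have h5 : τ * ((9 / 14 + 1 / τ) / 2) < 1 := by
      have h6 : τ * ((9 / 14 + 1 / τ) / 2) = (9 / 14 * τ + 1) / 2 := by
        field_simp
      rw [h6]
      linarith
    obtain ⟨η, hη0, hη1, hF⟩ := hFINL ((9 / 14 + 1 / τ) / 2) (by linarith) (by linarith)
    exact hUNIX (fun N a h => 1 / 20 * (h * (N / Real.log N)) ≤ cntk 1 N a)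
      ((9 / 14 + 1 / τ) / 2) η τ (by linarith) (by linarith) hη0 hη1 hτ1 h5 hF)
  refine ⟨E, hE, fun δ hδ => ?_⟩
  obtain ⟨n, hn⟩ := exists_nat3 δ hδ
  obtain ⟨a₁, ha₁⟩ := hP n
  refine ⟨max a₁ 1, fun a haE ha => ?_⟩
  obtain ⟨h, hh, hI, hN⟩ := ha₁ a haE ((le_max_left _ _).trans ha)
  refine ⟨h, hh, hI, fun N hN1 hN2 => hN N hN1 (hN2.trans ?_)⟩
  exact Real.rpow_le_rpow_of_exponent_le ((le_max_right _ _).trans ha) (by linarith)

end Pool.Agent.Lib.MP391708.U.L
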