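import Pool.Agent.Lib.MP_391708_nt.U.L.SpecL

/-!
# MDL: the model of `FL`

`1/2 - 7/27 - (9/5)(47/1000) - (3/5)(7/40) = 0.05114.. ≥ 0.051`.
-/

set_option autoImplicit false

namespace Pool.Agent.Lib.MP391708.U.L

open Finset Filter Topology Pool.Agent.Lib.MP391708.QPA Pool.Agent.Lib.MP391708.QPA.H
open Pool.Agent.Lib.MP391708.U Pool.Agent.Lib.MP391708.U.K
open scoped Classical

namespace MDLM

theorem model_FL (N : ℕ) (Y z : ℝ) : model N (FL Y z)
    = model N primeInd - 2 * model N (p3Ind Y) - 9 / 5 * model N (g4Ind Y z)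
      - 3 / 5 * model N (ddInd Y z) := by
  unfold model
  rw [Finset.mul_sum, Finset.mul_sum, Finset.mul_sum, ← Finset.sum_sub_distrib,
    ← Finset.sum_sub_distrib, ← Finset.sum_sub_distrib]
  apply Finset.sum_congr rfl
  intro m _
  unfold FL
  ring

end MDLM

theorem specMDL (hP3L : SpecP3L) (hDDM : SpecDDM) (hG4M : SpecG4M) (hMODP : SpecMODP) : SpecMDL := by
  obtain ⟨n1, h1⟩ := hP3L (1 / 20000) (by norm_num)
  obtain ⟨n2, h2⟩ := hDDM
  obtain ⟨n3, h3⟩ := hG4M
  obtain ⟨n4, h4⟩ := hMODP (1 / 20000) (by norm_num)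
  refine ⟨max (max n1 n2) (max (max n3 n4) 3), fun N hN => ?_⟩
  have e1 : n1 ≤ N := le_trans (le_trans (le_max_left _ _) (le_max_left _ _)) hN
  have e2 : n2 ≤ N := le_trans (le_trans (le_max_right _ _) (le_max_left _ _)) hN
  have e3 : n3 ≤ N := le_trans (le_trans (le_trans (le_max_left _ _) (le_max_left _ _)) (le_max_right _ _)) hN
  have e4 : n4 ≤ N := le_trans (le_trans (le_trans (le_max_right _ _) (le_max_left _ _)) (le_max_right _ _)) hN
  have e5 : 3 ≤ N := le_trans (le_trans (le_max_right _ _) (le_max_right _ _)) hN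
  have f1 := h1 N e1
  have f2 := h2 N e2
  have f3 := h3 N e3
  have f4 := (abs_le.mp (h4 N e4)).1
  have hN3 : (3 : ℝ) ≤ N := by exact_mod_cast e5
  have hlog : 0 < Real.log N := Real.log_pos (by linarith)
  have hL : 0 ≤ (N : ℝ) / Real.log N := by positivity
  have g4 : (N : ℝ) / (2 * Real.log N) = 1 / 2 * ((N : ℝ) / Real.log N) := by
    field_simp
  have g5 : 1 / 20000 * (N : ℝ) / Real.log N = 1 / 20000 * ((N : ℝ) / Real.log N) := by
    ring
  rw [g4, g5] at f4
  rw [MDLM.model_FL]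
  nlinarith

end Pool.Agent.Lib.MP391708.U.L
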