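import Pool.Agent.Lib.MP_391708_nt.U.L.SpecL

set_option autoImplicit false

namespace Pool.Agent.Lib.MP391708.U.L

open Finset Filter Topology Pool.Agent.Lib.MP391708.QPA Pool.Agent.Lib.MP391708.QPA.H
open Pool.Agent.Lib.MP391708.U Pool.Agent.Lib.MP391708.U.K

namespace MRSM

theorem log_bound {x y : ℝ} (hx : 0 < x) (hy : 0 ≤ y)
    (h : x ≤ ∑ i ∈ Finset.range 6, y ^ i / (Nat.factorial i : ℝ)) : Real.log x ≤ y :=
  (Real.log_le_iff_le_exp hx).2 (h.trans (Real.sum_le_exp_of_nonneg hy 6))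

end MRSM

open MRSM in
theorem specMRS (hMER : SpecMER) : SpecMRS := by
  obtain ⟨N₁, h1⟩ := hMER (2857 / 10000) (3 / 7) (1 / 10000) (by norm_num) (by norm_num)
    (by norm_num)
  obtain ⟨N₂, h2⟩ := hMER (3 / 7) (4 / 7) (1 / 10000) (by norm_num) (by norm_num) (by norm_num)
  obtain ⟨N₃, h3⟩ := hMER (8 / 21) (4 / 7) (2 / 10000) (by norm_num) (by norm_num) (by norm_num)
  have l1 : Real.log (3 / 7 / (2857 / 10000)) ≤ 4056 / 10000 :=
    log_bound (by norm_num) (by norm_num) (by
      simp only [Finset.sum_range_succ, Finset.sum_range_zero, Nat.factorial]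
      norm_num)
  have l2 : Real.log (4 / 7 / (3 / 7)) ≤ 2877 / 10000 :=
    log_bound (by norm_num) (by norm_num) (by
      simp only [Finset.sum_range_succ, Finset.sum_range_zero, Nat.factorial]
      norm_num)
  have l3 : Real.log (4 / 7 / (8 / 21)) ≤ 4055 / 10000 :=
    log_bound (by norm_num) (by norm_num) (by
      simp only [Finset.sum_range_succ, Finset.sum_range_zero, Nat.factorial]
      norm_num)
  refine ⟨max N₁ (max N₂ N₃), fun N hN => ?_⟩
  have e1 := (abs_le.1 (h1 N ((le_max_left _ _).trans hN))).2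
  have e2 := (abs_le.1 (h2 N (((le_max_left _ _).trans (le_max_right _ _)).trans hN))).2
  have e3 := (abs_le.1 (h3 N (((le_max_right _ _).trans (le_max_right _ _)).trans hN))).2
  refine ⟨?_, ?_, ?_⟩
  · linarith
  · linarith
  · linarith

end Pool.Agent.Lib.MP391708.U.L
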