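import Pool.Agent.Lib.MP_391708_nt.U.L.SpecL
import Pool.Agent.Lib.MP_391708_nt.QPA.P3M

/-! # P3L: products of three primes in the model, level `6/7` -/

set_option autoImplicit false

namespace Pool.Agent.Lib.MP391708.U.L.P3LM

open Finset Filter Topology Pool.Agent.Lib.MP391708.QPA Pool.Agent.Lib.MP391708.QPA.H
open Pool.Agent.Lib.MP391708.QPA.P3M

theorem main (h : SpecMODP) : SpecP3L := by
  intro ε hε
  obtain ⟨κ, hκ⟩ : ∃ κ : ℝ, κ = 6 / 7 := ⟨_, rfl⟩
  have hYL : ∀ N : ℕ, YL N = YK N κ := fun N => by rw [hκ]; rfl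
  have hκ0 : 0 < κ := by rw [hκ]; norm_num
  set δ : ℝ := min 1 ε with hδd
  have hδ : 0 < δ := lt_min one_pos hε
  have hδ1 : δ ≤ 1 := min_le_left _ _
  have hδε : δ ≤ ε := min_le_right _ _
  obtain ⟨X₀, hX2, hX⟩ := inn_le h hδ
  obtain ⟨J, hJ⟩ := exists_nat_ge (16 / ε + 1)
  have hJ1' : (1 : ℝ) ≤ J := by
    have : 0 < 16 / ε := by positivity
    linarith
  have hJ1 : 1 ≤ J := by exact_mod_cast hJ1'
  have hJ0 : (0 : ℝ) < J := by linarith
  have hJε : 1 / (2 * (J : ℝ)) ≤ ε / 32 := by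
    rw [div_le_div_iff₀ (by positivity) (by norm_num)]
    have : 16 / ε ≤ J := by linarith
    rw [div_le_iff₀ hε] at this
    linarith
  set M : ℝ := 8 * (1 + ((J : ℝ) + 1) / 2) + 64 * J with hM
  have hM0 : 0 < M := by positivity
  obtain ⟨N₁, hN₁⟩ := MODP.log_large (max 1 (32 * M / ε))
  have htend : ∀ᶠ N : ℕ in atTop, X₀ ≤ (N : ℝ) ^ (2 / 7 : ℝ) :=
    ((tendsto_rpow_atTop (by norm_num : (0 : ℝ) < 2 / 7)).comp
      (tendsto_natCast_atTop_atTop (R := ℝ))).eventually_ge_atTop X₀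
  obtain ⟨N₂, hN₂⟩ := eventually_atTop.mp htend
  refine ⟨max (max N₁ N₂) 2, fun N hN => ?_⟩
  have hN2 : 2 ≤ N := (le_max_right _ _).trans hN
  have hlog := hN₁ N ((le_max_left _ _).trans ((le_max_left _ _).trans hN))
  have hX0N := hN₂ N ((le_max_right _ _).trans ((le_max_left _ _).trans hN))
  have hN2' : (2 : ℝ) ≤ N := by exact_mod_cast hN2
  have hN0 : (0 : ℝ) < N := by linarith
  set L : ℝ := Real.log N with hL
  have hL1 : 1 ≤ L := (le_max_left _ _).trans hlog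
  have hLM : 32 * M / ε ≤ L := (le_max_right _ _).trans hlog
  have hL0 : 0 < L := by linarith
  rw [hYL]
  set Y : ℝ := YK N κ with hYd
  have hY1 : 1 ≤ Y := by
    rw [hYd, YK]
    exact Real.one_le_rpow (by linarith) hκ0.le
  have hY0 : 0 < Y := by linarith
  have hlY : Real.log Y ≤ κ * L := by
    rw [hYd, YK, Real.log_rpow (by positivity), Real.log_div (by linarith) (by norm_num)]
    have : 0 < Real.log 2 := Real.log_pos (by norm_num)
    nlinarith
  have hYN : Y ≤ (N : ℝ) ^ (6 / 7 : ℝ) := by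
    rw [hYd, YK]
    calc ((N : ℝ) / 2) ^ κ ≤ (N : ℝ) ^ κ := by
          apply Real.rpow_le_rpow (by positivity) (by linarith) hκ0.le
      _ ≤ _ := Real.rpow_le_rpow_of_exponent_le (by linarith) hκ.le
  have hz0 : X₀ ≤ (N : ℝ) ^ 2 / Y ^ 2 := by
    refine hX0N.trans ?_
    rw [le_div_iff₀ (by positivity)]
    calc (N : ℝ) ^ (2 / 7 : ℝ) * Y ^ 2 ≤ (N : ℝ) ^ (2 / 7 : ℝ) * ((N : ℝ) ^ (6 / 7 : ℝ)) ^ 2 := by
          gcongr
      _ = (N : ℝ) ^ 2 := by
          rw [← Real.rpow_natCast ((N : ℝ) ^ (6 / 7 : ℝ)), ← Real.rpow_mul hN0.le,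
            ← Real.rpow_add hN0, ← Real.rpow_natCast (N : ℝ)]
          norm_num
  set z : ℝ := (N : ℝ) ^ 2 / Y ^ 2 with hzd
  have hz1 : 1 ≤ z := by linarith
  have hlz : Real.log z = 2 * L - 2 * Real.log Y := by
    rw [hzd, Real.log_div (by positivity) (by positivity), Real.log_pow, Real.log_pow]
    push_cast; ring
  set P : Finset ℕ := (Icc 1 ⌊Y⌋₊).filter Nat.Prime with hP
  have hPm : ∀ p : ℕ, p.Prime → (p : ℝ) ≤ Y → p ∈ P := by
    intro p hp hpY
    rw [hP, mem_filter, mem_Icc]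
    exact ⟨⟨hp.one_le, Nat.le_floor hpY⟩, hp⟩
  set D : ℝ := 2 * κ ^ 2 * (1 - κ) with hD
  have hD1 : 8 / 45 ≤ D := by
    rw [hD, hκ]
    norm_num
  have hD0 : 0 < D := by linarith
  set g : ℝ := 3 * κ - 2 with hg
  have hgv : g = 4 / 7 := by rw [hg, hκ]; norm_num
  have hDv : D = 72 / 343 := by rw [hD, hκ]; norm_num
  have hg0 : 0 ≤ g := by rw [hgv]; norm_num
  -- the triangle
  have hS : ∑ p ∈ (Ioc ⌊z⌋₊ ⌊Y⌋₊).filter Nat.Prime,
      Real.log p / (p : ℝ) * (Real.log p - Real.log z + 8) ≤ L ^ 2 * (g ^ 2 / 2 + ε / 16) := by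
    have hpos : 0 ≤ L ^ 2 * (g ^ 2 / 2 + ε / 16) := by positivity
    rcases le_total z Y with hzY | hzY
    · have h1 := tri 8 z Y J hJ1 le_rfl hz1 hzY
      refine h1.trans ?_
      have h2 : Real.log Y - Real.log z ≤ g * L := by
        rw [hlz, hg]; linarith
      have h3 : 0 ≤ Real.log Y - Real.log z := by
        have := Real.log_le_log (by linarith) hzY
        linarith
      calc ((Real.log Y - Real.log z) / J + 8) * ((Real.log Y - Real.log z) * (J + 1) / 2 + 8 * J)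
          ≤ (g * L / J + 8) * (g * L * (J + 1) / 2 + 8 * J) := by gcongr
        _ = L ^ 2 * (g ^ 2 / 2) + L ^ 2 * g ^ 2 * (1 / (2 * J)) +
            L * (8 * (g + g * (J + 1) / 2)) + 64 * J := by field_simp; ring
        _ ≤ L ^ 2 * (g ^ 2 / 2) + L ^ 2 * 1 * (ε / 32) +
            L * (8 * (1 + 1 * (J + 1) / 2)) + L * (64 * J) := by
            have hg2 : g ^ 2 ≤ 1 := by rw [hgv]; norm_num
            have hg3 : g ≤ 1 := by rw [hgv]; norm_num
            have h64 : (64 : ℝ) * J ≤ L * (64 * J) := by nlinarith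
            gcongr
        _ = L ^ 2 * (g ^ 2 / 2) + L ^ 2 * (ε / 32) + L * M := by rw [hM]; ring
        _ ≤ L ^ 2 * (g ^ 2 / 2) + L ^ 2 * (ε / 32) + L * (L * (ε / 32)) := by
            have : M ≤ L * (ε / 32) := by
              rw [div_le_iff₀ hε] at hLM
              linarith
            gcongr
        _ = _ := by ring
    · rw [Finset.Ioc_eq_empty_of_le (Nat.floor_mono hzY), Finset.filter_empty, Finset.sum_empty]
      exact hpos
  have h1 := model_le N Y P hPm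
  have h2 : ∑ p ∈ P, ∑ q ∈ P,
      ∑ r ∈ P.filter (fun r => N ^ 2 < p * q * r ∧ p * q * r ≤ 4 * N ^ 2),
        1 / (2 * √((p * q * r : ℕ) : ℝ)) ≤
      (1 + δ) * N / (D * L ^ 3) * (L ^ 2 * (g ^ 2 / 2 + ε / 16)) := by
    calc _ ≤ ∑ p ∈ P, ∑ q ∈ P, (if (N : ℝ) ^ 2 < p * q * Y then
          (1 + δ) * N / (2 * κ ^ 2 * (1 - κ) * (Real.log N) ^ 3) *
            ((Real.log p / p) * (Real.log q / q)) else 0) := by
          refine Finset.sum_le_sum fun p hp => Finset.sum_le_sum fun q hq => ?_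
          exact inner_le hN2 hδ hκ0 (by linarith) hY1 hlY hX2 hX hz0 P hP p q hp hq
      _ = (1 + δ) * N / (D * L ^ 3) * ∑ p ∈ P, ∑ q ∈ P, (if (N : ℝ) ^ 2 < p * q * Y then
            ((Real.log p / p) * (Real.log q / q)) else 0) := by
          rw [Finset.mul_sum]
          refine Finset.sum_congr rfl fun p _ => ?_
          rw [Finset.mul_sum]
          refine Finset.sum_congr rfl fun q _ => ?_
          split_ifs
          · rfl
          · rw [mul_zero]
      _ ≤ _ := by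
          apply mul_le_mul_of_nonneg_left _ (by positivity)
          exact (double_le hN2 hY1 hz1 P hP).trans hS
  have h3 : (1 + δ) * (g ^ 2 / 2 + ε / 16) ≤ g ^ 2 / 2 + 3 / 2 * ε * D := by
    rw [hgv, hDv]
    have h5 : δ * ε ≤ 1 * ε := mul_le_mul_of_nonneg_right hδ1 hε.le
    linarith
  have h7 : 6 * model N (p3Ind Y) ≤ (g ^ 2 / (2 * D) + 3 / 2 * ε) * (N / L) := by
    refine (h1.trans h2).trans ?_
    calc (1 + δ) * N / (D * L ^ 3) * (L ^ 2 * (g ^ 2 / 2 + ε / 16))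
        = ((1 + δ) * (g ^ 2 / 2 + ε / 16)) * (N / (D * L)) := by field_simp
      _ ≤ (g ^ 2 / 2 + 3 / 2 * ε * D) * (N / (D * L)) := by gcongr
      _ = _ := by field_simp
  have h8 : g ^ 2 / (2 * D) = 7 / 9 := by rw [hgv, hDv]; norm_num
  rw [h8] at h7
  have h9 : 0 ≤ (N : ℝ) / L := by positivity
  have h10 : 0 ≤ ε * ((N : ℝ) / L) := by positivity
  nlinarith

end Pool.Agent.Lib.MP391708.U.L.P3LM

namespace Pool.Agent.Lib.MP391708.U.L

theorem specP3L (h : Pool.Agent.Lib.MP391708.QPA.SpecMODP) : SpecP3L := P3LM.main h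

end Pool.Agent.Lib.MP391708.U.L
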