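import Pool.Agent.Lib.MP_391708_nt.U.L.SpecL

/-!
# T1A: all primes at least `z`, one prime larger than `Y`
-/

set_option autoImplicit false

namespace Pool.Agent.Lib.MP391708.U.L

open Finset Filter Topology Pool.Agent.Lib.MP391708.QPA Pool.Agent.Lib.MP391708.QPA.H
open Pool.Agent.Lib.MP391708.U Pool.Agent.Lib.MP391708.U.K
open scoped Classical

noncomputable section

namespace T1AM

/-- the product of at least three numbers `≥ z` is at least `z ^ 3` -/
theorem pow_three_le (R : Finset ℕ) (z : ℝ) (hz : 0 < z) (h1 : ∀ p ∈ R, 1 ≤ p)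
    (hR : ∀ p ∈ R, z ≤ (p : ℝ)) (hc : 3 ≤ R.card) : z ^ 3 ≤ ((∏ p ∈ R, p : ℕ) : ℝ) := by
  obtain ⟨T, hT, hT3⟩ := Finset.exists_subset_card_eq hc
  have h2 : z ^ 3 ≤ ((∏ p ∈ T, p : ℕ) : ℝ) := by
    push_cast
    rw [← hT3, ← Finset.prod_const]
    exact Finset.prod_le_prod (fun _ _ => hz.le) fun p hp => hR p (hT hp)
  have h3 : (∏ p ∈ T, p) ≤ ∏ p ∈ R, p := by
    apply Nat.le_of_dvd
    · exact Finset.prod_pos fun p hp => h1 p hp
    · exact Finset.prod_dvd_prod_of_subset _ _ _ hT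
  have h4 : ((∏ p ∈ T, p : ℕ) : ℝ) ≤ ((∏ p ∈ R, p : ℕ) : ℝ) := by exact_mod_cast h3
  linarith

end T1AM

open T1AM in
/-- T1A -/
theorem specT1A (hWSB : SpecWSB) : SpecT1A := by
  intro m Y z hm hY hz hYz hTF hpz hq
  obtain ⟨q, hqp, hqm, hqY⟩ := hq
  have hm0 : m ≠ 0 := hm.ne_zero
  have hmpos : (0 : ℝ) < m := by exact_mod_cast Nat.pos_of_ne_zero hm0
  have hqP : q ∈ m.primeFactors := Nat.mem_primeFactors.mpr ⟨hqp, hqm, hm0⟩
  obtain ⟨R, hR⟩ : ∃ R, R = m.primeFactors.erase q := ⟨_, rfl⟩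
  have hqR : q ∉ R := by rw [hR]; exact Finset.notMem_erase q _
  have hins : m.primeFactors = insert q R := by rw [hR, Finset.insert_erase hqP]
  have hRsub : R ⊆ m.primeFactors := by rw [hR]; exact Finset.erase_subset _ _
  have hRprime : ∀ p ∈ R, p.Prime := fun p hp => Nat.prime_of_mem_primeFactors (hRsub hp)
  have hR1 : ∀ p ∈ R, 1 ≤ p := fun p hp => (hRprime p hp).one_le
  have hRz : ∀ p ∈ R, z ≤ (p : ℝ) := fun p hp =>
    hpz p (hRprime p hp) (Nat.dvd_of_mem_primeFactors (hRsub hp))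
  have hprod : q * ∏ p ∈ R, p = m := by
    have h1 := Nat.prod_primeFactors_of_squarefree hm
    rw [hins, Finset.prod_insert hqR] at h1
    exact h1
  have hRpos : 0 < ∏ p ∈ R, p := Finset.prod_pos fun p hp => hR1 p hp
  have hq0 : (0 : ℝ) < q := by exact_mod_cast hqp.pos
  have hRY : ((∏ p ∈ R, p : ℕ) : ℝ) < Y := by
    have h1 := hTF q hqm hqY
    rw [div_lt_iff₀ (by linarith)] at h1
    have h2 : (m : ℝ) = q * ((∏ p ∈ R, p : ℕ) : ℝ) := by
      rw [← Nat.cast_mul, hprod]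
    rw [h2] at h1
    exact lt_of_mul_lt_mul_left h1 hq0.le
  have hcard : R.card ≤ 2 := by
    by_contra hcon
    have h1 := pow_three_le R z hz hR1 hRz (by omega)
    linarith
  -- the left side
  have hSL : SL Y z m = ∑ j ∈ Finset.range (R.card + 1), (R.card.choose j : ℝ) *
      ((-1 : ℝ) ^ j * (if 2 ≤ j then 2 / 5 else 1)) := by
    rw [hWSB m Y z hm, hins, Finset.sum_powerset_insert hqR]
    have h1 : ∑ t ∈ R.powerset, (if ((∏ p ∈ insert q t, p : ℕ) : ℝ) ≤ Y then
        (-1 : ℝ) ^ (insert q t).card *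
          (if 2 ≤ ((insert q t).filter (fun p : ℕ => z ≤ (p : ℝ))).card then 2 / 5 else 1)
        else 0) = 0 := by
      refine Finset.sum_eq_zero fun t ht => ?_
      rw [Finset.mem_powerset] at ht
      rw [if_neg]
      have hqt : q ∉ t := fun h => hqR (ht h)
      rw [Finset.prod_insert hqt]
      have h2 : 0 < ∏ p ∈ t, p := Finset.prod_pos fun p hp => hR1 p (ht hp)
      have h3 : (1 : ℝ) ≤ ((∏ p ∈ t, p : ℕ) : ℝ) := by exact_mod_cast h2
      push_cast at h3 ⊢
      nlinarith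
    rw [h1, add_zero]
    have h2 : ∀ t ∈ R.powerset, (if ((∏ p ∈ t, p : ℕ) : ℝ) ≤ Y then
        (-1 : ℝ) ^ t.card * (if 2 ≤ (t.filter (fun p : ℕ => z ≤ (p : ℝ))).card then 2 / 5 else 1)
        else 0) = (fun j : ℕ => (-1 : ℝ) ^ j * (if 2 ≤ j then 2 / 5 else 1)) t.card := by
      intro t ht
      rw [Finset.mem_powerset] at ht
      have h3 : (∏ p ∈ t, p) ≤ ∏ p ∈ R, p :=
        Nat.le_of_dvd hRpos (Finset.prod_dvd_prod_of_subset _ _ _ ht)
      have h4 : ((∏ p ∈ t, p : ℕ) : ℝ) ≤ ((∏ p ∈ R, p : ℕ) : ℝ) := by exact_mod_cast h3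
      rw [if_pos (by linarith)]
      have h5 : t.filter (fun p : ℕ => z ≤ (p : ℝ)) = t :=
        Finset.filter_true_of_mem fun p hp => hRz p (ht hp)
      rw [h5]
    rw [Finset.sum_congr rfl h2]
    have h6 := Finset.sum_powerset_apply_card
      (fun j : ℕ => (-1 : ℝ) ^ j * (if 2 ≤ j then 2 / 5 else 1)) (x := R)
    rw [h6]
    refine Finset.sum_congr rfl fun j _ => ?_
    rw [nsmul_eq_mul]
  -- the right side
  have hp3 : p3Ind Y m = 0 := by
    unfold p3Ind
    rw [if_neg]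
    rintro ⟨_, _, h⟩
    exact absurd (h q hqP) (not_le.mpr hqY)
  have hg4 : g4Ind Y z m = 0 := by
    unfold g4Ind
    rw [if_neg]
    rintro ⟨_, _, h, _⟩
    exact absurd (h q hqP).2 (not_le.mpr hqY)
  have hPcard : m.primeFactors.card = R.card + 1 := by
    rw [hins, Finset.card_insert_of_notMem hqR]
  have hprime : m.Prime ↔ R.card = 0 := by
    constructor
    · intro h
      have h1 := h.primeFactors
      rw [h1, Finset.card_singleton] at hPcard
      omega
    · intro h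
      rw [Finset.card_eq_zero] at h
      rw [h, Finset.prod_empty, mul_one] at hprod
      rw [← hprod]
      exact hqp
  have hdd : ddInd Y z m = if R.card = 2 then 1 else 0 := by
    unfold ddInd
    by_cases h : R.card = 2
    · rw [if_pos h, if_pos]
      refine ⟨hm, by omega, fun p hp => hpz p (Nat.prime_of_mem_primeFactors hp)
        (Nat.dvd_of_mem_primeFactors hp), ⟨q, hqP, hqY⟩, hTF⟩
    · rw [if_neg h, if_neg]
      rintro ⟨_, h1, _⟩
      omega
  unfold FL
  rw [hp3, hg4, hdd, hSL]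
  unfold primeInd
  have h3 : R.card = 0 ∨ R.card = 1 ∨ R.card = 2 := by omega
  rcases h3 with h | h | h
  · rw [if_pos (hprime.mpr h), h]
    simp
  · rw [if_neg (fun h' => by rw [hprime, h] at h'; exact absurd h' (by norm_num)), h]
    simp [Finset.sum_range_succ]
  · rw [if_neg (fun h' => by rw [hprime, h] at h'; exact absurd h' (by norm_num)), h]
    simp [Finset.sum_range_succ]
    norm_num

end

end Pool.Agent.Lib.MP391708.U.L
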