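import Pool.Agent.Lib.MP_391708_nt.U.L.SpecL

/-!
# T1B: a prime factor smaller than `z`
-/

set_option autoImplicit false

namespace Pool.Agent.Lib.MP391708.U.L

open Finset Filter Topology Pool.Agent.Lib.MP391708.QPA Pool.Agent.Lib.MP391708.QPA.H
open Pool.Agent.Lib.MP391708.U Pool.Agent.Lib.MP391708.U.K
open scoped Classical

noncomputable section

namespace T1BM

lemma moebius_mul {k s : ℕ} (hs : s.Prime) (h : ¬ s ∣ k) :
    (ArithmeticFunction.moebius (k * s) : ℝ) = - (ArithmeticFunction.moebius k : ℝ) := by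
  have hc : Nat.Coprime k s := ((Nat.Prime.coprime_iff_not_dvd hs).2 h).symm
  rw [ArithmeticFunction.isMultiplicative_moebius.map_mul_of_coprime hc,
    ArithmeticFunction.moebius_apply_prime hs]
  push_cast
  ring

lemma gw_mul {k s : ℕ} {z : ℝ} (hs : s.Prime) (hk : k ≠ 0) (hz : (s : ℝ) < z) :
    gw z (k * s) = gw z k := by
  unfold gw nB
  have h1 : ((k * s).primeFactors.filter (fun p : ℕ => z ≤ (p : ℝ))) =
      k.primeFactors.filter (fun p : ℕ => z ≤ (p : ℝ)) := by
    rw [Nat.primeFactors_mul hk hs.ne_zero, hs.primeFactors, filter_union, filter_singleton,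
      if_neg (not_le.2 hz), union_empty]
  rw [h1]

/-- the involution -/
theorem sum_zero (m : ℕ) (Y z : ℝ) (hm : Squarefree m) (hY : 1 ≤ Y)
    (h : ∀ k : ℕ, k ∣ m → Y < (k : ℝ) → (m : ℝ) / Y < k) (s : ℕ) (hs : s.Prime) (hsm : s ∣ m)
    (hsY : (s : ℝ) ≤ m / Y ^ 2) (hz : (s : ℝ) < z) :
    ∑ k ∈ m.divisors.filter (fun k : ℕ => (k : ℝ) ≤ Y),
      gw z k * (ArithmeticFunction.moebius k : ℝ) = 0 := by
  have hm0 : m ≠ 0 := hm.ne_zero
  have hY0 : 0 < Y := by linarith
  have hs0 : 0 < s := hs.pos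
  refine Finset.sum_involution (fun k _ => if s ∣ k then k / s else k * s) ?_ ?_ ?_ ?_
  · intro k hk
    have hk1 := (Nat.mem_divisors.1 (mem_filter.1 hk).1).1
    have hk0 : k ≠ 0 := (Nat.pos_of_dvd_of_pos hk1 (Nat.pos_of_ne_zero hm0)).ne'
    by_cases hd : s ∣ k
    · rw [if_pos hd]
      obtain ⟨t, rfl⟩ := hd
      rw [Nat.mul_div_cancel_left t hs0]
      have ht : ¬ s ∣ t := by
        rintro ⟨u, hu⟩
        have : s * s ∣ m := (Dvd.intro u (by rw [hu]; ring) : s * s ∣ s * t).trans hk1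
        exact hs.one_lt.ne' (Nat.isUnit_iff.1 (hm s this))
      have ht0 : t ≠ 0 := fun h0 => hk0 (by rw [h0, mul_zero])
      rw [mul_comm s t, moebius_mul hs ht, gw_mul hs ht0 hz]
      ring
    · rw [if_neg hd, moebius_mul hs hd, gw_mul hs hk0 hz]
      ring
  · intro k hk _
    have hk1 := (Nat.mem_divisors.1 (mem_filter.1 hk).1).1
    have hk0 : 0 < k := Nat.pos_of_dvd_of_pos hk1 (Nat.pos_of_ne_zero hm0)
    by_cases hd : s ∣ k
    · rw [if_pos hd]
      exact (Nat.div_lt_self hk0 hs.one_lt).ne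
    · rw [if_neg hd]
      have : k * 1 < k * s := Nat.mul_lt_mul_of_pos_left hs.one_lt hk0
      omega
  · intro k hk
    have hk1 := (Nat.mem_divisors.1 (mem_filter.1 hk).1).1
    have hkY := (mem_filter.1 hk).2
    have hk0 : 0 < k := Nat.pos_of_dvd_of_pos hk1 (Nat.pos_of_ne_zero hm0)
    by_cases hd : s ∣ k
    · rw [if_pos hd, mem_filter, Nat.mem_divisors]
      have h1 : k / s ∣ k := Nat.div_dvd_of_dvd hd
      refine ⟨⟨h1.trans hk1, hm0⟩, ?_⟩
      have : ((k / s : ℕ) : ℝ) ≤ k := by exact_mod_cast Nat.div_le_self k s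
      linarith
    · rw [if_neg hd, mem_filter, Nat.mem_divisors]
      have hc : Nat.Coprime k s := ((Nat.Prime.coprime_iff_not_dvd hs).2 hd).symm
      have hks : k * s ∣ m := hc.mul_dvd_of_dvd_of_dvd hk1 hsm
      refine ⟨⟨hks, hm0⟩, ?_⟩
      by_contra hcon
      push Not at hcon
      have h2 := h _ hks hcon
      push_cast at h2
      have h3 : (k : ℝ) * s ≤ Y * (m / Y ^ 2) :=
        mul_le_mul hkY hsY (Nat.cast_nonneg s) hY0.le
      have h4 : Y * ((m : ℝ) / Y ^ 2) = m / Y := by field_simp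
      linarith
  · intro k hk
    by_cases hd : s ∣ k
    · rw [if_pos hd]
      obtain ⟨t, rfl⟩ := hd
      have hk1 := (Nat.mem_divisors.1 (mem_filter.1 hk).1).1
      have ht : ¬ s ∣ t := by
        rintro ⟨u, hu⟩
        have : s * s ∣ m := (Dvd.intro u (by rw [hu]; ring) : s * s ∣ s * t).trans hk1
        exact hs.one_lt.ne' (Nat.isUnit_iff.1 (hm s this))
      rw [Nat.mul_div_cancel_left t hs0, if_neg ht, mul_comm]
    · rw [if_neg hd, if_pos (Dvd.intro_left k rfl), Nat.mul_div_cancel _ hs0]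

end T1BM

open T1BM in
/-- T1B -/
theorem specT1B : SpecT1B := by
  intro m Y z hm hY hz hzm hTF hs
  obtain ⟨s, hsp, hsm, hsz⟩ := hs
  have hm0 : m ≠ 0 := hm.ne_zero
  have hY0 : 0 < Y := by linarith
  have hsY : (s : ℝ) ≤ m / Y ^ 2 := by linarith
  have hsmem : s ∈ m.primeFactors := Nat.mem_primeFactors.2 ⟨hsp, hsm, hm0⟩
  have hSL : SL Y z m = 0 := sum_zero m Y z hm hY hTF s hsp hsm hsY hsz
  have hmpos : (0 : ℝ) < m := by exact_mod_cast Nat.pos_of_ne_zero hm0
  have hpi : primeInd m = 0 := by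
    unfold primeInd
    rw [if_neg]
    intro hmp
    have h1 : s = m := (Nat.prime_dvd_prime_iff_eq hsp hmp).1 hsm
    have h2 : (m : ℝ) / Y ^ 2 ≤ m := div_le_self hmpos.le (by nlinarith)
    rw [h1] at hsz
    linarith
  have hp3 : p3Ind Y m = 0 := by
    unfold p3Ind
    rw [if_neg]
    rintro ⟨_, h3, h4⟩
    have hcard : (m.primeFactors.erase s).card = 2 := by
      rw [card_erase_of_mem hsmem, h3]
    obtain ⟨a, b, hab, hEq⟩ := card_eq_two.1 hcard
    have hprod : m = s * (a * b) := by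
      have h6 := Nat.prod_primeFactors_of_squarefree hm
      rw [← mul_prod_erase _ _ hsmem, hEq, prod_pair hab] at h6
      exact h6.symm
    have ha : a ∈ m.primeFactors := mem_of_mem_erase (hEq ▸ mem_insert_self a _)
    have hb : b ∈ m.primeFactors :=
      mem_of_mem_erase (hEq ▸ mem_insert_of_mem (mem_singleton_self b))
    have haY := h4 a ha
    have hbY := h4 b hb
    have hm' : (m : ℝ) = s * (a * b) := by exact_mod_cast hprod
    have hab2 : (a : ℝ) * b < Y ^ 2 := by
      have ha0 : (0 : ℝ) < a := by exact_mod_cast (Nat.mem_primeFactors.1 ha).1.pos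
      have hb0 : (0 : ℝ) < b := by exact_mod_cast (Nat.mem_primeFactors.1 hb).1.pos
      have hne : (a : ℝ) ≠ b := by exact_mod_cast hab
      rcases lt_or_gt_of_ne hne with h7 | h7 <;> nlinarith
    have hs0 : (0 : ℝ) < s := by exact_mod_cast hsp.pos
    rw [le_div_iff₀ (by positivity), hm'] at hsY
    have := le_of_mul_le_mul_left hsY hs0
    linarith
  have hg4 : g4Ind Y z m = 0 := by
    unfold g4Ind
    rw [if_neg]
    rintro ⟨_, _, h3, _⟩
    have := (h3 s hsmem).1
    linarith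
  have hdd : ddInd Y z m = 0 := by
    unfold ddInd
    rw [if_neg]
    rintro ⟨_, _, h3, _, _⟩
    have := h3 s hsmem
    linarith
  rw [hSL]
  unfold FL
  rw [hpi, hp3, hg4, hdd]
  ring

end

end Pool.Agent.Lib.MP391708.U.L
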