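import Pool.Agent.Lib.MP_391708_nt.U.L.SpecL
import Pool.Agent.Lib.MP_391708_nt.QPA.T1

/-!
# Module T1C (project X6): the identity when all primes lie in `[z, Y]`
-/

set_option autoImplicit false

namespace Pool.Agent.Lib.MP391708.U.L

open Finset Pool.Agent.Lib.MP391708.QPA
open scoped Classical

namespace T1CM

/-- the combinatorial part: `sm` is a property of the subsets of `P` -/
theorem comb (P : Finset ℕ) (sm : Finset ℕ → Prop)
    (h1 : ∀ S ⊆ P, S.card ≤ 1 → sm S) (h3 : ∀ S ⊆ P, 3 ≤ S.card → ¬ sm S)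
    (hc : ∀ S ⊆ P, (sm S ↔ ¬ sm (P \ S))) :
    (P.card = 3 ∨ P.card = 4 ∨ P.card = 5) ∧
    (∑ S ∈ P.powerset, if sm S then (-1 : ℝ) ^ S.card * (if 2 ≤ S.card then 2 / 5 else 1) else 0) =
      if P.card = 3 then -2 else if P.card = 4 then -(9 / 5) else 0 := by
  have hr3 : 3 ≤ P.card := by
    have h0 : sm ∅ := h1 ∅ (empty_subset _) (by simp)
    have hP : ¬ sm P := by
      have := (hc ∅ (empty_subset _)).1 h0
      rwa [sdiff_empty] at this
    have hP1 : 1 < P.card := by
      by_contra h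
      exact hP (h1 P (Subset.refl _) (by omega))
    by_contra h
    have hP2 : P.card = 2 := by omega
    obtain ⟨a, b, hab, hEq⟩ := card_eq_two.1 hP2
    have hs1 : sm {a} := h1 {a} (by rw [hEq]; simp) (by simp)
    have hs2 : sm (P \ {a}) := h1 _ sdiff_subset (by
      rw [card_sdiff_of_subset (by rw [hEq]; simp), hP2]; simp)
    exact (hc {a} (by rw [hEq]; simp)).1 hs1 hs2
  have hr5 : P.card ≤ 5 := by
    by_contra h
    obtain ⟨U, hU, hU3⟩ := exists_subset_card_eq (show 3 ≤ P.card by omega)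
    have h4 : ¬ sm U := h3 U hU (by omega)
    have h5 : ¬ sm (P \ U) := h3 _ sdiff_subset (by rw [card_sdiff_of_subset hU]; omega)
    exact h4 ((hc U hU).2 h5)
  have hr : P.card = 3 ∨ P.card = 4 ∨ P.card = 5 := by omega
  refine ⟨hr, ?_⟩
  rw [Finset.sum_powerset]
  set g : ℕ → ℝ := fun j => ∑ S ∈ powersetCard j P,
    if sm S then (-1 : ℝ) ^ S.card * (if 2 ≤ S.card then 2 / 5 else 1) else 0 with hg
  have g0 : g 0 = 1 := by
    rw [hg]
    simp only [powersetCard_zero, sum_singleton, card_empty, pow_zero]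
    rw [if_pos (h1 ∅ (empty_subset _) (by simp))]
    norm_num
  have g1 : g 1 = - (P.card : ℝ) := by
    rw [hg]
    have : ∀ S ∈ powersetCard 1 P,
        (if sm S then (-1 : ℝ) ^ S.card * (if 2 ≤ S.card then 2 / 5 else 1) else 0) = -1 := by
      intro S hS
      obtain ⟨hS1, hS2⟩ := mem_powersetCard.1 hS
      rw [if_pos (h1 S hS1 hS2.le), hS2]
      norm_num
    change ∑ S ∈ powersetCard 1 P, _ = _
    rw [sum_congr rfl this, sum_const, card_powersetCard, Nat.choose_one_right]
    simp
  have g3 : ∀ j, 3 ≤ j → g j = 0 := by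
    intro j hj
    rw [hg]
    refine sum_eq_zero fun S hS => ?_
    obtain ⟨hS1, hS2⟩ := mem_powersetCard.1 hS
    rw [if_neg (h3 S hS1 (by omega))]
  have g2 : g 2 = ∑ S ∈ powersetCard 2 P, if sm S then (2 / 5 : ℝ) else 0 := by
    rw [hg]
    refine sum_congr rfl fun S hS => ?_
    obtain ⟨hS1, hS2⟩ := mem_powersetCard.1 hS
    rw [hS2]
    norm_num
  change ∑ j ∈ range (P.card + 1), g j = _
  rcases hr with hr | hr | hr
  · have g2' : g 2 = 0 := by
      rw [g2]
      refine sum_eq_zero fun S hS => ?_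
      obtain ⟨hS1, hS2⟩ := mem_powersetCard.1 hS
      have h4 : sm (P \ S) := h1 _ sdiff_subset (by rw [card_sdiff_of_subset hS1]; omega)
      rw [if_neg (fun h5 => (hc S hS1).1 h5 h4)]
    rw [hr] at g1 ⊢
    rw [sum_range_succ, sum_range_succ, sum_range_succ, sum_range_succ, sum_range_zero, g0, g1, g2',
      g3 3 le_rfl]
    norm_num
  · have g2' : g 2 = 6 / 5 := by
      have hinv : ∑ S ∈ powersetCard 2 P, (if sm S then (2 / 5 : ℝ) else 0) =
          ∑ S ∈ powersetCard 2 P, (if sm (P \ S) then (2 / 5 : ℝ) else 0) := by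
        refine sum_nbij' (fun S => P \ S) (fun S => P \ S) ?_ ?_ ?_ ?_ ?_
        · intro S hS
          obtain ⟨hS1, hS2⟩ := mem_powersetCard.1 hS
          exact mem_powersetCard.2 ⟨sdiff_subset, by rw [card_sdiff_of_subset hS1]; omega⟩
        · intro S hS
          obtain ⟨hS1, hS2⟩ := mem_powersetCard.1 hS
          exact mem_powersetCard.2 ⟨sdiff_subset, by rw [card_sdiff_of_subset hS1]; omega⟩
        · intro S hS
          obtain ⟨hS1, hS2⟩ := mem_powersetCard.1 hS
          exact Finset.sdiff_sdiff_eq_self hS1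
        · intro S hS
          obtain ⟨hS1, hS2⟩ := mem_powersetCard.1 hS
          exact Finset.sdiff_sdiff_eq_self hS1
        · intro S hS
          obtain ⟨hS1, hS2⟩ := mem_powersetCard.1 hS
          change _ = if sm (P \ (P \ S)) then (2 / 5 : ℝ) else 0
          rw [Finset.sdiff_sdiff_eq_self hS1]
      have hadd : ∑ S ∈ powersetCard 2 P, (if sm S then (2 / 5 : ℝ) else 0) +
          ∑ S ∈ powersetCard 2 P, (if sm (P \ S) then (2 / 5 : ℝ) else 0) = 12 / 5 := by
        rw [← sum_add_distrib]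
        have : ∀ S ∈ powersetCard 2 P, ((if sm S then (2 / 5 : ℝ) else 0) +
            (if sm (P \ S) then (2 / 5 : ℝ) else 0)) = 2 / 5 := by
          intro S hS
          obtain ⟨hS1, hS2⟩ := mem_powersetCard.1 hS
          by_cases h4 : sm S
          · rw [if_pos h4, if_neg ((hc S hS1).1 h4), add_zero]
          · have h5 : sm (P \ S) := by
              by_contra h6
              exact h4 ((hc S hS1).2 h6)
            rw [if_neg h4, if_pos h5, zero_add]
        rw [sum_congr rfl this, sum_const, card_powersetCard, hr]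
        norm_num [Nat.choose]
      rw [← hinv, ← g2] at hadd
      linarith
    rw [hr] at g1 ⊢
    rw [sum_range_succ, sum_range_succ, sum_range_succ, sum_range_succ, sum_range_succ,
      sum_range_zero, g0, g1, g2', g3 3 le_rfl, g3 4 (by norm_num)]
    norm_num
  · have g2' : g 2 = 4 := by
      rw [g2]
      have : ∀ S ∈ powersetCard 2 P, (if sm S then (2 / 5 : ℝ) else 0) = 2 / 5 := by
        intro S hS
        obtain ⟨hS1, hS2⟩ := mem_powersetCard.1 hS
        have h4 : ¬ sm (P \ S) := h3 _ sdiff_subset (by rw [card_sdiff_of_subset hS1]; omega)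
        rw [if_pos ((hc S hS1).2 h4)]
      rw [sum_congr rfl this, sum_const, card_powersetCard, hr]
      norm_num [Nat.choose]
    rw [hr] at g1 ⊢
    rw [sum_range_succ, sum_range_succ, sum_range_succ, sum_range_succ, sum_range_succ,
      sum_range_succ, sum_range_zero, g0, g1, g2', g3 3 le_rfl, g3 4 (by norm_num),
      g3 5 (by norm_num)]
    norm_num

end T1CM

/-- T1C -/
theorem specT1C (hWSB : SpecWSB) : SpecT1C := by
  intro m Y z hm hY hz hYm hYz hTF hp
  have hY0 : 0 < Y := by linarith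
  have hm0 : m ≠ 0 := hm.ne_zero
  have hmpos : (0 : ℝ) < m := by exact_mod_cast Nat.pos_of_ne_zero hm0
  have hz1 : 1 ≤ z := by
    by_contra h
    push Not at h
    have : z ^ 3 ≤ 1 := pow_le_one₀ hz.le h.le
    linarith
  have hP : ∀ p ∈ m.primeFactors, z ≤ (p : ℝ) ∧ (p : ℝ) ≤ Y := fun p hpm =>
    hp p (Nat.mem_primeFactors.1 hpm).1 (Nat.mem_primeFactors.1 hpm).2.1
  have hprod : ∀ S ⊆ m.primeFactors,
      ((∏ p ∈ S, p : ℕ) : ℝ) * ((∏ p ∈ m.primeFactors \ S, p : ℕ) : ℝ) = m := by
    intro S hS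
    have h1 := Nat.prod_primeFactors_of_squarefree hm
    rw [← prod_sdiff hS] at h1
    have h2 := congrArg (fun n : ℕ => (n : ℝ)) h1
    simp only [Nat.cast_mul] at h2
    rw [mul_comm]
    exact h2
  have hpos : ∀ S ⊆ m.primeFactors, (0 : ℝ) < ((∏ p ∈ S, p : ℕ) : ℝ) := by
    intro S hS
    have : 0 < ∏ p ∈ S, p := prod_pos fun p hpS => (Nat.mem_primeFactors.1 (hS hpS)).1.pos
    exact_mod_cast this
  obtain ⟨hr, hsum⟩ := T1CM.comb m.primeFactors (fun S => ((∏ p ∈ S, p : ℕ) : ℝ) ≤ Y)
    (by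
      intro S hS hc
      rcases Nat.le_one_iff_eq_zero_or_eq_one.1 hc with h | h
      · rw [card_eq_zero.1 h]
        simpa using hY
      · obtain ⟨a, rfl⟩ := card_eq_one.1 h
        rw [prod_singleton]
        exact (hP a (hS (mem_singleton_self a))).2)
    (by
      intro S hS hc
      rw [not_le]
      have h1 : z ^ S.card ≤ ((∏ p ∈ S, p : ℕ) : ℝ) := by
        push_cast
        rw [← prod_const]
        exact prod_le_prod (fun _ _ => hz.le) fun p hpS => (hP p (hS hpS)).1
      have h2 : z ^ 3 ≤ z ^ S.card := pow_le_pow_right₀ hz1 hc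
      linarith)
    (by
      intro S hS
      have h0 := hprod S hS
      have hp1 := hpos S hS
      have hp2 := hpos _ (sdiff_subset : m.primeFactors \ S ⊆ m.primeFactors)
      constructor
      · intro h1
        rw [not_le]
        by_contra h2
        push Not at h2
        have h3 : (m : ℝ) ≤ Y * Y := by
          rw [← h0]
          exact mul_le_mul h1 h2 hp2.le hY0.le
        nlinarith
      · intro h1
        rw [not_le] at h1
        have h2 := hTF _ (T1.prod_dvd m hm _ sdiff_subset) h1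
        rw [div_lt_iff₀ hY0, ← h0, mul_comm] at h2
        exact (lt_of_mul_lt_mul_left h2 hp2.le).le)
  rw [hWSB m Y z hm]
  have hcongr : ∑ S ∈ m.primeFactors.powerset, (if ((∏ p ∈ S, p : ℕ) : ℝ) ≤ Y then
      (-1 : ℝ) ^ S.card * (if 2 ≤ (S.filter (fun p : ℕ => z ≤ (p : ℝ))).card then 2 / 5 else 1)
        else 0) =
      ∑ S ∈ m.primeFactors.powerset, (if ((∏ p ∈ S, p : ℕ) : ℝ) ≤ Y then
      (-1 : ℝ) ^ S.card * (if 2 ≤ S.card then 2 / 5 else 1) else 0) := by
    refine sum_congr rfl fun S hS => ?_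
    have h1 : S.filter (fun p : ℕ => z ≤ (p : ℝ)) = S :=
      filter_true_of_mem fun p hpS => (hP p (mem_powerset.1 hS hpS)).1
    rw [h1]
  rw [hcongr, hsum]
  have hnp : primeInd m = 0 := by
    unfold primeInd
    rw [if_neg]
    intro h
    have : m.primeFactors.card = 1 := by rw [h.primeFactors, card_singleton]
    omega
  have hdd : ddInd Y z m = 0 := by
    unfold ddInd
    rw [if_neg]
    rintro ⟨_, _, _, ⟨q, hq, hqY⟩, _⟩
    have := (hP q hq).2
    linarith
  unfold FL
  rw [hnp, hdd]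
  rcases hr with hr | hr | hr
  · have h1 : p3Ind Y m = 1 := by
      unfold p3Ind
      rw [if_pos ⟨hm, hr, fun p hpm => (hP p hpm).2⟩]
    have h2 : g4Ind Y z m = 0 := by
      unfold g4Ind
      rw [if_neg]
      rintro ⟨_, h, _⟩
      omega
    rw [h1, h2, hr]
    norm_num
  · have h1 : p3Ind Y m = 0 := by
      unfold p3Ind
      rw [if_neg]
      rintro ⟨_, h, _⟩
      omega
    have h2 : g4Ind Y z m = 1 := by
      unfold g4Ind
      rw [if_pos ⟨hm, hr, hP, hTF⟩]
    rw [h1, h2, hr]
    norm_num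
  · have h1 : p3Ind Y m = 0 := by
      unfold p3Ind
      rw [if_neg]
      rintro ⟨_, h, _⟩
      omega
    have h2 : g4Ind Y z m = 0 := by
      unfold g4Ind
      rw [if_neg]
      rintro ⟨_, h, _⟩
      omega
    rw [h1, h2, hr]
    norm_num

end Pool.Agent.Lib.MP391708.U.L
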