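import Pool.Agent.Lib.MP_391708_nt.U.L.SpecL

/-!
# T1L: the case distinction
-/

set_option autoImplicit false

namespace Pool.Agent.Lib.MP391708.U.L

open Finset Filter Topology Pool.Agent.Lib.MP391708.QPA Pool.Agent.Lib.MP391708.QPA.H
open Pool.Agent.Lib.MP391708.U Pool.Agent.Lib.MP391708.U.K
open scoped Classical

/-- T1L (from T1A, T1B, T1C): case distinction. -/
theorem specT1L (hA : SpecT1A) (hB : SpecT1B) (hC : SpecT1C) : SpecT1L := by
  intro m Y z hm hY hz hYm hzm hYz hTF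
  by_cases h1 : ∃ s : ℕ, s.Prime ∧ s ∣ m ∧ (s : ℝ) < z
  · exact hB m Y z hm hY hz hzm hTF h1
  · have h2 : ∀ p : ℕ, p.Prime → p ∣ m → z ≤ (p : ℝ) := by
      intro p hp hpm
      by_contra h3
      exact h1 ⟨p, hp, hpm, lt_of_not_ge h3⟩
    by_cases h4 : ∃ q : ℕ, q.Prime ∧ q ∣ m ∧ Y < (q : ℝ)
    · exact hA m Y z hm hY hz hYz hTF h2 h4
    · refine hC m Y z hm hY hz hYm hYz hTF fun p hp hpm => ⟨h2 p hp hpm, ?_⟩
      by_contra h5
      exact h4 ⟨p, hp, hpm, lt_of_not_ge h5⟩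

end Pool.Agent.Lib.MP391708.U.L
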