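import Pool.Agent.Lib.MP_391708_nt.U.L.SpecL

/-!
# Project X6, module T2L: the decomposition of `FL` into types

Adapted from the module T2K (`QPA/T2K.lean`).
-/

set_option autoImplicit false

namespace Pool.Agent.Lib.MP391708.U.L

open Finset Filter Topology Pool.Agent.Lib.MP391708.QPA Pool.Agent.Lib.MP391708.QPA.H
open Pool.Agent.Lib.MP391708.U Pool.Agent.Lib.MP391708.U.K
open scoped Classical

namespace T2LM

theorem abs_TcL_le (e2 : ℝ) (j : ℕ) (c : Multiset ℕ) (R : ℕ) (hc : Multiset.card c ≤ R) :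
    |TcL e2 j c| ≤ 1 + 2 ^ R := by
  unfold TcL
  have h1 := T2.abs_sum_map_le c.powerset (sgL e2 j) (fun x => by
    unfold sgL
    split_ifs
    · rw [abs_mul, abs_pow, abs_neg, abs_one, one_pow, one_mul, abs_of_pos (by norm_num)]
      norm_num
    · rw [abs_mul, abs_pow, abs_neg, abs_one, one_pow, one_mul]
    · simp)
  rw [Multiset.card_powerset] at h1
  have h2 : ((2 ^ Multiset.card c : ℕ) : ℝ) ≤ 2 ^ R := by
    push_cast
    exact pow_le_pow_right₀ (by norm_num) hc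
  have h3 : |(if Multiset.card c = 1 then (1 : ℝ) else 0)| ≤ 1 := by split_ifs <;> simp
  calc _ ≤ |(if Multiset.card c = 1 then (1 : ℝ) else 0)| + |(c.powerset.map (sgL e2 j)).sum| :=
        abs_sub _ _
    _ ≤ _ := by linarith

/-- the coefficients -/
noncomputable def tt (e2 e : ℝ) (j : ℕ) (c : Multiset ℕ) : ℝ :=
  if ∃ c₁ ≤ c, MidK (6 / 7) e2 e c₁ then TcL e2 j c / T2.vf c else 0

theorem abs_tt_le (e2 e : ℝ) (j : ℕ) (c : Multiset ℕ) (R : ℕ) (hc : Multiset.card c ≤ R) :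
    |tt e2 e j c| ≤ 1 + 2 ^ R := by
  unfold tt
  split_ifs
  · rw [abs_div, abs_of_pos (lt_of_lt_of_le one_pos (T2.vf_pos c))]
    refine (div_le_self (abs_nonneg _) (T2.vf_pos c)).trans (abs_TcL_le e2 j c R hc)
  · rw [abs_zero]; positivity

theorem abs_gw_le (z : ℝ) (k : ℕ) : |gw z k| ≤ 1 := by
  unfold gw
  split_ifs
  · rw [abs_of_pos (by norm_num)]; norm_num
  · simp

/-- the weighted sum is bounded on numbers with few prime factors -/
theorem mu_sum_bound (m R : ℕ) (hR : m.primeFactorsList.length ≤ R) (Y : ℝ) (lam : ℕ → ℝ)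
    (hlam : ∀ k, |lam k| ≤ 1) :
    |∑ k ∈ m.divisors.filter (fun k : ℕ => (k : ℝ) ≤ Y),
      lam k * (ArithmeticFunction.moebius k : ℝ)| ≤ 2 ^ R := by
  have h1 : |∑ k ∈ m.divisors.filter (fun k : ℕ => (k : ℝ) ≤ Y),
      lam k * (ArithmeticFunction.moebius k : ℝ)|
      ≤ ∑ k ∈ m.divisors.filter (fun k : ℕ => (k : ℝ) ≤ Y), (if Squarefree k then (1 : ℝ) else 0) := by
    refine (Finset.abs_sum_le_sum_abs _ _).trans (Finset.sum_le_sum ?_)
    intro k _
    split_ifs with h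
    · have h2 := ArithmeticFunction.abs_moebius_le_one (n := k)
      have h3 : |(ArithmeticFunction.moebius k : ℝ)| ≤ 1 := by exact_mod_cast h2
      rw [abs_mul]
      exact mul_le_one₀ (hlam k) (abs_nonneg _) h3
    · rw [ArithmeticFunction.moebius_eq_zero_of_not_squarefree h]; simp
  refine h1.trans ?_
  rw [← Finset.sum_filter, Finset.sum_const, nsmul_eq_mul, mul_one]
  have h2 : ((m.divisors.filter (fun k : ℕ => (k : ℝ) ≤ Y)).filter Squarefree).card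
      ≤ m.primeFactors.powerset.card := by
    apply Finset.card_le_card_of_injOn Nat.primeFactors
    · intro k hk
      have hk' := mem_filter.mp hk
      have hk2 := mem_filter.mp hk'.1
      have hk3 := Nat.mem_divisors.mp hk2.1
      exact Finset.mem_coe.mpr (Finset.mem_powerset.mpr (Nat.primeFactors_mono hk3.1 hk3.2))
    · intro j hj k hk hjk
      have hj' := (mem_filter.mp hj).2
      have hk' := (mem_filter.mp hk).2
      rw [← Nat.prod_primeFactors_of_squarefree hj', ← Nat.prod_primeFactors_of_squarefree hk', hjk]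
  rw [Finset.card_powerset] at h2
  calc (((m.divisors.filter (fun k : ℕ => (k : ℝ) ≤ Y)).filter Squarefree).card : ℝ)
      ≤ ((2 ^ m.primeFactors.card : ℕ) : ℝ) := by exact_mod_cast h2
    _ = 2 ^ m.primeFactors.card := by push_cast; rfl
    _ ≤ 2 ^ R := pow_le_pow_right₀ (by norm_num) ((FFB.card_primeFactors_le m).trans hR)

theorem abs_FL_le (Y z : ℝ) (m : ℕ) : |FL Y z m| ≤ 6 := by
  have h1 : 0 ≤ primeInd m ∧ primeInd m ≤ 1 := by rw [primeInd]; split_ifs <;> simp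
  have h2 : 0 ≤ p3Ind Y m ∧ p3Ind Y m ≤ 1 := by rw [p3Ind]; split_ifs <;> simp
  have h3 : 0 ≤ g4Ind Y z m ∧ g4Ind Y z m ≤ 1 := by rw [g4Ind]; split_ifs <;> simp
  have h4 : 0 ≤ ddInd Y z m ∧ ddInd Y z m ≤ 1 := by rw [ddInd]; split_ifs <;> simp
  rw [FL, abs_le]
  constructor <;> linarith [h1.1, h1.2, h2.1, h2.2, h3.1, h3.2, h4.1, h4.2]

/-- the general bound on rough numbers -/
theorem gen_bound (N Q j : ℕ) (e0 e : ℝ) (hN : 10 ≤ N) (he0 : 0 < e0) (hQ : 1 ≤ Q) (m : ℕ)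
    (hm0 : m ≠ 0) (hm : (m : ℝ) ≤ 5 * (N : ℝ) ^ 2) (hr : Rough ((N : ℝ) ^ e0) m)
    (T : Finset (Multiset ℕ)) (hT : ∀ c ∈ T, Multiset.card c ≤ ⌊3 / e0⌋₊) :
    |FL (YL N) (zL N) m - psiW N e0 (gw (zL N)) m
        - ∑ c ∈ T, tt (e0 / Q) e j c * FF N (e0 / Q) c m|
      ≤ 6 + 2 ^ ⌊3 / e0⌋₊ + (1 + 2 ^ ⌊3 / e0⌋₊) * (⌊3 / e0⌋₊).factorial := by
  have hQ0 : (0 : ℝ) < Q := by exact_mod_cast hQ
  have he2 : 0 < e0 / Q := by positivity
  have h1 : |FL (YL N) (zL N) m| ≤ 6 := abs_FL_le _ _ m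
  have h2 : |psiW N e0 (gw (zL N)) m| ≤ 2 ^ ⌊3 / e0⌋₊ := by
    rw [psiW, rInd, if_pos hr, one_mul]
    exact mu_sum_bound m _ (T2.length_le N e0 he0 hN m hm0 hm hr) _ _ (abs_gw_le _)
  have h3 : |∑ c ∈ T, tt (e0 / Q) e j c * FF N (e0 / Q) c m|
      ≤ (1 + 2 ^ ⌊3 / e0⌋₊) * (⌊3 / e0⌋₊).factorial := by
    rw [T2.sum_types N Q e0 hN he2]
    split_ifs with h
    · rw [abs_mul]
      apply mul_le_mul (abs_tt_le _ _ _ _ _ (hT _ h)) _ (abs_nonneg _) (by positivity)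
      rw [abs_of_nonneg (FFB.FF_nonneg _ _ _ _)]
      refine (FFB.FF_le N _ (by omega) _ _).trans ?_
      exact_mod_cast Nat.factorial_le (hT _ h)
    · rw [abs_zero]; positivity
  rw [abs_le] at *
  constructor <;> linarith [h1.1, h1.2, h2.1, h2.2, h3.1, h3.2]

/-- a product of three primes `≤ Y` of size `N²` is rough -/
theorem p3_rough (N : ℕ) (e0 : ℝ) (hN : 10 ≤ N)
    (he1 : e0 ≤ 1 / 10) (m : ℕ) (hm1 : (N : ℝ) ^ 2 / 2 ≤ m) (hm : Squarefree m)
    (h3 : m.primeFactors.card = 3) (h4 : ∀ p ∈ m.primeFactors, (p : ℝ) ≤ YL N) :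
    Rough ((N : ℝ) ^ e0) m := by
  have hN10 : (10 : ℝ) ≤ N := by exact_mod_cast hN
  have hN1 : (1 : ℝ) < N := by linarith
  have hN0 : (0 : ℝ) < N := by linarith
  intro p hp hpm
  have hpmem : p ∈ m.primeFactors := Nat.mem_primeFactors.2 ⟨hp, hpm, hm.ne_zero⟩
  have hcard : (m.primeFactors.erase p).card = 2 := by
    rw [card_erase_of_mem hpmem, h3]
  obtain ⟨a, b, hab, hEq⟩ := card_eq_two.1 hcard
  have hprod : m = p * (a * b) := by
    have h6 := Nat.prod_primeFactors_of_squarefree hm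
    rw [← mul_prod_erase _ _ hpmem, hEq, prod_pair hab] at h6
    exact h6.symm
  have ha := h4 a (mem_of_mem_erase (hEq ▸ mem_insert_self a _))
  have hb := h4 b (mem_of_mem_erase (hEq ▸ mem_insert_of_mem (mem_singleton_self b)))
  have hm' : (m : ℝ) = p * (a * b) := by exact_mod_cast hprod
  have hx5 : (5 : ℝ) ≤ (N : ℝ) / 2 := by linarith
  have hx1 : (1 : ℝ) ≤ (N : ℝ) / 2 := by linarith
  have hx0 : (0 : ℝ) < (N : ℝ) / 2 := by linarith
  have hY0 : 0 ≤ YL N := by unfold YL YK; positivity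
  have hp0 : (0 : ℝ) < p := by exact_mod_cast hp.pos
  have hY : YL N * YL N ≤ ((N : ℝ) / 2) ^ (12 / 7 : ℝ) := by
    unfold YL YK
    rw [← Real.rpow_add hx0]
    exact Real.rpow_le_rpow_of_exponent_le hx1 (by norm_num)
  have hab2 : (a : ℝ) * b ≤ ((N : ℝ) / 2) ^ (12 / 7 : ℝ) :=
    (mul_le_mul ha hb (Nat.cast_nonneg b) hY0).trans hY
  have hsplit : (N : ℝ) ^ 2 / 2 = ((N : ℝ) / 2) ^ (12 / 7 : ℝ) * (2 * ((N : ℝ) / 2) ^ (2 / 7 : ℝ)) := by
    have h5 : ((N : ℝ) / 2) ^ (12 / 7 : ℝ) * ((N : ℝ) / 2) ^ (2 / 7 : ℝ) = ((N : ℝ) / 2) ^ 2 := by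
      rw [← Real.rpow_add hx0, ← Real.rpow_natCast]; norm_num
    calc (N : ℝ) ^ 2 / 2 = 2 * ((N : ℝ) / 2) ^ 2 := by ring
      _ = _ := by rw [← h5]; ring
  have h8 : 0 < ((N : ℝ) / 2) ^ (12 / 7 : ℝ) := by positivity
  have hpl : 2 * ((N : ℝ) / 2) ^ (2 / 7 : ℝ) ≤ p := by
    have h9 : ((N : ℝ) / 2) ^ (12 / 7 : ℝ) * (2 * ((N : ℝ) / 2) ^ (2 / 7 : ℝ))
        ≤ ((N : ℝ) / 2) ^ (12 / 7 : ℝ) * p := by
      rw [← hsplit]
      refine hm1.trans ?_
      rw [hm', mul_comm (((N : ℝ) / 2) ^ (12 / 7 : ℝ))]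
      exact mul_le_mul_of_nonneg_left hab2 hp0.le
    exact le_of_mul_le_mul_left h9 h8
  refine le_trans ?_ hpl
  calc (N : ℝ) ^ e0 ≤ (N : ℝ) ^ (1 / 10 : ℝ) := Real.rpow_le_rpow_of_exponent_le hN1.le he1
    _ = (2 * ((N : ℝ) / 2)) ^ (1 / 10 : ℝ) := by congr 1; ring
    _ = (2 : ℝ) ^ (1 / 10 : ℝ) * ((N : ℝ) / 2) ^ (1 / 10 : ℝ) := Real.mul_rpow (by norm_num) hx0.le
    _ ≤ 2 * ((N : ℝ) / 2) ^ (2 / 7 : ℝ) := by
        apply mul_le_mul _ _ (by positivity) (by norm_num)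
        · calc (2 : ℝ) ^ (1 / 10 : ℝ) ≤ (2 : ℝ) ^ (1 : ℝ) :=
                Real.rpow_le_rpow_of_exponent_le (by norm_num) (by norm_num)
            _ = 2 := Real.rpow_one 2
        · exact Real.rpow_le_rpow_of_exponent_le hx1 (by norm_num)

end T2LM

theorem specT2L (hT2P : SpecT2P) : SpecT2L := by
  intro J hJ
  have hJ3 : (3 : ℝ) ≤ J := by exact_mod_cast hJ
  have hJ0 : (0 : ℝ) < J := by linarith
  have he0J : (2 / 7 / J : ℝ) * J = 2 / 7 := by field_simp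
  have he0 : (0 : ℝ) < 2 / 7 / J := by positivity
  have he1 : (2 / 7 / J : ℝ) ≤ 1 / 10 := by
    rw [div_le_iff₀ hJ0]; linarith
  generalize (2 / 7 / J : ℝ) = e0 at he0J he0 he1 ⊢
  refine ⟨6 + 2 ^ ⌊3 / e0⌋₊ + (1 + 2 ^ ⌊3 / e0⌋₊) * (⌊3 / e0⌋₊).factorial, by positivity, ?_⟩
  intro e he he'
  have hQ1 : 1 ≤ ⌈3 / e⌉₊ := Nat.one_le_ceil_iff.mpr (by positivity)
  have hQe : 3 / e ≤ (⌈3 / e⌉₊ : ℝ) := Nat.le_ceil _
  generalize ⌈3 / e⌉₊ = Q at hQ1 hQe
  have hQ0 : (0 : ℝ) < Q := by exact_mod_cast hQ1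
  have he2 : 0 < e0 / Q := by positivity
  have he2j : e0 / Q * ((J * Q : ℕ) : ℝ) = 2 / 7 := by
    push_cast
    rw [← he0J]
    field_simp
  refine ⟨Q, hQ1, T2.fam Q ⌊3 * Q / e0⌋₊ ⌊3 / e0⌋₊, T2LM.tt (e0 / Q) e (J * Q), ?_, ?_,
    max 10 ⌈(6 : ℝ) ^ (1 / e)⌉₊, ?_⟩
  · intro c hc i hi
    exact (((T2.mem_fam _ _ _ _).mp hc).1 i hi).1
  · intro c hc
    refine (T2LM.abs_tt_le _ _ _ _ _ ((T2.mem_fam _ _ _ _).mp hc).2).trans ?_
    have : (0 : ℝ) ≤ (1 + 2 ^ ⌊3 / e0⌋₊) * ((⌊3 / e0⌋₊).factorial : ℝ) := by positivity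
    linarith
  intro N hN0 α _ _
  have hN : 10 ≤ N := le_trans (le_max_left _ _) hN0
  have hN10 : (10 : ℝ) ≤ N := by exact_mod_cast hN
  have hN1 : (1 : ℝ) < N := by linarith
  have hNe : 6 ≤ (N : ℝ) ^ e := by
    have h1 : (6 : ℝ) ^ (1 / e) ≤ N := by
      refine (Nat.le_ceil _).trans ?_
      exact_mod_cast le_trans (le_max_right _ _) hN0
    calc (6 : ℝ) = ((6 : ℝ) ^ (1 / e)) ^ e := by
          rw [← Real.rpow_mul (by norm_num), one_div_mul_cancel he.ne', Real.rpow_one]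
      _ ≤ (N : ℝ) ^ e := Real.rpow_le_rpow (by positivity) h1 he.le
  have hR3 : ((⌊3 / e0⌋₊ : ℕ) : ℝ) ≤ 3 / e0 := Nat.floor_le (by positivity)
  have hRe : e0 / Q * (⌊3 / e0⌋₊ : ℝ) ≤ e := by
    calc e0 / Q * (⌊3 / e0⌋₊ : ℝ) ≤ e0 / Q * (3 / e0) := mul_le_mul_of_nonneg_left hR3 he2.le
      _ = 3 / Q := by field_simp
      _ ≤ e := by
          rw [div_le_iff₀ hQ0]
          rw [div_le_iff₀ he] at hQe
          linarith
  have hzN : (N : ℝ) ^ e0 ≤ zL N := by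
    unfold zL
    exact Real.rpow_le_rpow_of_exponent_le hN1.le (by linarith)
  refine ⟨?_, ?_⟩
  · intro m hm1 hm2
    have hm0 : m ≠ 0 := by
      intro h
      rw [h] at hm1
      have : (0 : ℝ) < (N : ℝ) ^ 2 / 2 := by positivity
      simp only [Nat.cast_zero] at hm1
      linarith
    have hzm : (N : ℝ) ^ e0 ≤ m := by
      calc (N : ℝ) ^ e0 ≤ (N : ℝ) ^ (1 : ℝ) := Real.rpow_le_rpow_of_exponent_le hN1.le (by linarith)
        _ = N := Real.rpow_one _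
        _ ≤ (N : ℝ) ^ 2 / 2 := by nlinarith
        _ ≤ m := hm1
    have hRHS : ∀ x ∈ critK (6 / 7) α, (0 : ℝ) ≤
        (if Rough ((N : ℝ) ^ e0) m ∧ Win N x (2 * e) m then (1 : ℝ) else 0) := by
      intro x _; split_ifs <;> norm_num
    have hRHS2 : (0 : ℝ) ≤ ∑ x ∈ critK (6 / 7) α,
        (if Rough ((N : ℝ) ^ e0) m ∧ Win N x (2 * e) m then (1 : ℝ) else 0) :=
      Finset.sum_nonneg hRHS
    have hRHS3 : (0 : ℝ) ≤ (if Rough ((N : ℝ) ^ e0) m ∧ NSq ((N : ℝ) ^ e0) m then (1 : ℝ) else 0) := by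
      split_ifs <;> norm_num
    by_cases hr : Rough ((N : ℝ) ^ e0) m
    · have hlen := T2.length_le N e0 he0 hN m hm0 hm2 hr
      have hgen := T2LM.gen_bound N Q (J * Q) e0 e hN he0 hQ1 m hm0 hm2 hr
        ((T2.fam Q ⌊3 * Q / e0⌋₊ ⌊3 / e0⌋₊).filter (fun c => GoodK (6 / 7) (e0 / Q) e α c))
        (fun c hc => ((T2.mem_fam _ _ _ _).mp (mem_filter.mp hc).1).2)
      by_cases hsq : Squarefree m
      · by_cases hg : GoodK (6 / 7) (e0 / Q) e α (T2.typ N (e0 / Q) m)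
        · -- good type
          have hid := hT2P N (J * Q) (e0 / Q) e α m hN he he' hNe he2 he2j hsq hm1 hm2 hg
          have hmem : T2.typ N (e0 / Q) m ∈
              (T2.fam Q ⌊3 * Q / e0⌋₊ ⌊3 / e0⌋₊).filter
                (fun c => GoodK (6 / 7) (e0 / Q) e α c) :=
            mem_filter.mpr ⟨T2.typ_mem N Q e0 hN he0 hQ1 m hm0 hm2 hr, hg⟩
          have hpsi : psiW N e0 (gw (zL N)) m = SL (YL N) (zL N) m := by
            rw [psiW, rInd, if_pos hr, one_mul, SL]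
          have hzero : FL (YL N) (zL N) m - psiW N e0 (gw (zL N)) m
              - ∑ c ∈ (T2.fam Q ⌊3 * Q / e0⌋₊ ⌊3 / e0⌋₊).filter
                (fun c => GoodK (6 / 7) (e0 / Q) e α c),
                T2LM.tt (e0 / Q) e (J * Q) c * FF N (e0 / Q) c m = 0 := by
            rw [T2.sum_types N Q e0 hN he2, if_pos hmem, hpsi, hid,
              T2.FF_typ N _ (by omega) he2 _ m hsq rfl, T2LM.tt]
            split_ifs with hmid
            · rw [div_mul_cancel₀ _ (lt_of_lt_of_le one_pos (T2.vf_pos _)).ne', sub_self]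
            · rw [zero_mul, sub_zero]
          rw [hzero, abs_zero]
          exact mul_nonneg (by positivity) (by linarith)
        · -- bad type
          obtain ⟨x, hx, hW⟩ := T2K.bad_type N (6 / 7) e α hN (e0 / Q) he2 _ hRe m hsq hlen hg
          refine hgen.trans (le_mul_of_one_le_right (by positivity) ?_)
          have h1 := Finset.single_le_sum hRHS hx
          rw [if_pos ⟨hr, hW⟩] at h1
          linarith
      · -- not squarefree
        have hns : NSq ((N : ℝ) ^ e0) m := by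
          rw [Nat.squarefree_iff_prime_squarefree] at hsq
          push Not at hsq
          obtain ⟨p, hp, hpm⟩ := hsq
          exact ⟨p, hp, hr p hp ((Dvd.intro _ rfl).trans hpm), by rw [pow_two]; exact hpm⟩
        refine hgen.trans (le_mul_of_one_le_right (by positivity) ?_)
        rw [if_pos ⟨hr, hns⟩]
        linarith
    · -- not rough
      have h1 : primeInd m = 0 := by
        rw [primeInd, if_neg]
        intro hp
        apply hr
        intro p hpp hpm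
        rw [(Nat.prime_dvd_prime_iff_eq hpp hp).mp hpm]
        exact hzm
      have h2 : psiW N e0 (gw (zL N)) m = 0 := by rw [psiW, rInd, if_neg hr, zero_mul]
      have h3 : ∑ c ∈ (T2.fam Q ⌊3 * Q / e0⌋₊ ⌊3 / e0⌋₊).filter
          (fun c => GoodK (6 / 7) (e0 / Q) e α c),
          T2LM.tt (e0 / Q) e (J * Q) c * FF N (e0 / Q) c m = 0 := by
        apply Finset.sum_eq_zero
        intro c hc
        by_contra hne
        have h4 := right_ne_zero_of_mul hne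
        have h5 := (FFB.FF_support N (e0 / Q) (by omega) c m h4).2.2.2.2 he2 Q
          (fun i hi => (((T2.mem_fam _ _ _ _).mp (mem_filter.mp hc).1).1 i hi).1)
        rw [div_mul_cancel₀ _ hQ0.ne'] at h5
        exact hr h5
      have h0 : p3Ind (YL N) m = 0 := by
        rw [p3Ind, if_neg]
        rintro ⟨hsq, h31, h32⟩
        exact hr (T2LM.p3_rough N e0 hN he1 m hm1 hsq h31 h32)
      have h0' : g4Ind (YL N) (zL N) m = 0 := by
        rw [g4Ind, if_neg]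
        rintro ⟨hsq, -, h32, -⟩
        refine hr (fun p hp hpm => hzN.trans (h32 p ?_).1)
        exact Nat.mem_primeFactors.2 ⟨hp, hpm, hm0⟩
      have h0'' : ddInd (YL N) (zL N) m = 0 := by
        rw [ddInd, if_neg]
        rintro ⟨hsq, -, h32, -⟩
        refine hr (fun p hp hpm => hzN.trans (h32 p ?_))
        exact Nat.mem_primeFactors.2 ⟨hp, hpm, hm0⟩
      rw [FL, h1, h0, h0', h0'', h2, h3]
      simp only [mul_zero, sub_zero, abs_zero]
      exact mul_nonneg (by positivity) (by linarith)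
  · intro c _ _ hc
    by_contra hno
    apply hc
    rw [T2LM.tt, if_neg]
    rintro ⟨c₁, h1, h2⟩
    exact hno ⟨c₁, h1, h2⟩

end Pool.Agent.Lib.MP391708.U.L
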