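import Pool.Agent.Lib.MP_391708_nt.U.L.SpecL

/-!
# Project X6, module T2P: the identity on one good cube

Adapted from `QPA/T2K.lean`.
-/

set_option autoImplicit false

namespace Pool.Agent.Lib.MP391708.U.L.T2PM

open Finset Pool.Agent.Lib.MP391708.QPA Pool.Agent.Lib.MP391708.QPA.T2
open scoped Classical

noncomputable section

section main

variable (N : ℕ) (e α : ℝ)

/-- sizes for `N` large: `N^(6/7-e) ≤ Y < N^(6/7+e)` -/
theorem YL_bounds (hN : 10 ≤ N) (he : 0 < e) (hNe : 6 ≤ (N : ℝ) ^ e) :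
    (N : ℝ) ^ (6 / 7 - e) ≤ YL N ∧ YL N < (N : ℝ) ^ (6 / 7 + e) ∧ 1 < YL N := by
  have hN10 : (10 : ℝ) ≤ N := by exact_mod_cast hN
  have hN0 : (0 : ℝ) < N := by linarith
  have h2 : (2 : ℝ) ^ (6 / 7 : ℝ) ≤ 2 := by
    calc (2 : ℝ) ^ (6 / 7 : ℝ) ≤ (2 : ℝ) ^ (1 : ℝ) :=
          Real.rpow_le_rpow_of_exponent_le (by norm_num) (by norm_num)
      _ = 2 := Real.rpow_one 2
  have h20 : (0 : ℝ) < (2 : ℝ) ^ (6 / 7 : ℝ) := by positivity
  have hY : YL N = (N : ℝ) ^ (6 / 7 : ℝ) / (2 : ℝ) ^ (6 / 7 : ℝ) := by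
    unfold YL YK
    rw [Real.div_rpow hN0.le (by norm_num)]
  refine ⟨?_, ?_, ?_⟩
  · rw [hY, Real.rpow_sub hN0]
    apply div_le_div_of_nonneg_left (by positivity) h20
    linarith
  · have h3 : YL N ≤ (N : ℝ) ^ (6 / 7 : ℝ) := by
      unfold YL YK
      apply Real.rpow_le_rpow (by positivity) (by linarith) (by norm_num)
    refine lt_of_le_of_lt h3 ?_
    exact Real.rpow_lt_rpow_of_exponent_lt (by linarith) (by linarith)
  · unfold YL YK
    apply Real.one_lt_rpow (by linarith) (by norm_num)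

/-- `z ≤ p` in terms of the index -/
theorem le_idx (j : ℕ) (e2 : ℝ) (hN : 10 ≤ N) (he2 : 0 < e2) (hj : e2 * j = 2 / 7) (p : ℕ)
    (hp : 1 ≤ p) : j ≤ idx N e2 p ↔ zL N ≤ (p : ℝ) := by
  have hN1 : (1 : ℝ) < N := by exact_mod_cast (by omega : 1 < N)
  obtain ⟨h1, h2⟩ := idx_spec N e2 (by omega) he2 p hp
  have hz : zL N = (N : ℝ) ^ ((j : ℝ) * e2) := by
    unfold zL
    rw [← hj, mul_comm]
  rw [hz]
  constructor
  · intro h
    have h3 : (j : ℝ) ≤ (idx N e2 p : ℝ) := by exact_mod_cast h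
    refine le_trans (Real.rpow_le_rpow_of_exponent_le hN1.le ?_) h1
    exact mul_le_mul_of_nonneg_right h3 he2.le
  · intro h
    have h3 : (j : ℝ) * e2 < ((idx N e2 p : ℝ) + 1) * e2 :=
      (Real.rpow_lt_rpow_left_iff hN1).mp (lt_of_le_of_lt h h2)
    have h4 := lt_of_mul_lt_mul_right h3 he2.le
    have h5 : j < idx N e2 p + 1 := by exact_mod_cast h4
    omega

/-- the number of the primes `≥ z` -/
theorem card_filter_eq (j : ℕ) (e2 : ℝ) (hN : 10 ≤ N) (he2 : 0 < e2) (hj : e2 * j = 2 / 7)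
    (S : Finset ℕ) (hS : ∀ p ∈ S, 1 ≤ p) :
    Multiset.card ((S.val.map (idx N e2)).filter (fun i => j ≤ i))
      = (S.filter (fun p : ℕ => zL N ≤ (p : ℝ))).card := by
  rw [Multiset.filter_map, Multiset.card_map]
  change _ = Multiset.card (S.filter (fun p : ℕ => zL N ≤ (p : ℝ))).val
  rw [Finset.filter_val]
  congr 1
  apply Multiset.filter_congr
  intro p hp
  exact le_idx N j e2 hN he2 hj p (hS p hp)

/-- the identity on a good cube -/
theorem good_identity (hWSB : SpecWSB) (hN : 10 ≤ N) (he : 0 < e) (hNe : 6 ≤ (N : ℝ) ^ e) (e2 : ℝ)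
    (he2 : 0 < e2) (j : ℕ) (hj : e2 * j = 2 / 7)
    (m : ℕ) (hm : Squarefree m) (hg : GoodK (6 / 7) e2 e α (typ N e2 m)) :
    primeInd m - SL (YL N) (zL N) m = TcL e2 j (typ N e2 m) := by
  have hN1 : (1 : ℝ) < N := by exact_mod_cast (by omega : 1 < N)
  obtain ⟨hY1, hY2, hY3⟩ := YL_bounds N e hN he hNe
  have h1 : primeInd m = if Multiset.card (typ N e2 m) = 1 then 1 else 0 := by
    rw [primeInd, card_typ]
    by_cases hp : m.Prime
    · rw [if_pos hp, if_pos ((prime_iff m).mp hp)]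
    · rw [if_neg hp, if_neg (fun h => hp ((prime_iff m).mpr h))]
  rw [TcL, h1, hWSB m (YL N) (zL N) hm]
  congr 1
  rw [typ_sq N e2 m hm, ← sum_powerset]
  apply Finset.sum_congr rfl
  intro S hS
  have hSP := Finset.mem_powerset.mp hS
  have hS1 : ∀ p ∈ S, 1 ≤ p := fun p hp => (Nat.mem_primeFactors.mp (hSP hp)).1.one_lt.le
  have hb := prod_bounds N e2 (by omega) he2 S hS1
  have hcard : Multiset.card (S.val.map (idx N e2)) = S.card := by
    rw [Multiset.card_map]; rfl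
  rw [sgL, hcard, card_filter_eq N j e2 hN he2 hj S hS1]
  have hiff : ((∏ p ∈ S, p : ℕ) : ℝ) ≤ YL N ↔ e2 * ((S.val.map (idx N e2)).sum : ℝ) < 6 / 7 := by
    rcases Finset.eq_empty_or_nonempty S with hS0 | hS0
    · subst hS0
      simp [hY3.le]
    · have hsub : S.val.map (idx N e2) ≤ typ N e2 m := by
        rw [typ_sq N e2 m hm]
        exact Multiset.map_le_map (Finset.val_le_iff.mpr hSP)
      have hne : S.val.map (idx N e2) ≠ 0 := by
        intro h0
        have := congrArg Multiset.card h0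
        rw [hcard, Multiset.card_zero] at this
        exact (Finset.card_pos.mpr hS0).ne' this
      rcases hg _ hsub hne (6 / 7) (by simp [critK]) with h2 | h2
      · have h3 : YL N < ((∏ p ∈ S, p : ℕ) : ℝ) :=
          hY2.trans (lt_of_lt_of_le (Real.rpow_lt_rpow_of_exponent_lt hN1 h2) hb.1)
        constructor
        · intro h4; linarith
        · intro h4; linarith
      · have h3 : ((∏ p ∈ S, p : ℕ) : ℝ) ≤ YL N :=
          (hb.2.trans (Real.rpow_lt_rpow_of_exponent_lt hN1 h2).le).trans hY1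
        constructor
        · intro _
          have h5 : 0 ≤ e2 * (Multiset.card (S.val.map (idx N e2)) : ℝ) := by positivity
          nlinarith
        · intro _; exact h3
  by_cases h : ((∏ p ∈ S, p : ℕ) : ℝ) ≤ YL N
  · rw [if_pos h, if_pos (hiff.mp h)]
  · rw [if_neg h, if_neg (fun h' => h (hiff.mpr h'))]

/-- no divisor in `(Y, m/Y]` if there is no subtype `MidK` -/
theorem no_mid (hN : 10 ≤ N) (he : 0 < e) (hNe : 6 ≤ (N : ℝ) ^ e) (e2 : ℝ) (he2 : 0 < e2)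
    (m : ℕ) (hm : Squarefree m) (hm2 : (m : ℝ) ≤ 5 * (N : ℝ) ^ 2)
    (hg : GoodK (6 / 7) e2 e α (typ N e2 m))
    (hmid : ¬ ∃ c₁ ≤ typ N e2 m, MidK (6 / 7) e2 e c₁) : TF (YL N) m := by
  intro k hk hkY
  have hN1 : (1 : ℝ) < N := by exact_mod_cast (by omega : 1 < N)
  obtain ⟨hY1, hY2, hY3⟩ := YL_bounds N e hN he hNe
  have hY0 : 0 < YL N := by linarith
  by_contra hcon
  push Not at hcon
  rw [le_div_iff₀ hY0] at hcon
  obtain ⟨l, hl⟩ := hk
  have hml : (m : ℝ) = k * l := by exact_mod_cast hl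
  have hk0 : (0 : ℝ) < k := by linarith
  have hl1 : YL N ≤ l := by
    rw [hml] at hcon
    exact le_of_mul_le_mul_left hcon hk0
  -- the smaller one
  have key : ∀ j : ℕ, j ∣ m → YL N ≤ j → (j : ℝ) ^ 2 ≤ m → False := by
    intro j hj hjY hj2
    have hjs := hm.squarefree_of_dvd hj
    have hSP : j.primeFactors ⊆ m.primeFactors := Nat.primeFactors_mono hj hm.ne_zero
    have hb := prod_bounds N e2 (by omega) he2 j.primeFactors
      (fun p hp => (Nat.mem_primeFactors.mp hp).1.one_lt.le)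
    rw [Nat.prod_primeFactors_of_squarefree hjs] at hb
    have hsub : j.primeFactors.val.map (idx N e2) ≤ typ N e2 m := by
      rw [typ_sq N e2 m hm]
      exact Multiset.map_le_map (Finset.val_le_iff.mpr hSP)
    have hne : j.primeFactors.val.map (idx N e2) ≠ 0 := by
      intro h0
      have h1 := congrArg Multiset.card h0
      rw [Multiset.card_map, Multiset.card_zero] at h1
      have h2 : j.primeFactors = ∅ := Finset.card_eq_zero.mp h1
      have h3 : j = 1 := by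
        rw [← Nat.prod_primeFactors_of_squarefree hjs, h2]; simp
      rw [h3] at hjY
      norm_num at hjY
      linarith
    have hA : 6 / 7 + e < e2 * ((j.primeFactors.val.map (idx N e2)).sum : ℝ) := by
      rcases hg _ hsub hne (6 / 7) (by simp [critK]) with h2 | h2
      · exact h2
      · exfalso
        have h3 := lt_of_le_of_lt hb.2 (Real.rpow_lt_rpow_of_exponent_lt hN1 h2)
        linarith
    have hB : e2 * (((j.primeFactors.val.map (idx N e2)).sum : ℝ)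
        + (Multiset.card (j.primeFactors.val.map (idx N e2)) : ℝ)) < 1 - e := by
      rcases hg _ hsub hne 1 (by simp [critK]) with h2 | h2
      · exfalso
        have h3 : (N : ℝ) ^ (1 + e) ≤ j :=
          (Real.rpow_lt_rpow_of_exponent_lt hN1 h2).le.trans hb.1
        rw [Real.rpow_add (by linarith), Real.rpow_one] at h3
        have h4 : (N : ℝ) * 6 ≤ j :=
          (mul_le_mul_of_nonneg_left hNe (by linarith)).trans h3
        have h5 : ((N : ℝ) * 6) ^ 2 ≤ (j : ℝ) ^ 2 := pow_le_pow_left₀ (by linarith) h4 2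
        nlinarith [sq_nonneg (N : ℝ), mul_pos (by linarith : (0:ℝ) < N) (by linarith : (0:ℝ) < N)]
      · exact h2
    exact hmid ⟨_, hsub, hA.le, hB.le⟩
  rcases le_total (k : ℝ) (l : ℝ) with h | h
  · exact key k ⟨l, hl⟩ hkY.le (by rw [hml]; nlinarith)
  · exact key l ⟨k, by rw [hl]; ring⟩ hl1 (by rw [hml]; nlinarith)

/-- a subtype `MidK` gives a divisor in `(Y, m/Y)` -/
theorem mid_div (hN : 10 ≤ N) (he : 0 < e) (hNe : 6 ≤ (N : ℝ) ^ e) (e2 : ℝ) (he2 : 0 < e2) (m : ℕ)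
    (hm : Squarefree m) (hm1 : (N : ℝ) ^ 2 / 2 ≤ m)
    (hmid : ∃ c₁ ≤ typ N e2 m, MidK (6 / 7) e2 e c₁) :
    ∃ d : ℕ, d ∣ m ∧ YL N < d ∧ YL N < ((m / d : ℕ) : ℝ) := by
  have hN10 : (10 : ℝ) ≤ N := by exact_mod_cast hN
  have hN1 : (1 : ℝ) < N := by linarith
  have hN0 : (0 : ℝ) < N := by linarith
  obtain ⟨hY1, hY2, hY3⟩ := YL_bounds N e hN he hNe
  obtain ⟨c₁, hc, hmi⟩ := hmid
  rw [typ_sq N e2 m hm] at hc
  obtain ⟨S, hSP, hSs⟩ := exists_sub m.primeFactors (idx N e2) c₁ hc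
  have hb := prod_bounds N e2 (by omega) he2 S
    (fun p hp => (Nat.mem_primeFactors.mp (hSP hp)).1.one_lt.le)
  rw [hSs] at hb
  have hd := T1.prod_dvd m hm S hSP
  set d : ℕ := ∏ p ∈ S, p with hdd
  have hlow : YL N < d :=
    hY2.trans_le ((Real.rpow_le_rpow_of_exponent_le hN1.le hmi.1).trans hb.1)
  have hup : (d : ℝ) ≤ (N : ℝ) ^ (1 - e) :=
    hb.2.trans (Real.rpow_le_rpow_of_exponent_le hN1.le hmi.2)
  refine ⟨d, hd, hlow, ?_⟩
  obtain ⟨l, hl⟩ := hd
  have hd0 : 0 < d := Nat.pos_of_ne_zero (fun h0 => hm.ne_zero (by rw [hl, h0, zero_mul]))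
  rw [hl, Nat.mul_div_cancel_left l hd0]
  have hml : (m : ℝ) = d * l := by exact_mod_cast hl
  have hYN : YL N ≤ N := by
    unfold YL YK
    calc ((N : ℝ) / 2) ^ (6 / 7 : ℝ) ≤ ((N : ℝ) / 2) ^ (1 : ℝ) :=
          Real.rpow_le_rpow_of_exponent_le (by linarith) (by norm_num)
      _ ≤ N := by rw [Real.rpow_one]; linarith
  have h6 : (N : ℝ) ^ (1 - e) * 6 ≤ N := by
    calc (N : ℝ) ^ (1 - e) * 6 ≤ (N : ℝ) ^ (1 - e) * (N : ℝ) ^ e := by gcongr
      _ = N := by rw [← Real.rpow_add hN0]; norm_num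
  by_contra hcon
  push Not at hcon
  have hl0 : (0 : ℝ) ≤ l := Nat.cast_nonneg l
  have h7 : (m : ℝ) ≤ (N : ℝ) ^ (1 - e) * N := by
    rw [hml]
    exact mul_le_mul hup (hcon.trans hYN) hl0 (by positivity)
  nlinarith

/-- the bounds for `Y` and `z` -/
theorem sizes (hN : 10 ≤ N) (m : ℕ) (hm1 : (N : ℝ) ^ 2 / 2 ≤ m) :
    (YL N) ^ 2 < m ∧ zL N ≤ m / (YL N) ^ 2 ∧ YL N < (zL N) ^ 3 := by
  have hN10 : (10 : ℝ) ≤ N := by exact_mod_cast hN
  have hN1 : (1 : ℝ) < N := by linarith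
  have hN0 : (0 : ℝ) < N := by linarith
  have hx1 : (1 : ℝ) ≤ (N : ℝ) / 2 := by linarith
  have hx0 : (0 : ℝ) < (N : ℝ) / 2 := by linarith
  have hY2 : (YL N) ^ 2 = ((N : ℝ) / 2) ^ (12 / 7 : ℝ) := by
    unfold YL YK
    rw [← Real.rpow_natCast, ← Real.rpow_mul hx0.le]
    norm_num
  have hsplit : ((N : ℝ) / 2) ^ 2 = ((N : ℝ) / 2) ^ (12 / 7 : ℝ) * ((N : ℝ) / 2) ^ (2 / 7 : ℝ) := by
    rw [← Real.rpow_add hx0, ← Real.rpow_natCast]
    norm_num
  refine ⟨?_, ?_, ?_⟩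
  · rw [hY2]
    calc ((N : ℝ) / 2) ^ (12 / 7 : ℝ) ≤ ((N : ℝ) / 2) ^ (2 : ℝ) :=
          Real.rpow_le_rpow_of_exponent_le hx1 (by norm_num)
      _ = ((N : ℝ) / 2) ^ 2 := by
          rw [show (2 : ℝ) = ((2 : ℕ) : ℝ) by norm_num, Real.rpow_natCast]
      _ < (N : ℝ) ^ 2 / 2 := by nlinarith [sq_nonneg (N : ℝ)]
      _ ≤ m := hm1
  · rw [hY2, le_div_iff₀ (by positivity)]
    refine le_trans ?_ hm1
    have h1 : zL N ≤ 2 * ((N : ℝ) / 2) ^ (2 / 7 : ℝ) := by
      unfold zL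
      calc (N : ℝ) ^ (2 / 7 : ℝ) = (2 * ((N : ℝ) / 2)) ^ (2 / 7 : ℝ) := by congr 1; ring
        _ = (2 : ℝ) ^ (2 / 7 : ℝ) * ((N : ℝ) / 2) ^ (2 / 7 : ℝ) :=
            Real.mul_rpow (by norm_num) hx0.le
        _ ≤ 2 * ((N : ℝ) / 2) ^ (2 / 7 : ℝ) := by
            apply mul_le_mul_of_nonneg_right _ (by positivity)
            calc (2 : ℝ) ^ (2 / 7 : ℝ) ≤ (2 : ℝ) ^ (1 : ℝ) :=
                  Real.rpow_le_rpow_of_exponent_le (by norm_num) (by norm_num)
              _ = 2 := Real.rpow_one 2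
    calc zL N * ((N : ℝ) / 2) ^ (12 / 7 : ℝ)
        ≤ (2 * ((N : ℝ) / 2) ^ (2 / 7 : ℝ)) * ((N : ℝ) / 2) ^ (12 / 7 : ℝ) :=
          mul_le_mul_of_nonneg_right h1 (by positivity)
      _ = 2 * ((N : ℝ) / 2) ^ 2 := by rw [hsplit]; ring
      _ = (N : ℝ) ^ 2 / 2 := by ring
  · have h3 : (zL N) ^ 3 = (N : ℝ) ^ (6 / 7 : ℝ) := by
      unfold zL
      rw [← Real.rpow_natCast, ← Real.rpow_mul hN0.le]
      norm_num
    rw [h3]
    unfold YL YK
    exact Real.rpow_lt_rpow hx0.le (by linarith) (by norm_num)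

end main

end

end Pool.Agent.Lib.MP391708.U.L.T2PM

namespace Pool.Agent.Lib.MP391708.U.L

open Finset Filter Topology Pool.Agent.Lib.MP391708.QPA Pool.Agent.Lib.MP391708.QPA.H
open Pool.Agent.Lib.MP391708.U Pool.Agent.Lib.MP391708.U.K
open scoped Classical

theorem specT2P (hWSB : SpecWSB) (hT1L : SpecT1L) : SpecT2P := by
  intro N j e2 e α m hN he he' hNe he2 hj hm hm1 hm2 hg
  obtain ⟨hY1, hY2, hY3⟩ := T2PM.YL_bounds N e hN he hNe
  by_cases hmid : ∃ c₁ : Multiset ℕ, c₁ ≤ T2.typ N e2 m ∧ MidK (6 / 7) e2 e c₁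
  · rw [if_pos hmid]
    obtain ⟨d, hd, h1, h2⟩ := T2PM.mid_div N e hN he hNe e2 he2 m hm hm1 hmid
    have hp3 := T2K.p3_zero m (YL N) hm hY3 d hd h1 h2
    have hTF : ¬ TF (YL N) m := by
      intro h
      have h3 := h d hd h1
      have hY0 : 0 < YL N := by linarith
      rw [div_lt_iff₀ hY0] at h3
      have h4 : ((d * (m / d) : ℕ) : ℝ) = (m : ℝ) := by
        rw [Nat.mul_div_cancel' hd]
      rw [Nat.cast_mul] at h4
      have hd0 : (0 : ℝ) < d := by linarith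
      have h5 : (d : ℝ) * YL N < d * ((m / d : ℕ) : ℝ) := mul_lt_mul_of_pos_left h2 hd0
      linarith
    have hg4 : g4Ind (YL N) (zL N) m = 0 := by
      unfold g4Ind
      exact if_neg (fun h => hTF h.2.2.2)
    have hdd : ddInd (YL N) (zL N) m = 0 := by
      unfold ddInd
      exact if_neg (fun h => hTF h.2.2.2.2)
    rw [← T2PM.good_identity N e α hWSB hN he hNe e2 he2 j hj m hm hg]
    unfold FL
    rw [hp3, hg4, hdd]
    ring
  · rw [if_neg hmid]
    have hTF := T2PM.no_mid N e α hN he hNe e2 he2 m hm hm2 hg hmid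
    obtain ⟨h1, h2, h3⟩ := T2PM.sizes N hN m hm1
    have hz0 : 0 < zL N := by
      unfold zL
      have : (0 : ℝ) < N := by exact_mod_cast (by omega : 0 < N)
      positivity
    rw [hT1L m (YL N) (zL N) hm hY3.le hz0 h1 h2 h3 hTF]
    ring

end Pool.Agent.Lib.MP391708.U.L
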