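import Pool.Agent.Lib.MP_391708_nt.U.L.SpecL
import Pool.Agent.Lib.MP_391708_nt.QPA.T2

/-!
# Module WSB (project X6): the weighted sum over the small divisors as a sum over the sets of primes
-/

set_option autoImplicit false

namespace Pool.Agent.Lib.MP391708.U.L

open Finset Pool.Agent.Lib.MP391708.QPA
open scoped Classical

theorem specWSB : SpecWSB := by
  intro m Y z hm
  rw [SL, ← Finset.sum_filter]
  symm
  apply Finset.sum_nbij' (fun S => ∏ p ∈ S, p) (fun k => k.primeFactors)
  · intro S hS
    have h1 := mem_filter.mp hS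
    exact mem_filter.mpr ⟨Nat.mem_divisors.mpr
      ⟨T1.prod_dvd m hm S (Finset.mem_powerset.mp h1.1), hm.ne_zero⟩, h1.2⟩
  · intro k hk
    have h1 := mem_filter.mp hk
    have h2 := Nat.mem_divisors.mp h1.1
    have hks := hm.squarefree_of_dvd h2.1
    refine mem_filter.mpr ⟨Finset.mem_powerset.mpr (Nat.primeFactors_mono h2.1 h2.2), ?_⟩
    rw [Nat.prod_primeFactors_of_squarefree hks]
    exact h1.2
  · intro S hS
    have h1 := Finset.mem_powerset.mp (mem_filter.mp hS).1
    exact Nat.primeFactors_prod (fun p hp => (Nat.mem_primeFactors.mp (h1 hp)).1)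
  · intro k hk
    have h2 := Nat.mem_divisors.mp (mem_filter.mp hk).1
    exact Nat.prod_primeFactors_of_squarefree (hm.squarefree_of_dvd h2.1)
  · intro S hS
    have h1 := Finset.mem_powerset.mp (mem_filter.mp hS).1
    have hsq : Squarefree (∏ p ∈ S, p) := hm.squarefree_of_dvd (T1.prod_dvd m hm S h1)
    have h3 : (∏ p ∈ S, p).primeFactors = S :=
      Nat.primeFactors_prod (fun p hp => (Nat.mem_primeFactors.mp (h1 hp)).1)
    rw [ArithmeticFunction.moebius_apply_of_squarefree hsq]
    have h4 : ArithmeticFunction.cardFactors (∏ p ∈ S, p) = S.card := by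
      rw [ArithmeticFunction.cardFactors_apply, ← Multiset.coe_card, T2.coe_list _ hsq, h3]
      rfl
    rw [h4, gw, nB, h3]
    push_cast
    rw [mul_comm]

end Pool.Agent.Lib.MP391708.U.L
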