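import Pool.Agent.Lib.MP_391708_nt.U.K.AllK
import Pool.Agent.Lib.MP_391708_nt.U.K.UNIX
import Pool.Agent.Lib.MP_391708_nt.U.L.FIN7
import Pool.Agent.Lib.MP_391708_nt.U.L.WSB
import Pool.Agent.Lib.MP_391708_nt.U.L.T1A
import Pool.Agent.Lib.MP_391708_nt.U.L.T1B
import Pool.Agent.Lib.MP_391708_nt.U.L.T1C
import Pool.Agent.Lib.MP_391708_nt.U.L.G4M
import Pool.Agent.Lib.MP_391708_nt.U.L.T1L
import Pool.Agent.Lib.MP_391708_nt.U.L.T2P
import Pool.Agent.Lib.MP_391708_nt.U.L.T2L
import Pool.Agent.Lib.MP_391708_nt.U.L.FLAL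
import Pool.Agent.Lib.MP_391708_nt.U.L.FLBL
import Pool.Agent.Lib.MP_391708_nt.U.L.MOBL
import Pool.Agent.Lib.MP_391708_nt.U.L.TIL
import Pool.Agent.Lib.MP_391708_nt.U.L.BLKL
import Pool.Agent.Lib.MP_391708_nt.U.L.P3L
import Pool.Agent.Lib.MP_391708_nt.U.L.INB
import Pool.Agent.Lib.MP_391708_nt.U.L.MRS
import Pool.Agent.Lib.MP_391708_nt.U.L.DDM
import Pool.Agent.Lib.MP_391708_nt.U.L.MDL
import Pool.Agent.Lib.MP_391708_nt.U.L.FINL
import Pool.Agent.Lib.MP_391708_nt.U.L.MAINL

/-!
# Project X6 (MP_391708): assembly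
-/

set_option autoImplicit false

namespace Pool.Agent.Lib.MP391708.U.L

open Pool.Agent.Lib.MP391708.QPA Pool.Agent.Lib.MP391708.QPA.H Pool.Agent.Lib.MP391708.U
open Pool.Agent.Lib.MP391708.U.K

/-- primes up to `|a|^(14/9-δ)` -/
theorem mainl : SpecMAINL := by
  have hSELB := specSELB
  have hBT := specBT hSELB
  have hRSUM := specRSUM hBT
  have hQG := specQG
  have hRAV := specRAV hQG
  have hSML := specSML specPVA
  have hLRG := specLRG specPVE
  have hCOUNT := specCOUNT
  have hSEC := specSEC (specKER (specBIL specDLS) specPOI hCOUNT) hCOUNT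
  have hPNT := specPNT specPNTAP
  have hMODP := specMODP hPNT
  have hG := specGMAXU specRHO2 specRHOP
  have hRHB := specRHB specRHOM specRHOS
  have hF6 := specF6U specEUL (specCONV specEUL specRHOP specRHO2) specPVA specPVE specRHOP
    specRHO2 (specTLU specIEU)
  -- averages over `a`
  have hPROD := specPRODV specRHOP specPVA
  have hRHOW := specRHOWV (specRWAV hSML hLRG specTAUM) specTAUM specRHOD
  have hMOB := specMOBL hRHOW
  have hRHM := specRHMV hRHOW hRAV hRSUM
  have hNSF := specNSFV hQG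
  have hWPT := specWPT specFL (specTYW (typeI_of R.rootw) specRSU) specBRU specMKF
    (specMAI specBRU specTAUM hRHB specRHOM) specTAUM specTNT specRHOM specRHOS specRHO2
  have hWIN := specWINV hWPT (specWMSV hRHOW specBRU specTAUM hRHB) (specSLM hSELB) hPROD
    specWMER hG specWIC
  have hWINM := specWINM hBT hRSUM
  have hTAIL := specTAILV specFL specRHO1 specRHOM specRHOP specRHO2 specRHOS specRHOC specWMER
    hPROD hG
  -- Type II
  have hTWO := specTWOV hSEC (specFIRSTH hRAV hBT)
  have hBLK2 := specBLK2V hTWO wbu balu equ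
    (specMTAV specFL specRHOC specRHOM specRHOP specRHO2 hRAV)
    (specMTBV (specBKH hSML hLRG) hRAV specRHOD) specSHM specFFB hG
  have hTII := specTIIV hBLK2 specFFB hG
  -- Type I
  have hTI := specTIL (specFLAL specFL specRHO1 specRHOM specRHOP specRHO2 specRHOS specRHOC)
    (specFLBL specFL) hPROD hMOB hRHM hG specWMER hRSUM
  -- the identity
  have hT1L := specT1L (specT1A specWSB) specT1B (specT1C specWSB)
  have hT2L := specT2L (specT2P specWSB hT1L)
  -- one block
  have hBLKL := specBLKL hTI hT2L hTII hWIN hWINM hNSF specNSFM hG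
  -- the model
  have hINB := specINB hMODP
  have hMRS := specMRS specMER
  have hMDL := specMDL (specP3L hMODP) (specDDM hINB hMRS) (specG4M hINB hMRS) hMODP
  -- one scale, all scales
  have hFINL := specFINL hBLKL hMDL hTAIL hF6 specRHOP specRHO2 hG
  exact specMAINL specDIAG specUNIX hFINL

end Pool.Agent.Lib.MP391708.U.L
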