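import Pool.Agent.Lib.MP_391708_nt.U.L.SpecL
import Pool.Agent.Lib.MP_391708_nt.U.K.FIN5

/-!
# FIN6: `MAINW`, `MAINB` and `MAINL` with one exceptional set
-/

set_option autoImplicit false

namespace Pool.Agent.Lib.MP391708.U.L

open Finset Filter Topology Pool.Agent.Lib.MP391708.QPA Pool.Agent.Lib.MP391708.QPA.H
open Pool.Agent.Lib.MP391708.U Pool.Agent.Lib.MP391708.U.K
open scoped Classical

namespace FIN6M

/-- the number of the `n ≤ X` with a prime value -/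
noncomputable def prc (a : ℤ) (X : ℕ) : ℝ :=
  (((Icc 1 X).filter (fun n : ℕ => Nat.Prime ((n : ℤ) ^ 2 + a).natAbs)).card : ℝ)

/-- the primes in `(N, 2N]` -/
lemma cntk_one (N : ℕ) (a : ℤ) : cntk 1 N a = prc a (2 * N) - prc a N := by
  have h1 : (Icc 1 (2 * N)).filter (fun n : ℕ => Nat.Prime ((n : ℤ) ^ 2 + a).natAbs) =
      (Icc 1 N).filter (fun n : ℕ => Nat.Prime ((n : ℤ) ^ 2 + a).natAbs) ∪
        (Ioc N (2 * N)).filter (fun n : ℕ => Nat.Prime ((n : ℤ) ^ 2 + a).natAbs) := by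
    ext n
    simp only [mem_filter, mem_union, mem_Icc, mem_Ioc]
    constructor
    · rintro ⟨⟨h1, h2⟩, h3⟩
      by_cases h : n ≤ N
      · exact Or.inl ⟨⟨h1, h⟩, h3⟩
      · exact Or.inr ⟨⟨by omega, h2⟩, h3⟩
    · rintro (⟨⟨h1, h2⟩, h3⟩ | ⟨⟨h1, h2⟩, h3⟩)
      · exact ⟨⟨h1, by omega⟩, h3⟩
      · exact ⟨⟨by omega, h2⟩, h3⟩
  have hdisj : Disjoint ((Icc 1 N).filter (fun n : ℕ => Nat.Prime ((n : ℤ) ^ 2 + a).natAbs))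
      ((Ioc N (2 * N)).filter (fun n : ℕ => Nat.Prime ((n : ℤ) ^ 2 + a).natAbs)) := by
    rw [Finset.disjoint_left]
    intro n h2 h3
    rw [mem_filter, mem_Icc] at h2
    rw [mem_filter, mem_Ioc] at h3
    omega
  have h2 : ((Ioc N (2 * N)).filter (fun n : ℕ => Squarefree ((n : ℤ) ^ 2 + a).natAbs ∧
      ((n : ℤ) ^ 2 + a).natAbs.primeFactors.card = 1)) =
      (Ioc N (2 * N)).filter (fun n : ℕ => Nat.Prime ((n : ℤ) ^ 2 + a).natAbs) := by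
    refine Finset.filter_congr fun n _ => ?_
    set v : ℕ := ((n : ℤ) ^ 2 + a).natAbs
    constructor
    · rintro ⟨hsq, hc⟩
      obtain ⟨p, hp⟩ := Finset.card_eq_one.1 hc
      have h3 := Nat.prod_primeFactors_of_squarefree hsq
      rw [hp, Finset.prod_singleton] at h3
      have h4 : p ∈ v.primeFactors := by rw [hp]; exact Finset.mem_singleton_self p
      rw [← h3]
      exact Nat.prime_of_mem_primeFactors h4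
    · intro hp
      refine ⟨hp.squarefree, ?_⟩
      rw [hp.primeFactors, Finset.card_singleton]
  unfold cntk prc
  rw [h2, h1, Finset.card_union_of_disjoint hdisj]
  push_cast
  ring

end FIN6M

open FIN6M FIN5M in
/-- the three theorems with one exceptional set -/
theorem spec_join6 (h₁ : SpecMAINW) (h₂ : SpecMAINB) (h₃ : SpecMAINL) : ∃ E : Set ℤ,
    (∀ B : ℝ, ∃ A₀ : ℕ, ∀ A : ℕ, A₀ ≤ A →
      (((Icc (-(A : ℤ)) A).filter (fun a => a ∈ E)).card : ℝ) ≤ A / (Real.log A) ^ B) ∧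
    (∀ δ : ℝ, 0 < δ → ∃ a₀ : ℝ, ∀ a : ℤ, a ∉ E → a₀ ≤ |(a : ℝ)| → ∃ h : ℝ, 0 < h ∧ IsC a h ∧
      ∀ N : ℕ, |(a : ℝ)| ≤ N * (Real.log N) ^ (1 / 4 : ℝ) →
        ((N : ℝ) ≤ |(a : ℝ)| ^ (10 / 7 - δ) →
          79 / 100 * (1 / 2 * h * ∫ t in (2 : ℝ)..(N : ℝ), 1 / Real.log t) ≤ prc a N) ∧
        ((N : ℝ) ≤ |(a : ℝ)| ^ (14 / 9 - δ) →
          1 / 20 * (h * (N / Real.log N)) ≤ prc a (2 * N) - prc a N)) ∧
    (∀ (k : ℕ) (δ : ℝ), 2 ≤ k → 0 < δ → ∃ c : ℝ, 0 < c ∧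
      ∃ a₀ : ℝ, ∀ a : ℤ, a ∉ E → a₀ ≤ |(a : ℝ)| → ∃ h : ℝ, 0 < h ∧ IsC a h ∧
        ∀ N : ℕ, |(a : ℝ)| ≤ N * (Real.log N) ^ (1 / 4 : ℝ) →
          (N : ℝ) ≤ |(a : ℝ)| ^ (2 - δ) → c * (h * (N / Real.log N)) ≤ cntk k N a) ∧
    (∀ (k : ℕ) (θ δ α β ε : ℝ), 1 / 2 < θ → θ ≤ 1 → 0 < δ → δ < 1 / 10 → 2 / 3 < α →
      3 / 2 < θ + α → α < β → β < 1 → 0 < ε → ∃ a₀ : ℝ, ∀ a : ℤ, a ∉ E → a₀ ≤ |(a : ℝ)| →
      ∃ h : ℝ, 0 < h ∧ IsC a h ∧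
        ∀ N : ℕ, |(a : ℝ)| ≤ N * (Real.log N) ^ (1 / 4 : ℝ) → (N : ℝ) ^ θ ≤ |(a : ℝ)| →
          |cnt N a (EInd N k δ α β) - h * model N (EInd N k δ α β)|
            ≤ ε * (h * (N / Real.log N))) ∧
    ∀ (θ α β ε : ℝ), 1 / 2 < θ → θ ≤ 1 → 2 / 3 < α → 3 / 2 < θ + α → α < β → β < 1 → 0 < ε →
      ∃ a₀ : ℝ, ∀ a : ℤ, a ∉ E → a₀ ≤ |(a : ℝ)| → ∃ h : ℝ, 0 < h ∧ IsC a h ∧
        ∀ N : ℕ, |(a : ℝ)| ≤ N * (Real.log N) ^ (1 / 4 : ℝ) → (N : ℝ) ^ θ ≤ |(a : ℝ)| →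
          |cpq N a α β - 1 / 2 * Real.log (β * (2 - α) / (α * (2 - β))) *
            (h * (N / Real.log N))| ≤ ε * (h * (N / Real.log N)) := by
  obtain ⟨E₁, hE₁, hp, hl, hf, hg⟩ := spec_join h₁ h₂
  obtain ⟨E₂, hE₂, hq⟩ := h₃
  refine ⟨E₁ ∪ E₂, thin_union (fun a ha => ha) hE₁ hE₂, ?_, ?_, ?_, ?_⟩
  · intro δ hδ
    obtain ⟨a₁, h1⟩ := hp δ hδ
    obtain ⟨a₂, h2⟩ := hq δ hδ
    refine ⟨max a₁ a₂, fun a ha ha0 => ?_⟩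
    obtain ⟨h, hh, hC, h3⟩ := h1 a (fun hh => ha (Or.inl hh)) ((le_max_left _ _).trans ha0)
    obtain ⟨h', hh', hC', h4⟩ := h2 a (fun hh => ha (Or.inr hh)) ((le_max_right _ _).trans ha0)
    have he : h' = h := tendsto_nhds_unique hC' hC
    subst he
    refine ⟨h', hh', hC', fun N hN => ⟨fun hN2 => h3 N hN hN2, fun hN2 => ?_⟩⟩
    rw [← cntk_one]
    exact h4 N hN hN2
  · intro k δ hk hδ
    obtain ⟨c, hc, a₀, h3⟩ := hl k δ (by omega) hδ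
    refine ⟨c, hc, a₀, fun a ha ha0 => ?_⟩
    obtain ⟨h, hh, hC, h4⟩ := h3 a (fun hh => ha (Or.inl hh)) ha0
    refine ⟨h, hh, hC, fun N hN hN2 => h4 N hN ?_⟩
    have : eK k = 2 := by
      unfold eK
      rw [if_neg (by omega)]
    rw [this]
    exact hN2
  · intro k θ δ α β ε h1 h2 h3 h4 h5 h6 h7 h8 h9
    obtain ⟨a₀, h10⟩ := hf k θ δ α β ε h1 h2 h3 h4 h5 h6 h7 h8 h9
    exact ⟨a₀, fun a ha ha0 => h10 a (fun hh => ha (Or.inl hh)) ha0⟩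
  · intro θ α β ε h1 h2 h5 h6 h7 h8 h9
    obtain ⟨a₀, h10⟩ := hg θ α β ε h1 h2 h5 h6 h7 h8 h9
    exact ⟨a₀, fun a ha ha0 => h10 a (fun hh => ha (Or.inl hh)) ha0⟩

end Pool.Agent.Lib.MP391708.U.L
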