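import Pool.Agent.Lib.MP_391708_nt.U.K.SpecX5
import Pool.Agent.Lib.MP_391708_nt.U.SpecUK2
import Pool.Agent.Lib.MP_391708_nt.QPA.T2K

/-!
# Project X6 (MP_391708): primes `|n² + a|` for `|a| ≤ N ≤ |a|^(14/9-δ)`

The level is `Y = YL N = (N/2)^(6/7)`, `z = zL N = N^(2/7)`.  The Type I function is the sum over the divisors `k ≤ Y` of `m` of
`μ(k)` with the weight `gw z k` (`2/5` if `k` has two prime factors `≥ z`, `1` otherwise).  If `m ≈ N²` has no divisor in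
`(Y, m/Y]` it is `FL Y z m = 1_P - 2·p3Ind - (9/5)·g4Ind - (3/5)·ddInd ≤ 1_P`; the numbers with such a divisor are Type II.

Module `XXX` is the file `U/L/XXX.lean` with `theorem specXXX (hYYY : SpecYYY) .. : SpecXXX` in the namespace
`Pool.Agent.Lib.MP391708.U.L`, its own lemmas in `Pool.Agent.Lib.MP391708.U.L.XXXM`.  Every landed file may be imported and every
Spec of `QPA/Spec.lean`, `QPA/Spec2.lean`, `QPA/H/SpecH.lean`, `U/Spec*.lean` may be used as a hypothesis.  Hypotheses in the order of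
the docstring.  `L = M/log M`.
-/

set_option autoImplicit false

namespace Pool.Agent.Lib.MP391708.U.L

open Finset Filter Topology Pool.Agent.Lib.MP391708.QPA Pool.Agent.Lib.MP391708.QPA.H
open Pool.Agent.Lib.MP391708.U Pool.Agent.Lib.MP391708.U.K
open scoped Classical

noncomputable section

/-! ## Definitions -/

/-- the number of the prime factors `≥ z` of `k` -/
def nB (z : ℝ) (k : ℕ) : ℕ := (k.primeFactors.filter (fun p : ℕ => z ≤ (p : ℝ))).card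

/-- the weight of the divisor `k` -/
def gw (z : ℝ) (k : ℕ) : ℝ := if 2 ≤ nB z k then 2 / 5 else 1

/-- `m` has no divisor in `(Y, m/Y]` -/
def TF (Y : ℝ) (m : ℕ) : Prop := ∀ k : ℕ, k ∣ m → Y < (k : ℝ) → (m : ℝ) / Y < k

/-- products of four primes in `[z, Y]`, without divisor in `(Y, m/Y]` -/
def g4Ind (Y z : ℝ) (m : ℕ) : ℝ :=
  if Squarefree m ∧ m.primeFactors.card = 4 ∧ (∀ p ∈ m.primeFactors, z ≤ (p : ℝ) ∧ (p : ℝ) ≤ Y) ∧ TF Y m then 1 else 0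

/-- products of three primes `≥ z`, one of them `> Y`, without divisor in `(Y, m/Y]` -/
def ddInd (Y z : ℝ) (m : ℕ) : ℝ :=
  if Squarefree m ∧ m.primeFactors.card = 3 ∧ (∀ p ∈ m.primeFactors, z ≤ (p : ℝ)) ∧
    (∃ q ∈ m.primeFactors, Y < (q : ℝ)) ∧ TF Y m then 1 else 0

/-- the function with an asymptotic formula, `≤ 1_P` -/
def FL (Y z : ℝ) (m : ℕ) : ℝ := primeInd m - 2 * p3Ind Y m - 9 / 5 * g4Ind Y z m - 3 / 5 * ddInd Y z m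

/-- the level -/
def YL (N : ℕ) : ℝ := YK N (6 / 7)

/-- the bound for the large primes -/
def zL (N : ℕ) : ℝ := (N : ℝ) ^ (2 / 7 : ℝ)

/-- the Type I function with the weights `lam` -/
def psiW (N : ℕ) (e0 : ℝ) (lam : ℕ → ℝ) (m : ℕ) : ℝ :=
  rInd ((N : ℝ) ^ e0) m * ∑ k ∈ m.divisors.filter (fun k : ℕ => (k : ℝ) ≤ YL N),
    lam k * (ArithmeticFunction.moebius k : ℝ)

/-- the weighted sum over the small divisors -/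
def SL (Y z : ℝ) (m : ℕ) : ℝ := ∑ k ∈ m.divisors.filter (fun k : ℕ => (k : ℝ) ≤ Y),
  gw z k * (ArithmeticFunction.moebius k : ℝ)

/-! ## The identity -/

/-- WSB (no hypotheses, 60 lines): `SL` as a sum over the sets of primes. Copy `T2.mu_sum_subsets` (`QPA/T2.lean`): `S ↦ ∏S`, `μ(∏S) = (-1)^|S|`,
`primeFactors (∏S) = S` (`Nat.primeFactors_prod`). -/
def SpecWSB : Prop := ∀ (m : ℕ) (Y z : ℝ), Squarefree m →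
  SL Y z m = ∑ S ∈ m.primeFactors.powerset, if ((∏ p ∈ S, p : ℕ) : ℝ) ≤ Y then
    (-1 : ℝ) ^ S.card * (if 2 ≤ (S.filter (fun p : ℕ => z ≤ (p : ℝ))).card then 2 / 5 else 1) else 0

/-- T1A (from WSB, 150 lines): all primes `≥ z`, one prime `q > Y`. `TF` gives `q > m/Y`, so `r = m/q < Y < z³` has at most two prime factors (`< Y`, all `≥ z`).
A set `S` of primes with `q ∈ S` has `∏S > Y`; one with `q ∉ S` has `∏S ≤ r < Y`. So `SL` is `1` for `r = 1`, `1 - 1 = 0` for `r = p₁`, `1 - 2 + 2/5 = -3/5` for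
`r = p₁p₂`. `FL`: `p3Ind = g4Ind = 0` (`q > Y`); `primeInd = 1` for `r = 1` only, `ddInd = 1` for `r = p₁p₂` only (`card = 3`). -/
def SpecT1A : Prop := ∀ (m : ℕ) (Y z : ℝ), Squarefree m → 1 ≤ Y → 0 < z → Y < z ^ 3 → TF Y m →
  (∀ p : ℕ, p.Prime → p ∣ m → z ≤ (p : ℝ)) → (∃ q : ℕ, q.Prime ∧ q ∣ m ∧ Y < (q : ℝ)) → SL Y z m = FL Y z m

/-- T1B (no hypotheses, 120 lines): a prime `s ∣ m`, `s < z`. Both sides are `0`. `k ∣ m`, `s ∤ k`, `k ≤ Y` imply `ks ≤ Y`: otherwise `ks > m/Y` by `TF`, but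
`ks < Y z ≤ Y (m/Y²)`. So the involution `k ↔ ks` of `T1K.caseB1` (`QPA/T1K.lean`, there `s ≤ m/Y²`) is defined; `μ` changes the sign, and
`gw z (ks) = gw z k` because `s < z` (`primeFactors (k s) = insert s (primeFactors k)`). So `SL = 0` (`Finset.sum_involution`).
`FL = 0`: `m` is not a prime (otherwise `m = s < z ≤ m/Y² ≤ m`); `p3Ind = 0`: `m = s a b`, `a, b ≤ Y`, `ab ≤ Y²`, so `s ≥ m/Y² ≥ z`; `g4Ind = ddInd = 0` (`s < z`). -/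
def SpecT1B : Prop := ∀ (m : ℕ) (Y z : ℝ), Squarefree m → 1 ≤ Y → 0 < z → z ≤ m / Y ^ 2 → TF Y m →
  (∃ s : ℕ, s.Prime ∧ s ∣ m ∧ (s : ℝ) < z) → SL Y z m = FL Y z m

/-- T1C (from WSB, 250 lines): all primes in `[z, Y]`. `P` the prime factors, `r = card P`; a set `S` is small if `∏S ≤ Y`. All primes are `≥ z`, so the weight in WSB is
`g(|S|)`, `g(0) = g(1) = 1`, `g(j) = 2/5` for `j ≥ 2`. `|S| ≤ 1` is small; `|S| ≥ 3` is not: `∏S ≥ z³ > Y` (`z ≥ 1`, as `z³ > Y ≥ 1`). So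
`SL = 1 - r + (2/5)·#{small pairs}`. `r ≥ 3` because `m ≤ Y^r`, `m > Y²`. `r ≤ 5`: for `r ≥ 6` divide `P` into two sets of at least three primes, both products are `> Y`, so
`> m/Y` (`TF`), and `m > m²/Y² > m`, false.
`r = 3`: a pair has the product `m/c ≥ m/Y > Y` (`c ≤ Y`), it is not small: `-2`; `FL = -2` (`p3Ind = 1`, `g4Ind = ddInd = primeInd = 0`).
`r = 4`: for a pair `S` exactly one of `S`, `P \ S` is small: `∏S ≤ Y` gives `∏(P\S) = m/∏S ≥ m/Y > Y`; `∏S > Y` gives `∏S > m/Y` (`TF`), so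
`∏(P\S) < Y`. So `3` of the `6` pairs are small: `1 - 4 + 6/5 = -9/5`; `FL = -9/5` (`g4Ind = 1`, the others `0`).
`r = 5`: for a pair `S` the product of the other three is `> Y`, so `> m/Y`, so `∏S < Y`: all `10` are small: `1 - 5 + 4 = 0`; `FL = 0`. -/
def SpecT1C : Prop := ∀ (m : ℕ) (Y z : ℝ), Squarefree m → 1 ≤ Y → 0 < z → Y ^ 2 < m → Y < z ^ 3 →
  TF Y m → (∀ p : ℕ, p.Prime → p ∣ m → z ≤ (p : ℝ) ∧ (p : ℝ) ≤ Y) → SL Y z m = FL Y z m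

/-- T1L (from T1A, T1B, T1C, 40 lines): case distinction. -/
def SpecT1L : Prop := ∀ (m : ℕ) (Y z : ℝ), Squarefree m → 1 ≤ Y → 0 < z → Y ^ 2 < m → z ≤ m / Y ^ 2 → Y < z ^ 3 →
  TF Y m → SL Y z m = FL Y z m

/-! ## Types -/

/-- the signed weight of the small subtypes; the primes `≥ z` are those with index `≥ j` -/
def sgL (e2 : ℝ) (j : ℕ) (s : Multiset ℕ) : ℝ :=
  if e2 * (s.sum : ℝ) < 6 / 7 then
    (-1 : ℝ) ^ Multiset.card s * (if 2 ≤ Multiset.card (s.filter (fun i => j ≤ i)) then 2 / 5 else 1)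
  else 0

/-- the value of `1_P - SL` on a cube -/
def TcL (e2 : ℝ) (j : ℕ) (c : Multiset ℕ) : ℝ :=
  (if Multiset.card c = 1 then 1 else 0) - (c.powerset.map (sgL e2 j)).sum

/-- T2P (from WSB, T1L, 350 lines): the identity on one good cube. Copy from `QPA/T2K.lean`: `YK_bounds` (with `κ = 6/7`, without the last part),
`good_identity` (with WSB in place of `T2.mu_sum_subsets`: for `S ⊆ m.primeFactors` the number of the `p ∈ S` with `p ≥ z = N^(2/7) = N^(e2 j)` is the number of the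
`i ≥ j` in `S.val.map (T2.idx N e2)`, `T2.idx N e2 p = ⌊logb N p/e2⌋₊`, `Nat.le_floor_iff`; so the term is `sgL e2 j (S.val.map (idx N e2))`), `no_mid` (with `κ = 6/7`). If there is a
subtype `MidK`, then `m` has a divisor `d` with `Y < d`, `Y < m/d` (as in `T2K.p3_mid`), so `p3Ind = 0` (`T2K.p3_zero`) and `TF` is false (`Y < d < m/Y`), so
`g4Ind = ddInd = 0` and `FL = primeInd`, and `primeInd m - SL = TcL`. If there is none, `TF` holds (`no_mid`) and T1L gives `FL = SL`: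
`Y² = (N/2)^(12/7) ≤ (N/2)² < N²/2`; `m/Y² ≥ (N²/2)/(N/2)^(12/7) = 2^(5/7) N^(2/7) ≥ z`; `Y = (N/2)^(6/7) < N^(6/7) = z³`. -/
def SpecT2P : Prop := ∀ (N j : ℕ) (e2 e α : ℝ) (m : ℕ), 10 ≤ N → 0 < e → e ≤ 1 / 40 → 6 ≤ (N : ℝ) ^ e → 0 < e2 → e2 * j = 2 / 7 →
  Squarefree m → (N : ℝ) ^ 2 / 2 ≤ m → (m : ℝ) ≤ 5 * (N : ℝ) ^ 2 → GoodK (6 / 7) e2 e α (T2.typ N e2 m) →
  FL (YL N) (zL N) m - SL (YL N) (zL N) m =
    if ∃ c₁ : Multiset ℕ, c₁ ≤ T2.typ N e2 m ∧ MidK (6 / 7) e2 e c₁ then TcL e2 j (T2.typ N e2 m) else 0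

/-- T2L (from T2P, 300 lines): copy `specT2K` (`QPA/T2K.lean`, with `T2.fam`, `T2.sum_types`, `T2.FF_typ`, `T2.typ_mem`, ...): `e0 = (2/7)/J`, `e2 = e0/Q`, `j = J Q`,
`t c = TcL e2 j c/T2.vf c` if there is a subtype `MidK`, `0` otherwise, `|TcL| ≤ 1 + 2^R`; `psiW N e0 (gw (zL N)) m = SL (YL N) (zL N) m` for rough `m`. Not rough: `FL = 0`: a prime
`m` is rough; the primes of a `p3Ind` number are `≥ m/Y² ≥ 2^(5/7) N^(2/7)` (`T2K.p3_rough` with `6/7`), those of `g4Ind`, `ddInd` numbers are `≥ z`. `|FL| ≤ 10` in the bound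
for the bad types and the not squarefree `m` (`T2K.gen_bound`, `T2.mu_sum_bound` with weights `|.| ≤ 1`: by WSB for squarefree `m`; in general the sum over the divisors has at most
`2^R` nonzero terms, see `T2.mu_sum_bound`). -/
def SpecT2L : Prop := ∀ J : ℕ, 3 ≤ J → ∃ C : ℝ, 0 < C ∧ ∀ e : ℝ, 0 < e → e ≤ 1 / 40 →
  ∃ Q : ℕ, 1 ≤ Q ∧ ∃ (T : Finset (Multiset ℕ)) (t : Multiset ℕ → ℝ), (∀ c ∈ T, ∀ i ∈ c, Q ≤ i) ∧
  (∀ c ∈ T, |t c| ≤ C) ∧ ∃ N₀ : ℕ, ∀ N : ℕ, N₀ ≤ N → ∀ α : ℝ, 3 / 5 ≤ α → α ≤ 5 / 4 →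
  (∀ m : ℕ, (N : ℝ) ^ 2 / 2 ≤ m → (m : ℝ) ≤ 5 * (N : ℝ) ^ 2 →
    |FL (YL N) (zL N) m - psiW N (2 / 7 / J) (gw (zL N)) m
        - ∑ c ∈ T.filter (fun c => GoodK (6 / 7) (2 / 7 / J / Q) e α c), t c * FF N (2 / 7 / J / Q) c m|
      ≤ C * ((if Rough ((N : ℝ) ^ (2 / 7 / J : ℝ)) m ∧ NSq ((N : ℝ) ^ (2 / 7 / J : ℝ)) m then 1 else 0)
        + ∑ x ∈ critK (6 / 7) α, if Rough ((N : ℝ) ^ (2 / 7 / J : ℝ)) m ∧ Win N x (2 * e) m then 1 else 0)) ∧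
  (∀ c ∈ T, GoodK (6 / 7) (2 / 7 / J / Q) e α c → t c ≠ 0 → ∃ c₁ : Multiset ℕ, c₁ ≤ c ∧ MidK (6 / 7) (2 / 7 / J / Q) e c₁)

/-! ## Type I -/

/-- FLAL (from FL, RHO1, RHOM, RHOP, RHO2, RHOS, RHOC): FLAK (`QPA/FLAK.lean`) for `k ≤ N^(6/7)`, same proof (the bound for `k` is used only for the number of
its prime factors, `card_primeFactors_le`). -/
def SpecFLAL : Prop := ∃ C : ℝ, 0 < C ∧ ∀ (b : ℕ) (e0 : ℝ), 0 < e0 → e0 * (8 * b + 16) ≤ 1 / 10 →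
  ∃ N₀ : ℕ, ∀ N : ℕ, N₀ ≤ N → ∀ (a : ℤ) (k : ℕ), Squarefree k → Rough ((N : ℝ) ^ e0) k →
  (k : ℝ) ≤ (N : ℝ) ^ (6 / 7 : ℝ) →
    |(∑ n ∈ Ioc N (2 * N), if k ∣ val a n then rInd ((N : ℝ) ^ e0) (val a n) else 0)
        - N * ((rho a k : ℝ) / k) * Wa ((N : ℝ) ^ e0) a|
      ≤ C * Real.exp (-(b : ℝ)) * N * ((rho a k : ℝ) / k) * Wa ((N : ℝ) ^ e0) a
        + (N : ℝ) ^ (1 / 8 : ℝ)

/-- FLBL (from FL): FLBK (`QPA/FLBK.lean`) for `k ≤ N^(6/7)`, same proof (the bound for `k` is not used). -/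
def SpecFLBL : Prop := ∃ C : ℝ, 0 < C ∧ ∀ (b : ℕ) (e0 : ℝ), 0 < e0 → e0 * (8 * b + 16) ≤ 1 / 10 →
  ∃ N₀ : ℕ, ∀ N : ℕ, N₀ ≤ N → ∀ k : ℕ, Squarefree k → Rough ((N : ℝ) ^ e0) k →
  (k : ℝ) ≤ (N : ℝ) ^ (6 / 7 : ℝ) →
    |(model N (fun m => if k ∣ m then rInd ((N : ℝ) ^ e0) m else 0))
        - N / (k : ℝ) * Wp ((N : ℝ) ^ e0)|
      ≤ C * Real.exp (-(b : ℝ)) * (N / (k : ℝ)) * Wp ((N : ℝ) ^ e0) + 1

/-- MOBL (from RHOWV, 150 lines): MOBV (`U/K/MOBV.lean`) with weights: `β_k = lam k μ(k)/k`. -/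
def SpecMOBL : Prop := ∀ e0 δ B : ℝ, 0 < e0 → e0 ≤ 1 / 10 → 0 < δ → 0 < B →
  ∃ N₀ : ℕ, ∀ N A : ℕ, N₀ ≤ N → (N : ℝ) ^ (1 / 2 : ℝ) ≤ A → (A : ℝ) ≤ (N : ℝ) ^ (11 / 10 : ℝ) →
  ∀ Y : ℝ, 1 ≤ Y → Y ≤ N → ∀ lam : ℕ → ℝ, (∀ k, |lam k| ≤ 1) →
    exc A (fun a => |∑ k ∈ (Icc 1 ⌊Y⌋₊).filter (fun k => Rough ((N : ℝ) ^ e0) k),
      lam k * (ArithmeticFunction.moebius k : ℝ) * ((rho a k : ℝ) - 1) / k| ≤ δ) ≤ A / (Real.log N) ^ B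

/-- TIL (from FLAL, FLBL, PRODV, MOBL, RHMV, GMAXU, WMER, RSUM, 400 lines): TIV (`U/K/TIV.lean`) with weights, level `(N/2)^(6/7) ≤ N^(6/7)`. Replace
`μ(k)` by `lam k μ(k)` everywhere (`TI.mobius_diff`, `TIK.cnt_psiK`, `TIK.model_psiK` have to be copied with the weight; `|lam k μ(k)| ≤ 1`, and the terms with `μ(k) = 0`
vanish); the error `|K| N^(1/8) ≤ N^(6/7+1/8) = N^(55/56)` in place of `N^(37/40)` (use `N^(1/56)` in place of `N^(3/40)`). -/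
def SpecTIL : Prop := ∀ θ ε : ℝ, 1 / 2 < θ → 0 < ε → ∃ e1 : ℝ, 0 < e1 ∧ ∀ e0 B : ℝ, 0 < e0 → e0 ≤ e1 →
  0 < B → ∃ W₀ : ℝ, 0 < W₀ ∧ ∀ W : ℝ, W₀ ≤ W → ∃ N₀ : ℕ, ∀ N A : ℕ, N₀ ≤ N → Adm θ N A →
  ∀ lam : ℕ → ℝ, (∀ k, |lam k| ≤ 1) →
    exc A (fun a => |cnt N a (psiW N e0 lam) - Gw (wN W N) a * model N (psiW N e0 lam)|
      ≤ ε * Gw (wN W N) a * N / Real.log N) ≤ A / (Real.log N) ^ B

/-! ## One block -/

/-- BLKL (from TIL, T2L, TIIV, WINV, WINM, NSFV, NSFM, GMAXU, 350 lines): BLKV (`U/K/BLKV.lean`) for `FL`, `κ = 6/7` (TIIV with `κ = 6/7`, `θ + 6/7 > 3/2`). `e0 = (2/7)/J` with a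
natural number `J ≥ 3` so large that `e0 ≤ e1, e1', 1/10`; `lam = gw (zL N)` (values `1` and `2/5`). The lemmas of `BLKVM`, `BLKK`, `BLK`, `BLKUM` are as before, with
`crit_range` for `6/7` (`1/2 ≤ x ≤ 3/2` for `x ∈ critK (6/7) α`, `3/5 ≤ α ≤ 5/4`; copy `BLKK.crit_range`); `BLKK.adm_ev` needs `3/5 < θ`. -/
def SpecBLKL : Prop := ∀ θ ε B : ℝ, 9 / 14 < θ → 0 < ε → 0 < B →
  ∃ W₀ : ℝ, 0 < W₀ ∧ ∀ W : ℝ, W₀ ≤ W → ∃ N₀ : ℕ, ∀ N A : ℕ, N₀ ≤ N → Adm θ N A →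
    exc A (fun a => |cnt N a (FL (YL N) (zL N)) - Gw (wN W N) a * model N (FL (YL N) (zL N))|
      ≤ ε * Gw (wN W N) a * N / Real.log N) ≤ A / (Real.log N) ^ B

/-! ## The model -/

/-- P3L (from MODP, 180 lines): P3M (`QPA/P3M.lean`, import it) for `κ = 6/7`: `(3κ-2)²/(6κ²(1-κ)) = 14/27`. In `P3M.main` the bound `κ ≤ 4/5` is used only in `Y ≤ N^(4/5)`,
`N^(2/5) Y² ≤ N²`; now `Y ≤ N^(6/7)`, `N^(2/7) Y² ≤ N²`. -/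
def SpecP3L : Prop := ∀ ε : ℝ, 0 < ε → ∃ N₀ : ℕ, ∀ N : ℕ, N₀ ≤ N →
  2 * model N (p3Ind (YL N)) ≤ (7 / 27 + ε) * (N / Real.log N)

/-- INB (from MODP, 60 lines): one prime `q`, the rest `k` fixed: the sum of `1/(2√(kq))` over the primes `q` with `N² < kq ≤ 4N²` is `(1/√k)·inn(N²/k)`
(`P3M.inn`, `P3M.inn_le` of `QPA/P3M.lean`; `N² < kq ≤ 4N²` gives `x < q ≤ 4x`, `x = N²/k`, so `⌊x⌋₊ < q ≤ ⌊4x⌋₊`), at most `(1+δ)(1/√k) √x/log x`, and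
`√x/√k = N/k`, `log x ≥ τ log N`. -/
def SpecINB : Prop := ∀ δ τ : ℝ, 0 < δ → 0 < τ → ∃ N₀ : ℕ, ∀ N k : ℕ, N₀ ≤ N → 1 ≤ k → (k : ℝ) ≤ (N : ℝ) ^ (2 - τ) →
  ∑ q ∈ ((Icc 1 (4 * N ^ 2)).filter Nat.Prime).filter (fun q => N ^ 2 < k * q ∧ k * q ≤ 4 * N ^ 2),
    1 / (2 * √((k * q : ℕ) : ℝ)) ≤ (1 + δ) / τ * (1 / (k : ℝ)) * (N / Real.log N)

/-- MRS (from MER, 60 lines): the sums over the primes in `(N^α, N^β]`, `α = 2857/10000 < 2/7`: numerical bounds. `log x ≤ y` if `x ≤ exp y` (`Real.log_le_iff_le_exp`), lower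
bounds of `exp` by `Real.sum_le_exp_of_nonneg`. `(3/7)/α = 1.500075.. ≤ exp 0.4056`, `(4/7)/(3/7) = 4/3 ≤ exp 0.2877`, `(4/7)/(8/21) = 3/2 ≤ exp 0.4055`. -/
def SpecMRS : Prop := ∃ N₀ : ℕ, ∀ N : ℕ, N₀ ≤ N →
  ∑ p ∈ PW N (2857 / 10000) (3 / 7), 1 / (p : ℝ) ≤ 4057 / 10000 ∧
  ∑ p ∈ PW N (3 / 7) (4 / 7), 1 / (p : ℝ) ≤ 2878 / 10000 ∧
  ∑ p ∈ PW N (8 / 21) (4 / 7), 1 / (p : ℝ) ≤ 4057 / 10000

/-- DDM (from INB, MRS, 200 lines). If `ddInd = 1` then `m = p₁p₂q`, `p₁ < p₂`, `q > Y`, so `q > m/Y` (`TF`), so `p₁p₂ < Y`, `z ≤ p₁ < √Y`, `z ≤ p₂ < Y/z`, so with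
`P₁ = PW N (2857/10000) (3/7)`, `P₂ = PW N (3/7) (4/7)`: `p₁ ∈ P₁`, `p₂ ∈ P₁ ∪ P₂`, `p₁p₂ ≤ N^(6/7)`. So `ddInd m ≤ ∑ 1[m = p₁p₂q for a prime q]` over the pairs `p₁ < p₂` in `P₁` and the pairs `p₁ ∈ P₁`,
`p₂ ∈ P₂`, with `p₁p₂ ≤ N^(6/7)`, and by INB (`τ = 8/7`) `model N ddInd ≤ (1+δ)(7/8)(S₁²/2 + S₁S₂) N/log N`, `S_i` the sum of `1/p` over `P_i` (`∑_{p₁<p₂ in P₁} 1/(p₁p₂) ≤ S₁²/2`).
MRS: `(7/8)(0.4057²/2 + 0.4057·0.2878) = 0.17418 < 7/40`. (Compare `P3M.model_le`.) -/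
def SpecDDM : Prop := ∃ N₀ : ℕ, ∀ N : ℕ, N₀ ≤ N → model N (ddInd (YL N) (zL N)) ≤ 7 / 40 * (N / Real.log N)

/-- G4M (from INB, MRS, 250 lines). If `g4Ind = 1`, `m > N²`, then `m = abcd`, `a < b < c < d` primes in `[z, Y]`. `ad > Y`: otherwise `ab, ac, ad ≤ Y` and
`a²m = (ab)(ac)(ad) ≤ Y³ = (N/2)^(18/7)`, but `a²m > z²N² = N^(18/7)`. So `ad > m/Y` (`TF`) and `bc < Y`; hence `a < b < √Y ≤ N^(3/7)`, `c < Y/z ≤ N^(4/7)`,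
`(abc)² = (ab)(ac)(bc) < Y³`, `abc < Y^(3/2) ≤ N^(9/7)`, and `c³ > abc = m/d ≥ N²/Y ≥ N^(8/7)`, `c > N^(8/21)`. So, with `P₁` as in DDM, `P₃ = PW N (8/21) (4/7)`: `model N g4Ind` is at most
the sum over `a < b` in `P₁`, `c ∈ P₃`, `abc ≤ N^(9/7)`, of the sum in INB for `k = abc` (`τ = 5/7`), at most `(1+δ)(7/5)(S₁²/2) S₃ N/log N`, `(7/5)(0.4057²/2)·0.4057 = 0.04675 < 47/1000`. -/
def SpecG4M : Prop := ∃ N₀ : ℕ, ∀ N : ℕ, N₀ ≤ N → model N (g4Ind (YL N) (zL N)) ≤ 47 / 1000 * (N / Real.log N)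

/-- MDL (from P3L, DDM, G4M, MODP, 60 lines): `1/2 - 7/27 - (9/5)(47/1000) - (3/5)(7/40) = 0.05114`. -/
def SpecMDL : Prop := ∃ N₀ : ℕ, ∀ N : ℕ, N₀ ≤ N → 51 / 1000 * (N / Real.log N) ≤ model N (FL (YL N) (zL N))

/-! ## One scale, all scales -/

/-- FINL (from BLKL, MDL, TAILV, F6U, RHOP, RHO2, GMAXU, 280 lines): FINR (`U/K/FINR.lean`, import it) with the constant `1/20`. BLKL with `ε = 1/10000`:
`cnt M 1_P ≥ cnt M FL ≥ G (51/1000 - 1/10000) L` (`FL ≤ primeInd` pointwise). TAILV with `e0 = 1/100`: `C`; `η = min (1/1000) (1/(40000 C))`, `H = ⌈ηM⌉₊ + 1`: the number of the `n ∈ (M, M+H]`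
with `M^(1/100)`-rough value is `≤ C G 2η L ≤ G L/20000`. F6U with `1/1000`. So `cntk 1 N a ≥ (51/1000 - 3/20000) G L ≥ (506/10000) h L` for `M ≤ N ≤ (1+η)M + 1`, and
`N/log N ≤ (1+η+1/M) L ≤ (1002/1000) L`; `(1/20)(1002/1000) ≤ 506/10000`. -/
def SpecFINL : Prop := ∀ θ : ℝ, 9 / 14 < θ → θ ≤ 1 → ∃ η : ℝ, 0 < η ∧ η ≤ 1 / 10 ∧
  ∀ B : ℝ, 0 < B → ∃ N₀ : ℕ, ∀ M A : ℕ, N₀ ≤ M → (M : ℝ) ^ θ ≤ A → (A : ℝ) ≤ M * √(Real.log M) →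
    exc A (fun a => ∃ h : ℝ, 0 < h ∧ IsC a h ∧ ∀ N : ℕ, M ≤ N → (N : ℝ) ≤ (1 + η) * M + 1 →
      1 / 20 * (h * (N / Real.log N)) ≤ cntk 1 N a) ≤ A / (Real.log A) ^ B

/-- MAINL (from DIAG, UNIX, FINL, 120 lines): for `n : ℕ` take `τ = 14/9 - 1/(n+3)`, `θ = (9/14 + 1/τ)/2` (so `9/14 < θ ≤ 1`, `τ θ < 1`), UNIX for
`P N a h := 1/20 (h N/log N) ≤ cntk 1 N a`; DIAG for the properties `∃ h, ..` with this `τ`. For `δ > 0` take `n` with `1/(n+3) ≤ δ` (`|a| ≥ 1`). Compare `U/K/MAINA.lean`,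
`U/K/MAINW.lean`. -/
def SpecMAINL : Prop := ∃ E : Set ℤ,
  (∀ B : ℝ, ∃ A₀ : ℕ, ∀ A : ℕ, A₀ ≤ A →
    (((Icc (-(A : ℤ)) A).filter (fun a => a ∈ E)).card : ℝ) ≤ A / (Real.log A) ^ B) ∧
  ∀ δ : ℝ, 0 < δ → ∃ a₀ : ℝ, ∀ a : ℤ, a ∉ E → a₀ ≤ |(a : ℝ)| → ∃ h : ℝ, 0 < h ∧ IsC a h ∧
    ∀ N : ℕ, |(a : ℝ)| ≤ N * (Real.log N) ^ (1 / 4 : ℝ) → (N : ℝ) ≤ |(a : ℝ)| ^ (14 / 9 - δ) →
      1 / 20 * (h * (N / Real.log N)) ≤ cntk 1 N a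

end

end Pool.Agent.Lib.MP391708.U.L
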